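import Pool.Agent.H35.ST.Defs

/-! Module COUNT: elementary counting lemmas. -/

namespace H35ST

open Finset

/-- Cancel the constant part of equal multisets. -/
theorem map_eq_of_const {V β : Type*} [Fintype V] [DecidableEq V] (F F' : V → β) (W : Finset V)
    (hc : ∀ x, x ∉ W → F x = F' x)
    (h : (univ : Finset V).val.map F = (univ : Finset V).val.map F') :
    W.val.map F = W.val.map F' := by
  have hsplit : (univ : Finset V).val = W.val + (Wᶜ : Finset V).val := by
    have h1 : (univ : Finset V) = W.disjUnion Wᶜ disjoint_compl_right := by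
      rw [Finset.disjUnion_eq_union, Finset.union_compl]
    conv_lhs => rw [h1]
    rfl
  rw [hsplit, Multiset.map_add, Multiset.map_add] at h
  have h2 : (Wᶜ : Finset V).val.map F = (Wᶜ : Finset V).val.map F' := by
    apply Multiset.map_congr rfl
    intro x hx
    apply hc
    have hx2 : x ∈ Wᶜ := hx
    exact Finset.mem_compl.1 hx2
  rw [h2] at h
  exact add_right_cancel h

/-- Few parameter vectors have all their values in a small set. -/
theorem card_pi_le {ι α β : Type*} [Fintype ι] [Fintype α] [DecidableEq ι] [DecidableEq α]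
    [DecidableEq β]
    (g : ι → α → β) (S : Finset β) (b e : ℕ) (hS : S.card ≤ b)
    (hg : ∀ i y, (univ.filter fun a => g i a = y).card ≤ e) :
    (univ.filter fun j : ι → α => ∀ i, g i (j i) ∈ S).card ≤ (b * e) ^ Fintype.card ι := by
  have h1 : (univ.filter fun j : ι → α => ∀ i, g i (j i) ∈ S)
      = Fintype.piFinset (fun i => univ.filter fun a => g i a ∈ S) := by
    ext j
    simp [Fintype.mem_piFinset]
  rw [h1, Fintype.card_piFinset, ← Finset.card_univ, ← Finset.prod_const]
  apply Finset.prod_le_prod'
  intro i _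
  calc (univ.filter fun a => g i a ∈ S).card
      ≤ (S.biUnion fun y => univ.filter fun a => g i a = y).card := by
        apply Finset.card_le_card
        intro a ha
        rw [Finset.mem_biUnion]
        exact ⟨g i a, (Finset.mem_filter.1 ha).2, by simp⟩
    _ ≤ ∑ y ∈ S, (univ.filter fun a => g i a = y).card := Finset.card_biUnion_le
    _ ≤ ∑ _y ∈ S, e := Finset.sum_le_sum fun y _ => hg i y
    _ = S.card * e := by rw [Finset.sum_const, smul_eq_mul]
    _ ≤ b * e := Nat.mul_le_mul_right _ hS

/-- Disjoint zones: `Z s` are nonempty finite sets with at most `b` elements and every point is in at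
most `a` of them; then there are many pairwise disjoint ones (take a maximal disjoint subfamily). -/
theorem exists_disjoint_zones {α β : Type*} [DecidableEq α] [DecidableEq β] (S : Finset α)
    (Z : α → Finset β) (a b : ℕ) (hne : ∀ s ∈ S, (Z s).Nonempty) (hb : ∀ s ∈ S, (Z s).card ≤ b)
    (ha : ∀ x, (S.filter fun s => x ∈ Z s).card ≤ a) :
    ∃ S' ⊆ S, S.card ≤ a * b * S'.card ∧
      ∀ s ∈ S', ∀ s' ∈ S', s ≠ s' → Disjoint (Z s) (Z s') := by
  classical
  let F : Finset (Finset α) := S.powerset.filter fun T => ∀ s ∈ T, ∀ s' ∈ T, s ≠ s' → Disjoint (Z s) (Z s')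
  have hF : F.Nonempty := ⟨∅, by simp [F]⟩
  obtain ⟨T, hT, hmax⟩ := Finset.exists_max_image F Finset.card hF
  have hT' := Finset.mem_filter.1 hT
  have hTS : T ⊆ S := Finset.mem_powerset.1 hT'.1
  have hTd := hT'.2
  refine ⟨T, hTS, ?_, hTd⟩
  have hcov : ∀ s ∈ S, ∃ s' ∈ T, ∃ x, x ∈ Z s' ∧ x ∈ Z s := by
    intro s hs
    by_cases hsT : s ∈ T
    · obtain ⟨x, hx⟩ := hne s hs
      exact ⟨s, hsT, x, hx, hx⟩
    · by_contra hcon
      push Not at hcon
      have hmem : insert s T ∈ F := by
        refine Finset.mem_filter.2 ⟨Finset.mem_powerset.2 (Finset.insert_subset hs hTS), ?_⟩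
        intro u hu u' hu' huu
        rcases Finset.mem_insert.1 hu with heq1 | huT
        · subst heq1
          rcases Finset.mem_insert.1 hu' with rfl | hu'
          · exact absurd rfl huu
          · rw [Finset.disjoint_left]
            intro x hx hx'
            exact hcon u' hu' x hx' hx
        · rcases Finset.mem_insert.1 hu' with heq | hu'
          · subst heq
            rw [Finset.disjoint_left]
            intro x hx hx'
            exact hcon u huT x hx hx'
          · exact hTd u huT u' hu' huu
      have h2 := hmax _ hmem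
      rw [Finset.card_insert_of_notMem hsT] at h2
      omega
  calc S.card ≤ (T.biUnion fun s' => (Z s').biUnion fun x => S.filter fun s => x ∈ Z s).card := by
        apply Finset.card_le_card
        intro s hs
        obtain ⟨s', hs', x, hx, hx'⟩ := hcov s hs
        rw [Finset.mem_biUnion]
        refine ⟨s', hs', ?_⟩
        rw [Finset.mem_biUnion]
        exact ⟨x, hx, Finset.mem_filter.2 ⟨hs, hx'⟩⟩
    _ ≤ ∑ s' ∈ T, ((Z s').biUnion fun x => S.filter fun s => x ∈ Z s).card := Finset.card_biUnion_le
    _ ≤ ∑ _s' ∈ T, a * b := by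
        apply Finset.sum_le_sum
        intro s' hs'
        calc ((Z s').biUnion fun x => S.filter fun s => x ∈ Z s).card
            ≤ ∑ x ∈ Z s', (S.filter fun s => x ∈ Z s).card := Finset.card_biUnion_le
          _ ≤ ∑ _x ∈ Z s', a := Finset.sum_le_sum fun x _ => ha x
          _ = (Z s').card * a := by rw [Finset.sum_const, smul_eq_mul]
          _ ≤ b * a := Nat.mul_le_mul_right _ (hb s' (hTS hs'))
          _ = a * b := Nat.mul_comm _ _
    _ = a * b * T.card := by rw [Finset.sum_const, smul_eq_mul, Nat.mul_comm]

/-- Pigeonhole: some fibre is large. -/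
theorem exists_large_fiber {α β : Type*} [DecidableEq α] [DecidableEq β] (S : Finset α)
    (T : Finset β) (f : α → β) (hT : T.Nonempty) (hf : ∀ s ∈ S, f s ∈ T) :
    ∃ y ∈ T, S.card ≤ T.card * (S.filter fun s => f s = y).card := by
  obtain ⟨y, hy, hmax⟩ := Finset.exists_max_image T (fun y => (S.filter fun s => f s = y).card) hT
  refine ⟨y, hy, ?_⟩
  calc S.card = ∑ z ∈ T, (S.filter fun s => f s = z).card := Finset.card_eq_sum_card_fiberwise hf
    _ ≤ ∑ _z ∈ T, (S.filter fun s => f s = y).card := Finset.sum_le_sum hmax
    _ = T.card * (S.filter fun s => f s = y).card := by rw [Finset.sum_const, smul_eq_mul]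

end H35ST
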