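import Pool.Agent.H35.ST.TreeA

/-! Module TREE-C: modification principle, cores. -/

namespace H35ST

open Finset

variable {V : Type*} [Fintype V] [DecidableEq V]

/-- Modification principle: `f = P` on `K`, and outside `K` every vertex is attached to a
neighbour in `K` or of smaller rank. Height: `c.ht` on `K`, `(sup of c.ht) + 1 + rk u` outside. -/
theorem Core.isPar {G : SimpleGraph V} (c : Core G) (f : V → V) (rk : V → ℕ)
    (hK : ∀ v ∈ c.K, f v = c.P v) (hadj : ∀ u, u ∉ c.K → G.Adj u (f u))
    (hrk : ∀ u, u ∉ c.K → f u ∈ c.K ∨ rk (f u) < rk u) : IsPar G c.r f := by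
  refine ⟨fun v hv => ?_, fun v => if v ∈ c.K then c.ht v else univ.sup c.ht + 1 + rk v,
    fun v hv => ?_⟩
  · by_cases h : v ∈ c.K
    · rw [hK v h]
      exact c.adj v hv
    · exact hadj v h
  · by_cases h : v ∈ c.K
    · have h1 : f v ∈ c.K := by
        rw [hK v h]
        exact c.I_sub (c.par_mem v hv)
      simp only [if_pos h, if_pos h1]
      rw [hK v h]
      exact c.ht_lt v hv
    · simp only [if_neg h]
      by_cases h1 : f v ∈ c.K
      · simp only [if_pos h1]
        have h2 : c.ht (f v) ≤ univ.sup c.ht := Finset.le_sup (f := c.ht) (mem_univ (f v))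
        omega
      · simp only [if_neg h1]
        rcases hrk v h with h2 | h2
        · exact absurd h2 h1
        · omega

/-- In every modification the root has two children. -/
theorem Core.two_le_root {G : SimpleGraph V} (c : Core G) (f : V → V)
    (hK : ∀ v ∈ c.K, f v = c.P v) : 2 ≤ (chn c.r f c.r).card := by
  obtain ⟨v, hv, w, hw, hvw, hvr, hwr, h1, h2⟩ := c.rchild
  have h3 : ({v, w} : Finset V) ⊆ chn c.r f c.r := by
    intro x hx
    unfold chn
    rw [Finset.mem_filter]
    rw [Finset.mem_insert, Finset.mem_singleton] at hx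
    rcases hx with rfl | rfl
    · exact ⟨mem_univ _, hvr, by rw [hK _ hv, h1]⟩
    · exact ⟨mem_univ _, hwr, by rw [hK _ hw, h2]⟩
  calc 2 = ({v, w} : Finset V).card := (Finset.card_pair hvw).symm
    _ ≤ _ := Finset.card_le_card h3

/-- In every modification the vertices of `I` have children. -/
theorem Core.chn_nonempty {G : SimpleGraph V} (c : Core G) (f : V → V)
    (hK : ∀ v ∈ c.K, f v = c.P v) (x : V) (hx : x ∈ c.I) : (chn c.r f x).Nonempty := by
  by_cases h : x = c.r
  · have := c.two_le_root f hK
    rw [h]
    exact Finset.card_pos.1 (by omega)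
  · obtain ⟨v, hv, hvr, h1⟩ := c.child x hx h
    refine ⟨v, ?_⟩
    unfold chn
    rw [Finset.mem_filter]
    exact ⟨mem_univ _, hvr, by rw [hK _ hv, h1]⟩

/-- Toggle systems are modifications: `X` is disjoint from `K`, every `x ∈ X` is adjacent to
`on x` and `off x`, which are not in `X`. (rank 2 on `X`, 1 elsewhere.) -/
theorem Core.isPar_tog {G : SimpleGraph V} (c : Core G) (on off : V → V) (X J : Finset V)
    (hX : Disjoint X c.K) (hon : ∀ x ∈ X, G.Adj x (on x) ∧ on x ∉ X)
    (hoff : ∀ x ∈ X, G.Adj x (off x) ∧ off x ∉ X) :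
    IsPar G c.r (tog c.P on off X J) := by
  have hr : ∀ u, u ∉ c.K → u ≠ c.r := by
    rintro u hu rfl
    exact hu (c.I_sub c.r_mem)
  refine c.isPar _ (fun v => if v ∈ X then 2 else 1) ?_ ?_ ?_
  · intro v hv
    have : v ∉ X := fun h => (Finset.disjoint_left.1 hX h) hv
    unfold tog
    rw [if_neg this]
  · intro u hu
    unfold tog
    by_cases h : u ∈ X
    · rw [if_pos h]
      by_cases h1 : u ∈ J
      · rw [if_pos h1]
        exact (hon u h).1
      · rw [if_neg h1]
        exact (hoff u h).1
    · rw [if_neg h]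
      exact c.adj u (hr u hu)
  · intro u hu
    by_cases h : u ∈ X
    · right
      have h2 : tog c.P on off X J u ∉ X := by
        unfold tog
        rw [if_pos h]
        by_cases h1 : u ∈ J
        · rw [if_pos h1]
          exact (hon u h).2
        · rw [if_neg h1]
          exact (hoff u h).2
      simp only [if_pos h, if_neg h2]
      norm_num
    · left
      unfold tog
      rw [if_neg h]
      exact c.I_sub (c.par_mem u (hr u hu))

end H35ST
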