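import Pool.Agent.H35.ST.TreeA

/-! Module TREE-D: counting isomorphism classes. -/

namespace H35ST

open Finset

variable {V : Type*} [Fintype V] [DecidableEq V]

/-- Variant: every isomorphism class contains at most `C` members of the family. -/
theorem card_le_tauIso' {G : SimpleGraph V} {r : V} {J : Type*} [Fintype J]
    (F : J → V → V) (hF : ∀ j, IsPar G r (F j)) (C : ℕ)
    (hC : ∀ j, ∃ S : Finset J, S.card ≤ C ∧
      ∀ j', Nonempty (parTree r (F j) ≃g parTree r (F j')) → j' ∈ S) :
    Fintype.card J ≤ C * tauIso G := by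
  classical
  let cls : J → Quotient (isoSetoid G) := fun j =>
    Quotient.mk (isoSetoid G) ⟨parTree r (F j), parTree_le (hF j), parTree_isTree (hF j)⟩
  have hfin : Finite (Quotient (isoSetoid G)) := inferInstance
  let _ : Fintype (Quotient (isoSetoid G)) := Fintype.ofFinite _
  have h1 : (univ : Finset J).card ≤ C * (univ.image cls).card := by
    apply card_le_mul_card_image
    intro b hb
    obtain ⟨j, -, rfl⟩ := mem_image.1 hb
    obtain ⟨S, hS, hS2⟩ := hC j
    refine (card_le_card ?_).trans hS
    intro j' hj'
    rw [mem_filter] at hj'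
    exact hS2 j' (Quotient.exact hj'.2.symm)
  have h2 : (univ.image cls).card ≤ tauIso G := by
    rw [tauIso, Nat.card_eq_fintype_card]
    exact card_le_univ _
  exact h1.trans (Nat.mul_le_mul_left _ h2)

/-- A family of spanning trees with an isomorphism invariant `Φ` all of whose fibres have at most
`C` elements. Map `j` to the class of `parTree r (F j)` and use `Finset.card_le_mul_card_image`. -/
theorem card_le_tauIso {G : SimpleGraph V} {r : V} {J β : Type*} [Fintype J] [DecidableEq β]
    (F : J → V → V) (hF : ∀ j, IsPar G r (F j)) (Φ : J → β)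
    (hΦ : ∀ j j', Nonempty (parTree r (F j) ≃g parTree r (F j')) → Φ j = Φ j')
    (C : ℕ) (hC : ∀ b, (univ.filter fun j => Φ j = b).card ≤ C) :
    Fintype.card J ≤ C * tauIso G := by
  classical
  apply card_le_tauIso' F hF C
  intro j
  refine ⟨univ.filter fun j' => Φ j' = Φ j, hC _, fun j' hj' => ?_⟩
  rw [mem_filter]
  exact ⟨mem_univ _, (hΦ j j' hj').symm⟩

end H35ST
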