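import Pool.Agent.H35.ST.Defs

/-! Module TREE-E: degrees in toggle systems. -/

namespace H35ST

open Finset

variable {V : Type*} [Fintype V] [DecidableEq V]

/-- Degrees in toggle systems. -/
theorem dg_tog (r : V) (P on off : V → V) (X J : Finset V) (hr : r ∉ X) (hJ : J ⊆ X) (y : V) :
    dg r (tog P on off X J) y + (J.filter fun x => off x = y).card =
      dg r (tog P on off X ∅) y + (J.filter fun x => on x = y).card := by
  have hne : ∀ x ∈ X, x ≠ r := fun x hx h => hr (h ▸ hx)
  have key : ∀ J' ⊆ X, (chn r (tog P on off X J') y).card =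
      (univ.filter fun v => v ≠ r ∧ v ∉ X ∧ P v = y).card + (J'.filter fun x => on x = y).card +
        ((X \ J').filter fun x => off x = y).card := by
    intro J' hJ'
    have h1 : chn r (tog P on off X J') y =
        ((univ.filter fun v => v ≠ r ∧ v ∉ X ∧ P v = y) ∪ (J'.filter fun x => on x = y)) ∪
          ((X \ J').filter fun x => off x = y) := by
      ext v
      have hmem : v ∈ chn r (tog P on off X J') y ↔ v ≠ r ∧
          (if v ∈ X then (if v ∈ J' then on v else off v) else P v) = y := by
        unfold chn
        rw [mem_filter]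
        exact ⟨fun h => h.2, fun h => ⟨mem_univ _, h⟩⟩
      rw [hmem]
      simp only [mem_filter, mem_univ, true_and, mem_union, mem_sdiff]
      constructor
      · rintro ⟨h1, h2⟩
        by_cases hX : v ∈ X
        · by_cases hJv : v ∈ J'
          · rw [if_pos hX, if_pos hJv] at h2
            exact Or.inl (Or.inr ⟨hJv, h2⟩)
          · rw [if_pos hX, if_neg hJv] at h2
            exact Or.inr ⟨⟨hX, hJv⟩, h2⟩
        · rw [if_neg hX] at h2
          exact Or.inl (Or.inl ⟨h1, hX, h2⟩)
      · rintro ((⟨h1, h2, h3⟩ | ⟨h1, h2⟩) | ⟨⟨h1, h2⟩, h3⟩)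
        · exact ⟨h1, by rw [if_neg h2]; exact h3⟩
        · exact ⟨hne v (hJ' h1), by rw [if_pos (hJ' h1), if_pos h1]; exact h2⟩
        · exact ⟨hne v h1, by rw [if_pos h1, if_neg h2]; exact h3⟩
    rw [h1, card_union_of_disjoint, card_union_of_disjoint]
    · rw [disjoint_left]
      intro v hv hv'
      rw [mem_filter] at hv hv'
      exact hv.2.2.1 (hJ' hv'.1)
    · rw [disjoint_left]
      intro v hv hv'
      rw [mem_filter, mem_sdiff] at hv'
      rw [mem_union, mem_filter, mem_filter] at hv
      rcases hv with hv | hv
      · exact hv.2.2.1 hv'.1.1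
      · exact hv'.1.2 hv.1
  have hoff : (X.filter fun x => off x = y).card =
      ((X \ J).filter fun x => off x = y).card + (J.filter fun x => off x = y).card := by
    rw [← card_union_of_disjoint, ← filter_union, sdiff_union_of_subset hJ]
    exact disjoint_filter_filter sdiff_disjoint
  have h1 := key J hJ
  have h2 := key ∅ (empty_subset _)
  rw [sdiff_empty, filter_empty, card_empty] at h2
  simp only [dg, h1, h2]
  omega

end H35ST
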