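import Pool.Agent.H35.ST.TreeB
import Pool.Agent.H35.ST.TreeC
import Pool.Agent.H35.ST.TreeD
import Pool.Agent.H35.ST.TreeE
import Pool.Agent.H35.ST.Count

/-! Module CASE1C: counting for many hubs (parity trick). -/

namespace H35ST

open Finset

variable {V : Type*} [Fintype V] [DecidableEq V]

/-- Toggle system with `X = ⋃ X h`, `on x` = the `h ∈ S` with `x ∈ X h`, `off x = q x`.
Let `g z` be the degree of `z` with everything off. For every `h` of the second type one of the
parities `ρ ∈ {0, 1}` has at least `M / 2` elements `x ∈ X h` with `g (q x) + ρ` odd; choose a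
common `ρ` for `k` of the hubs (`S' ⊆ S`) and sets `X' h ⊆ X h` with `M / 2` such elements
(for the first type any elements). For `a : S' → Fin (M / 2 + 1)` switch on the first `a h`
elements of each `X' h`. By `dg_tog`, `(dg + ρ) / 2` is constant outside `W = S' ∪ y(S')`
(an alternative `q x` of the second type has degree `g (q x)` or `g (q x) - 1`), and the degree
of `h ∈ S'` is `const + a h` (no `q x` is in `S`). `W.card ≤ 2 k`; `card_pi_le` with `b = 2 k`,
`e = 2`. -/
theorem case_one_count {G : SimpleGraph V} [DecidableRel G.Adj] (c : Core G)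
    (S : Finset V) (X : V → Finset V) (q y : V → V) (k M : ℕ) (hSK : S ⊆ c.K)
    (hS : S.card = 2 * k)
    (hX : ∀ h ∈ S, X h ⊆ nb G h c.Kᶜ ∧ (X h).card = M)
    (hdisj : ∀ h ∈ S, ∀ h' ∈ S, h ≠ h' → Disjoint (X h) (X h'))
    (hq : ∀ h ∈ S, ∀ x ∈ X h, G.Adj x (q x) ∧ q x ≠ h ∧ ∀ h' ∈ S, q x ∉ X h')
    (hy : ∀ h ∈ S, y h ∉ S)
    (htype : ∀ h ∈ S, (∀ x ∈ X h, q x = y h) ∨
        (∀ x ∈ X h, q x ∉ S ∧ (∀ h' ∈ S, q x ≠ y h') ∧
          ∀ h' ∈ S, ∀ x' ∈ X h', q x' = q x → x' = x)) :
    (M / 2 + 1) ^ k ≤ (4 * k) ^ k * tauIso G := by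
  classical
  set XX := S.biUnion X with hXX
  let on : V → V := fun x => if h : ∃ h ∈ S, x ∈ X h then h.choose else x
  have hon : ∀ h ∈ S, ∀ x ∈ X h, on x = h := by
    intro h hh x hx
    have hex : ∃ h ∈ S, x ∈ X h := ⟨h, hh, hx⟩
    have h1 : on x = hex.choose := dif_pos hex
    rw [h1]
    obtain ⟨h2, h3⟩ := hex.choose_spec
    by_contra hne
    exact Finset.disjoint_left.1 (hdisj _ h2 _ hh hne) h3 hx
  have hmem : ∀ x, x ∈ XX ↔ ∃ h ∈ S, x ∈ X h := fun x => by rw [hXX, mem_biUnion]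
  have hXn : ∀ h ∈ S, ∀ x ∈ X h, x ∉ c.K ∧ G.Adj h x := by
    intro h hh x hx
    have h1 := (hX h hh).1 hx
    rw [nb, mem_filter, mem_compl] at h1
    exact h1
  have hXK : Disjoint XX c.K := by
    rw [Finset.disjoint_left]
    intro x hx
    obtain ⟨h, hh, hx⟩ := (hmem x).1 hx
    exact (hXn h hh x hx).1
  have hpar : ∀ J, IsPar G c.r (tog c.P on q XX J) := by
    intro J
    refine c.isPar_tog on q XX J hXK ?_ ?_
    · intro x hx
      obtain ⟨h, hh, hx⟩ := (hmem x).1 hx
      rw [hon h hh x hx]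
      refine ⟨(hXn h hh x hx).2.symm, fun h1 => ?_⟩
      exact Finset.disjoint_left.1 hXK h1 (hSK hh)
    · intro x hx
      obtain ⟨h, hh, hx⟩ := (hmem x).1 hx
      refine ⟨(hq h hh x hx).1, fun h1 => ?_⟩
      obtain ⟨h', hh', hx'⟩ := (hmem _).1 h1
      exact (hq h hh x hx).2.2 h' hh' hx'
  have hrX : c.r ∉ XX := fun h => Finset.disjoint_left.1 hXK h (c.I_sub c.r_mem)
  set g : V → ℕ := dg c.r (tog c.P on q XX ∅) with hg
  have hdg : ∀ J, J ⊆ XX → ∀ z, dg c.r (tog c.P on q XX J) z + (J.filter fun x => q x = z).card =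
      g z + (J.filter fun x => on x = z).card := fun J hJ z =>
    dg_tog c.r c.P on q XX J hrX hJ z
  -- the parity
  let Good : ℕ → V → Prop := fun ρ h => ∃ X' ⊆ X h, X'.card = M / 2 ∧
    ((∀ x ∈ X h, q x = y h) ∨ ∀ x ∈ X', (g (q x) + ρ) % 2 = 1)
  have hgood : ∀ h ∈ S, Good 0 h ∨ Good 1 h := by
    intro h hh
    have h1 := Finset.card_filter_add_card_filter_not (s := X h) (fun x => g (q x) % 2 = 1)
    rw [(hX h hh).2] at h1
    rcases le_or_gt (M / 2) ((X h).filter fun x => g (q x) % 2 = 1).card with h2 | h2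
    · obtain ⟨X', h3, h4⟩ := Finset.exists_subset_card_eq h2
      refine Or.inl ⟨X', h3.trans (filter_subset _ _), h4, Or.inr fun x hx => ?_⟩
      have := (mem_filter.1 (h3 hx)).2
      omega
    · have h2' : M / 2 ≤ ((X h).filter fun x => ¬ g (q x) % 2 = 1).card := by omega
      obtain ⟨X', h3, h4⟩ := Finset.exists_subset_card_eq h2'
      refine Or.inr ⟨X', h3.trans (filter_subset _ _), h4, Or.inr fun x hx => ?_⟩
      have := (mem_filter.1 (h3 hx)).2
      omega
  have hex : ∃ ρ : ℕ, ∃ S' ⊆ S, S'.card = k ∧ ∀ h ∈ S', Good ρ h := by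
    have h1 : S ⊆ S.filter (Good 0) ∪ S.filter (Good 1) := by
      intro h hh
      rw [mem_union, mem_filter, mem_filter]
      exact (hgood h hh).imp (fun h => ⟨hh, h⟩) (fun h => ⟨hh, h⟩)
    have h2 := (card_le_card h1).trans (card_union_le _ _)
    rw [hS] at h2
    rcases le_or_gt k (S.filter (Good 0)).card with h3 | h3
    · obtain ⟨S', h4, h5⟩ := Finset.exists_subset_card_eq h3
      exact ⟨0, S', h4.trans (filter_subset _ _), h5, fun h hh => (mem_filter.1 (h4 hh)).2⟩
    · have h3' : k ≤ (S.filter (Good 1)).card := by omega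
      obtain ⟨S', h4, h5⟩ := Finset.exists_subset_card_eq h3'
      exact ⟨1, S', h4.trans (filter_subset _ _), h5, fun h hh => (mem_filter.1 (h4 hh)).2⟩
  obtain ⟨ρ, S', hS', hS'k, hρ⟩ := hex
  choose! X' hX'1 hX'2 hX'3 using hρ
  have hT : ∀ (h : {h // h ∈ S'}) (a : Fin (M / 2 + 1)), ∃ T ⊆ X' h.1, T.card = a.val := by
    intro h a
    refine Finset.exists_subset_card_eq ?_
    rw [hX'2 h.1 h.2]
    have := a.isLt
    omega
  choose T hT1 hT2 using hT
  have hTX : ∀ (h : {h // h ∈ S'}) (a : Fin (M / 2 + 1)), ∀ x ∈ T h a, x ∈ X h.1 :=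
    fun h a x hx => hX'1 h.1 h.2 (hT1 h a hx)
  let J : ({h // h ∈ S'} → Fin (M / 2 + 1)) → Finset V := fun a =>
    univ.biUnion fun h : {h // h ∈ S'} => T h (a h)
  have hJmem : ∀ a x, x ∈ J a ↔ ∃ h : {h // h ∈ S'}, x ∈ T h (a h) := by
    intro a x
    simp only [J, mem_biUnion, mem_univ, true_and]
  have hJX : ∀ a, J a ⊆ XX := by
    intro a x hx
    obtain ⟨h, hx⟩ := (hJmem a x).1 hx
    exact (hmem x).2 ⟨h.1, hS' h.2, hTX h _ x hx⟩
  -- the number of elements switched on
  have hon1 : ∀ a (h : {h // h ∈ S'}), ((J a).filter fun x => on x = h.1) = T h (a h) := by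
    intro a h
    ext x
    rw [mem_filter, hJmem]
    constructor
    · rintro ⟨⟨h', hx⟩, hx2⟩
      rw [hon h'.1 (hS' h'.2) x (hTX h' _ x hx)] at hx2
      have : h' = h := Subtype.ext hx2
      subst this
      exact hx
    · intro hx
      exact ⟨⟨h, hx⟩, hon h.1 (hS' h.2) x (hTX h _ x hx)⟩
  have hon2 : ∀ a z, z ∉ S' → ((J a).filter fun x => on x = z) = ∅ := by
    intro a z hz
    rw [filter_eq_empty_iff]
    intro x hx hx2
    obtain ⟨h, hx⟩ := (hJmem a x).1 hx
    rw [hon h.1 (hS' h.2) x (hTX h _ x hx)] at hx2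
    exact hz (hx2 ▸ h.2)
  -- no alternative is in `S`
  have hqS : ∀ a, ∀ x ∈ J a, q x ∉ S := by
    intro a x hx
    obtain ⟨h, hx⟩ := (hJmem a x).1 hx
    rcases htype h.1 (hS' h.2) with h1 | h1
    · rw [h1 x (hTX h _ x hx)]
      exact hy h.1 (hS' h.2)
    · exact (h1 x (hTX h _ x hx)).1
  have hd1 : ∀ a (h : {h // h ∈ S'}), dg c.r (tog c.P on q XX (J a)) h.1 = g h.1 + (a h).val := by
    intro a h
    have h1 := hdg (J a) (hJX a) h.1
    rw [hon1, hT2] at h1
    have h2 : ((J a).filter fun x => q x = h.1) = ∅ := by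
      rw [filter_eq_empty_iff]
      intro x hx hx2
      exact hqS a x hx (hx2 ▸ hS' h.2)
    rw [h2, card_empty, add_zero] at h1
    exact h1
  let W : Finset V := S' ∪ S'.image y
  have hWcard : W.card ≤ 2 * k := by
    refine (card_union_le _ _).trans ?_
    have := card_image_le (s := S') (f := y)
    omega
  have hd2 : ∀ a z, z ∉ W → (dg c.r (tog c.P on q XX (J a)) z + ρ) / 2 = (g z + ρ) / 2 := by
    intro a z hz
    rw [mem_union, not_or] at hz
    have h1 := hdg (J a) (hJX a) z
    rw [hon2 a z hz.1, card_empty, add_zero] at h1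
    rcases ((J a).filter fun x => q x = z).eq_empty_or_nonempty with h2 | ⟨x, hx⟩
    · rw [h2, card_empty, add_zero] at h1
      rw [h1]
    · obtain ⟨hxJ, hxz⟩ := mem_filter.1 hx
      obtain ⟨h, hxT⟩ := (hJmem a x).1 hxJ
      have ht1 : ¬ ∀ x ∈ X h.1, q x = y h.1 := by
        intro h3
        refine hz.2 (mem_image.2 ⟨h.1, h.2, ?_⟩)
        rw [← h3 x (hTX h _ x hxT), hxz]
      have ht2 := (htype h.1 (hS' h.2)).resolve_left ht1
      have ht3 := (hX'3 h.1 h.2).resolve_left ht1 x (hT1 h _ hxT)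
      have h4 : ((J a).filter fun x => q x = z) = {x} := by
        rw [eq_singleton_iff_unique_mem]
        refine ⟨hx, fun x' hx' => ?_⟩
        obtain ⟨hxJ', hxz'⟩ := mem_filter.1 hx'
        obtain ⟨h', hxT'⟩ := (hJmem a x').1 hxJ'
        exact (ht2 x (hTX h _ x hxT)).2.2 h'.1 (hS' h'.2) x' (hTX h' _ x' hxT')
          (hxz'.trans hxz.symm)
      rw [h4, card_singleton] at h1
      rw [hxz] at ht3
      omega
  -- the counting
  let Φ : ({h // h ∈ S'} → Fin (M / 2 + 1)) → Multiset ℕ := fun a =>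
    W.val.map fun z => (dg c.r (tog c.P on q XX (J a)) z + ρ) / 2
  have key := card_le_tauIso (G := G) (fun a => tog c.P on q XX (J a)) (fun a => hpar (J a)) Φ
    (fun a a' hiso => by
      refine map_eq_of_const _ _ W (fun z hz => ?_) ?_
      · rw [hd2 a z hz, hd2 a' z hz]
      · have h1 := dg_multiset (hpar (J a)) (hpar (J a')) hiso
        have h2 := congrArg (Multiset.map fun n => (n + ρ) / 2) h1
        rw [Multiset.map_map, Multiset.map_map] at h2
        exact h2) ((4 * k) ^ k) (fun b => by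
      rcases (univ.filter fun a => Φ a = b).eq_empty_or_nonempty with h0 | ⟨a0, ha0⟩
      · rw [h0, card_empty]
        exact Nat.zero_le _
      have hb : b.toFinset.card ≤ 2 * k := by
        refine (Multiset.toFinset_card_le b).trans ?_
        rw [← (mem_filter.1 ha0).2]
        simp only [Φ, Multiset.card_map]
        exact hWcard
      have h1 := card_pi_le (ι := {h // h ∈ S'}) (α := Fin (M / 2 + 1))
        (fun h a => (g h.1 + a.val + ρ) / 2) b.toFinset (2 * k) 2 hb (fun h m => by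
          have h2 : ((univ.filter fun a : Fin (M / 2 + 1) =>
              (g h.1 + a.val + ρ) / 2 = m)).card ≤ (range 2).card := by
            refine card_le_card_of_injOn (fun a => (g h.1 + a.val + ρ) % 2) ?_ ?_
            · intro a _
              rw [mem_coe, mem_range]
              exact Nat.mod_lt _ two_pos
            · intro a ha a' ha' haa
              have h3 := (mem_filter.1 (mem_coe.1 ha)).2
              have h4 := (mem_filter.1 (mem_coe.1 ha')).2
              have haa' : (g h.1 + a.val + ρ) % 2 = (g h.1 + a'.val + ρ) % 2 := haa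
              refine Fin.ext ?_
              omega
          rwa [card_range] at h2)
      have h3 : Fintype.card {h // h ∈ S'} = k := by
        rw [Fintype.card_coe, hS'k]
      rw [h3] at h1
      have h4 : 2 * k * 2 = 4 * k := by ring
      rw [h4] at h1
      refine le_trans (card_le_card ?_) h1
      intro a ha
      rw [mem_filter] at ha ⊢
      refine ⟨mem_univ _, fun h => ?_⟩
      rw [Multiset.mem_toFinset, ← ha.2]
      refine Multiset.mem_map.2 ⟨h.1, mem_union_left _ h.2, ?_⟩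
      rw [hd1])
  have hc : Fintype.card ({h // h ∈ S'} → Fin (M / 2 + 1)) = (M / 2 + 1) ^ k := by
    rw [Fintype.card_fun, Fintype.card_fin, Fintype.card_coe, hS'k]
  rwa [hc] at key

end H35ST
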