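import Pool.Agent.H35.ST.Case1b
import Pool.Agent.H35.ST.Case1c

/-! Case 1: many hubs. -/

namespace H35ST

open Finset

variable {V : Type*} [Fintype V] [DecidableEq V]

theorem case_one {G : SimpleGraph V} [DecidableRel G.Adj] (c : Core G) (H : Finset V) (M k : ℕ)
    (hHK : H ⊆ c.K) (hH : H.card = 6 * k) (hM : 100 * (k + 1) ≤ M)
    (hdeg : ∀ v, 2 ≤ (nb G v univ).card)
    (hhub : ∀ h ∈ H, M ^ 4 ≤ (nb G h c.Kᶜ).card + 6 * k) :
    (M / 2 + 1) ^ k ≤ (4 * k) ^ k * tauIso G := by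
  have hHU : Disjoint H c.Kᶜ := by
    rw [disjoint_left]
    intro x hx hx'
    exact (mem_compl.1 hx') (hHK hx)
  obtain ⟨S, X, q, y, h1, h2, h3, h4, h5, h6, h7⟩ :=
    select_toggles G c.Kᶜ H M k hHU hH hM hdeg hhub
  exact case_one_count c S X q y k M (h1.trans hHK) h2 h3 h4 h5 h6 h7

end H35ST
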