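import Pool.Agent.H35.ST.Defs

/-! Module CASE1A: independent sets in functional digraphs. -/

namespace H35ST

open Finset

/-- Strong induction on `H.card`: some `a ∈ H` has at most one `b ∈ H` with `y b = a` (the sum of
these numbers over `a ∈ H` is at most `H.card`). Remove `a`, `y a` and this `b`. -/
theorem exists_independent {α : Type*} [DecidableEq α] (H : Finset α) (y : α → α)
    (hy : ∀ h ∈ H, y h ≠ h) :
    ∃ S ⊆ H, H.card ≤ 3 * S.card ∧ ∀ a ∈ S, y a ∉ S := by
  classical
  induction H using Finset.strongInduction with
  | H H ih =>
    rcases H.eq_empty_or_nonempty with rfl | hne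
    · exact ⟨∅, subset_rfl, by simp, by simp⟩
    · have hsum : ∑ a ∈ H, (H.filter fun b => y b = a).card ≤ ∑ _a ∈ H, 1 := by
        rw [← card_eq_sum_ones]
        have : (H.filter fun b => y b ∈ H).card = ∑ a ∈ H, (H.filter fun b => y b = a).card := by
          rw [card_eq_sum_card_fiberwise (f := y) (t := H)]
          · refine sum_congr rfl fun a ha => ?_
            congr 1
            ext b
            simp only [mem_filter]
            exact ⟨fun h => ⟨h.1.1, h.2⟩, fun h => ⟨⟨h.1, h.2 ▸ ha⟩, h.2⟩⟩
          · intro b hb
            simp only [coe_filter, Set.mem_ofPred_eq] at hb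
            exact hb.2
        rw [← this]
        exact card_filter_le _ _
      obtain ⟨a, ha, ha1⟩ := exists_le_of_sum_le hne hsum
      set D := insert a (insert (y a) (H.filter fun b => y b = a)) with hD
      have hDcard : D.card ≤ 3 := by
        have h1 : D.card ≤ _ := card_insert_le a (insert (y a) (H.filter fun b => y b = a))
        have h2 := card_insert_le (y a) (H.filter fun b => y b = a)
        omega
      have hlt : H \ D ⊂ H := by
        refine (ssubset_iff_of_subset sdiff_subset).2 ⟨a, ha, ?_⟩
        rw [mem_sdiff, not_and, not_not]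
        exact fun _ => mem_insert_self _ _
      obtain ⟨S, hS1, hS2, hS3⟩ := ih (H \ D) hlt (fun h hh => hy h (mem_sdiff.1 hh).1)
      have haS : a ∉ S := fun h => (mem_sdiff.1 (hS1 h)).2 (mem_insert_self _ _)
      refine ⟨insert a S, insert_subset ha (hS1.trans sdiff_subset), ?_, ?_⟩
      · rw [card_insert_of_notMem haS]
        have h1 : H.card ≤ (H \ D).card + D.card := by
          have := card_le_card (show H ⊆ (H \ D) ∪ D by
            intro x hx
            by_cases hxD : x ∈ D
            · exact mem_union_right _ hxD
            · exact mem_union_left _ (mem_sdiff.2 ⟨hx, hxD⟩))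
          exact this.trans (card_union_le _ _)
        omega
      · intro b hb
        rw [mem_insert, not_or]
        rcases mem_insert.1 hb with rfl | hbS
        · refine ⟨hy b ha, fun h => (mem_sdiff.1 (hS1 h)).2 ?_⟩
          exact mem_insert_of_mem (mem_insert_self _ _)
        · refine ⟨fun h => ?_, hS3 b hbS⟩
          have hb2 := mem_sdiff.1 (hS1 hbS)
          exact hb2.2 (mem_insert_of_mem (mem_insert_of_mem (mem_filter.2 ⟨hb2.1, h⟩)))

end H35ST
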