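import Pool.Agent.H35.ST.Case1a

/-! Module CASE1B: selection of the toggles at many hubs. -/

namespace H35ST

open Finset

variable {V : Type*} [Fintype V] [DecidableEq V]

/-- Greedy choice: choose `f i ∈ C i` one by one, avoiding the conflicts with the earlier choices. -/
private theorem greedy {ι α : Type*} [DecidableEq ι] [DecidableEq α] [Nonempty α]
    (R : ι → α → ι → α → Prop) (hsymm : ∀ i x j x', R i x j x' → R j x' i x) (B : ι → ℕ)
    (C : ι → Finset α) (T : Finset ι)
    (hB : ∀ i ∈ T, ∀ j ∈ T, ∀ x' ∈ C j,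
      ∃ Z : Finset α, Z.card ≤ B i ∧ ∀ x ∈ C i, R i x j x' → x ∈ Z)
    (hC : ∀ i ∈ T, T.card * B i < (C i).card) :
    ∃ f : ι → α, (∀ i ∈ T, f i ∈ C i) ∧ ∀ i ∈ T, ∀ j ∈ T, i ≠ j → ¬ R i (f i) j (f j) := by
  induction T using Finset.induction_on with
  | empty =>
    obtain ⟨a⟩ := ‹Nonempty α›
    exact ⟨fun _ => a, by simp, by simp⟩
  | insert b T hb ih =>
    obtain ⟨f, hf1, hf2⟩ := ih
      (fun i hi j hj => hB i (mem_insert_of_mem hi) j (mem_insert_of_mem hj))
      (fun i hi => lt_of_le_of_lt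
        (Nat.mul_le_mul_right _ (card_le_card (subset_insert b T))) (hC i (mem_insert_of_mem hi)))
    have hbT : b ∈ insert b T := mem_insert_self _ _
    have hZ : ∀ j, ∃ Z : Finset α, Z.card ≤ B b ∧ (j ∈ T → ∀ x ∈ C b, R b x j (f j) → x ∈ Z) := by
      intro j
      by_cases hj : j ∈ T
      · obtain ⟨Z, h1, h2⟩ := hB b hbT j (mem_insert_of_mem hj) (f j) (hf1 j hj)
        exact ⟨Z, h1, fun _ => h2⟩
      · exact ⟨∅, by simp, fun h => absurd h hj⟩
    choose Z hZ1 hZ2 using hZ
    have hlt : (T.biUnion Z).card < (C b).card := by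
      calc (T.biUnion Z).card ≤ ∑ j ∈ T, (Z j).card := card_biUnion_le
        _ ≤ ∑ j ∈ T, B b := sum_le_sum fun j _ => hZ1 j
        _ = T.card * B b := by rw [sum_const, smul_eq_mul]
        _ ≤ (insert b T).card * B b := Nat.mul_le_mul_right _ (card_le_card (subset_insert b T))
        _ < (C b).card := hC b hbT
    obtain ⟨x, hx, hxZ⟩ := exists_mem_notMem_of_card_lt_card hlt
    have hne : ∀ i ∈ T, i ≠ b := fun i hi h => hb (h ▸ hi)
    have hnR : ∀ j ∈ T, ¬ R b x j (f j) := by
      intro j hj h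
      exact hxZ (mem_biUnion.2 ⟨j, hj, hZ2 j hj x hx h⟩)
    refine ⟨Function.update f b x, ?_, ?_⟩
    · intro i hi
      rcases mem_insert.1 hi with rfl | hi
      · rw [Function.update_self]
        exact hx
      · rw [Function.update_of_ne (hne i hi)]
        exact hf1 i hi
    · intro i hi j hj hij
      rcases mem_insert.1 hi with hi' | hi'
      · rcases mem_insert.1 hj with hj' | hj'
        · exact absurd (hi'.trans hj'.symm) hij
        · rw [hi', Function.update_self, Function.update_of_ne (hne j hj')]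
          exact hnR j hj'
      · rcases mem_insert.1 hj with hj' | hj'
        · rw [hj', Function.update_self, Function.update_of_ne (hne i hi')]
          intro h
          exact hnR i hi' (hsymm _ _ _ _ h)
        · rw [Function.update_of_ne (hne i hi'), Function.update_of_ne (hne j hj')]
          exact hf2 i hi' j hj' hij

/-- For every hub `h` and `x ∈ nb G h U` fix a neighbour `q h x ≠ h` of `x`. Either some `y h` is
the value `q h x` of at least `M ^ 2` elements `x ∈ nb G h U` (type P), or every value is taken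
fewer than `M ^ 2` times (type N, `y h` = any neighbour of `h`, or any `q h x`). `exists_independent`
and shrinking: `S ⊆ H` with `S.card = 2 * k` and `y h ∉ S` for `h ∈ S`. Then go through the hubs
of `S` and choose one by one `M` elements `x` for each (among those with `q h x = y h` for type P),
avoiding `S ∪ y(S)`, the elements chosen before and their `q`-values, and for type N also avoiding
`x` with `q h x` in `S ∪ y(S)` or among the elements chosen before or their `q`-values. At most
`4k + 4kM < M ^ 2` elements are forbidden for type P, at most `(4k + 4kM)(1 + M ^ 2) < M ^ 4 - 6k`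
for type N. Finally `q x` is the `q h x` of the unique `h` with `x ∈ X h`. -/
theorem select_toggles (G : SimpleGraph V) [DecidableRel G.Adj] (U H : Finset V) (M k : ℕ)
    (hHU : Disjoint H U) (hH : H.card = 6 * k) (hM : 100 * (k + 1) ≤ M)
    (hdeg : ∀ v, 2 ≤ (nb G v univ).card)
    (hhub : ∀ h ∈ H, M ^ 4 ≤ (nb G h U).card + 6 * k) :
    ∃ (S : Finset V) (X : V → Finset V) (q y : V → V), S ⊆ H ∧ S.card = 2 * k ∧
      (∀ h ∈ S, X h ⊆ nb G h U ∧ (X h).card = M) ∧
      (∀ h ∈ S, ∀ h' ∈ S, h ≠ h' → Disjoint (X h) (X h')) ∧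
      (∀ h ∈ S, ∀ x ∈ X h, G.Adj x (q x) ∧ q x ≠ h ∧ ∀ h' ∈ S, q x ∉ X h') ∧
      (∀ h ∈ S, y h ∉ S) ∧
      (∀ h ∈ S, (∀ x ∈ X h, q x = y h) ∨
        (∀ x ∈ X h, q x ∉ S ∧ (∀ h' ∈ S, q x ≠ y h') ∧
          ∀ h' ∈ S, ∀ x' ∈ X h', q x' = q x → x' = x)) := by
  classical
  rcases Nat.eq_zero_or_pos k with rfl | hk
  · refine ⟨∅, fun _ => ∅, id, id, empty_subset _, by simp, ?_, ?_, ?_, ?_, ?_⟩ <;> simp
  have hHne : 0 < H.card := by omega
  obtain ⟨h0, -⟩ := card_pos.1 hHne
  have : Nonempty V := ⟨h0⟩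
  have hq : ∀ h x : V, ∃ v, G.Adj x v ∧ v ≠ h := by
    intro h x
    by_contra hcon
    push Not at hcon
    have h1 : nb G x univ ⊆ {h} := by
      intro v hv
      exact mem_singleton.2 (hcon v (mem_filter.1 hv).2)
    have h2 := card_le_card h1
    have h3 := hdeg x
    rw [card_singleton] at h2
    omega
  choose q0 hq0 hq0' using hq
  have hM2 : 0 < M ^ 2 := by
    apply pow_pos
    omega
  have hy : ∀ h : V, ∃ v, v ≠ h ∧ ((M ^ 2 ≤ ((nb G h U).filter fun x => q0 h x = v).card) ∨
      ∀ v', ((nb G h U).filter fun x => q0 h x = v').card < M ^ 2) := by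
    intro h
    by_cases hp : ∃ v, M ^ 2 ≤ ((nb G h U).filter fun x => q0 h x = v).card
    · obtain ⟨v, hv⟩ := hp
      refine ⟨v, ?_, Or.inl hv⟩
      rintro rfl
      obtain ⟨x, hx⟩ := card_pos.1 (lt_of_lt_of_le hM2 hv)
      exact hq0' v x (mem_filter.1 hx).2
    · push Not at hp
      exact ⟨q0 h h, hq0' h h, Or.inr hp⟩
  choose y hy1 hy2 using hy
  obtain ⟨S', hS'H, hS'c, hS'⟩ := exists_independent H y (fun h _ => hy1 h)
  obtain ⟨S, hSS', hSc⟩ := exists_subset_card_eq (show 2 * k ≤ S'.card by omega)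
  have hSH : S ⊆ H := hSS'.trans hS'H
  have hyS : ∀ h ∈ S, y h ∉ S := fun h hh hc => hS' h (hSS' hh) (hSS' hc)
  -- types
  let isP : V → Prop := fun h => M ^ 2 ≤ ((nb G h U).filter fun x => q0 h x = y h).card
  have hN : ∀ h, ¬ isP h → ∀ v', ((nb G h U).filter fun x => q0 h x = v').card < M ^ 2 := by
    intro h hh
    rcases hy2 h with h1 | h1
    · exact absurd h1 hh
    · exact h1
  let C : V × ℕ → Finset V := fun i =>
    if isP i.1 then (nb G i.1 U).filter fun x => q0 i.1 x = y i.1 ∧ x ∉ S.image y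
    else (nb G i.1 U).filter fun x => x ∉ S.image y ∧ q0 i.1 x ∉ S ∪ S.image y
  have hCP : ∀ i x, isP i.1 → x ∈ C i → x ∈ nb G i.1 U ∧ q0 i.1 x = y i.1 ∧ x ∉ S.image y := by
    intro i x hi hx
    simp only [C, if_pos hi] at hx
    exact mem_filter.1 hx
  have hCN : ∀ i x, ¬ isP i.1 → x ∈ C i →
      x ∈ nb G i.1 U ∧ x ∉ S.image y ∧ q0 i.1 x ∉ S ∪ S.image y := by
    intro i x hi hx
    simp only [C, if_neg hi] at hx
    exact mem_filter.1 hx
  have hCy : ∀ i x, x ∈ C i → x ∈ nb G i.1 U ∧ x ∉ S.image y := by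
    intro i x hx
    by_cases hi : isP i.1
    · exact ⟨(hCP i x hi hx).1, (hCP i x hi hx).2.2⟩
    · exact ⟨(hCN i x hi hx).1, (hCN i x hi hx).2.1⟩
  let B : V × ℕ → ℕ := fun i => if isP i.1 then 2 else 2 * M ^ 2
  let T : Finset (V × ℕ) := S ×ˢ range M
  have hT : T.card = 2 * k * M := by
    simp only [T, card_product, card_range, hSc]
  have hTm : ∀ i, i ∈ T ↔ i.1 ∈ S ∧ i.2 < M := by
    intro i
    simp only [T, mem_product, mem_range]
  let R : V × ℕ → V → V × ℕ → V → Prop := fun i x j x' =>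
    x = x' ∨ q0 i.1 x = x' ∨ q0 j.1 x' = x ∨ (q0 i.1 x = q0 j.1 x' ∧ (¬ isP i.1 ∨ ¬ isP j.1))
  have hRs : ∀ i x j x', R i x j x' → R j x' i x := by
    rintro i x j x' (h | h | h | ⟨h, h'⟩)
    · exact Or.inl h.symm
    · exact Or.inr (Or.inr (Or.inl h))
    · exact Or.inr (Or.inl h)
    · exact Or.inr (Or.inr (Or.inr ⟨h.symm, h'.symm⟩))
  have hB : ∀ i ∈ T, ∀ j ∈ T, ∀ x' ∈ C j,
      ∃ Z : Finset V, Z.card ≤ B i ∧ ∀ x ∈ C i, R i x j x' → x ∈ Z := by
    intro i hi j hj x' hx'
    have hi1 := ((hTm i).1 hi).1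
    by_cases hP : isP i.1
    · refine ⟨{x', q0 j.1 x'}, ?_, ?_⟩
      · simp only [B, if_pos hP]
        exact card_le_two
      · intro x hx hR
        obtain ⟨-, h1, -⟩ := hCP i x hP hx
        rcases hR with h | h | h | ⟨h, h'⟩
        · rw [h]
          exact mem_insert_self _ _
        · exfalso
          apply (hCy j x' hx').2
          rw [← h, h1]
          exact mem_image_of_mem _ hi1
        · rw [← h]
          exact mem_insert_of_mem (mem_singleton_self _)
        · exfalso
          rcases h' with h' | h'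
          · exact h' hP
          · apply (hCN j x' h' hx').2.2
            rw [← h, h1]
            exact mem_union_right _ (mem_image_of_mem _ hi1)
    · refine ⟨{x', q0 j.1 x'} ∪ (((nb G i.1 U).filter fun x => q0 i.1 x = x') ∪
        ((nb G i.1 U).filter fun x => q0 i.1 x = q0 j.1 x')), ?_, ?_⟩
      · simp only [B, if_neg hP]
        have e1 := hN i.1 hP x'
        have e2 := hN i.1 hP (q0 j.1 x')
        have e3 := card_union_le ({x', q0 j.1 x'} : Finset V)
          (((nb G i.1 U).filter fun x => q0 i.1 x = x') ∪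
            ((nb G i.1 U).filter fun x => q0 i.1 x = q0 j.1 x'))
        have e4 := card_union_le ((nb G i.1 U).filter fun x => q0 i.1 x = x')
            ((nb G i.1 U).filter fun x => q0 i.1 x = q0 j.1 x')
        have e5 : ({x', q0 j.1 x'} : Finset V).card ≤ 2 := card_le_two
        omega
      · intro x hx hR
        have h0 := (hCy i x hx).1
        rcases hR with h | h | h | ⟨h, -⟩
        · rw [h]
          exact mem_union_left _ (mem_insert_self _ _)
        · exact mem_union_right _ (mem_union_left _ (mem_filter.2 ⟨h0, h⟩))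
        · rw [← h]
          exact mem_union_left _ (mem_insert_of_mem (mem_singleton_self _))
        · exact mem_union_right _ (mem_union_right _ (mem_filter.2 ⟨h0, h⟩))
  have hyc : (S.image y).card ≤ 2 * k := by
    rw [← hSc]
    exact card_image_le
  have hC : ∀ i ∈ T, T.card * B i < (C i).card := by
    intro i hi
    have hi1 := ((hTm i).1 hi).1
    rw [hT]
    by_cases hP : isP i.1
    · have e1 : (nb G i.1 U).filter (fun x => q0 i.1 x = y i.1) ⊆ C i ∪ S.image y := by
        intro x hx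
        rw [mem_filter] at hx
        by_cases hxy : x ∈ S.image y
        · exact mem_union_right _ hxy
        · apply mem_union_left
          simp only [C, if_pos hP]
          exact mem_filter.2 ⟨hx.1, hx.2, hxy⟩
      have e2 := card_le_card e1
      have e3 := card_union_le (C i) (S.image y)
      have e4 : M ^ 2 ≤ ((nb G i.1 U).filter fun x => q0 i.1 x = y i.1).card := hP
      simp only [B, if_pos hP]
      have e5 : 2 * k * M * 2 + 2 * k < M ^ 2 := by
        nlinarith
      omega
    · have e1 : nb G i.1 U ⊆ C i ∪ (S.image y ∪ (S ∪ S.image y).biUnion fun v =>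
          (nb G i.1 U).filter fun x => q0 i.1 x = v) := by
        intro x hx
        by_cases hxy : x ∈ S.image y
        · exact mem_union_right _ (mem_union_left _ hxy)
        · by_cases hxq : q0 i.1 x ∈ S ∪ S.image y
          · exact mem_union_right _ (mem_union_right _ (mem_biUnion.2
              ⟨_, hxq, mem_filter.2 ⟨hx, rfl⟩⟩))
          · apply mem_union_left
            simp only [C, if_neg hP]
            exact mem_filter.2 ⟨hx, hxy, hxq⟩
      have e2 := card_le_card e1
      have e3 := card_union_le (C i) (S.image y ∪ (S ∪ S.image y).biUnion fun v =>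
          (nb G i.1 U).filter fun x => q0 i.1 x = v)
      have e4 := card_union_le (S.image y) ((S ∪ S.image y).biUnion fun v =>
          (nb G i.1 U).filter fun x => q0 i.1 x = v)
      have e5 : ((S ∪ S.image y).biUnion fun v =>
          (nb G i.1 U).filter fun x => q0 i.1 x = v).card ≤ 4 * k * M ^ 2 := by
        calc _ ≤ ∑ v ∈ S ∪ S.image y, ((nb G i.1 U).filter fun x => q0 i.1 x = v).card :=
              card_biUnion_le
          _ ≤ ∑ v ∈ S ∪ S.image y, M ^ 2 := sum_le_sum fun v _ => (hN i.1 hP v).le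
          _ = (S ∪ S.image y).card * M ^ 2 := by rw [sum_const, smul_eq_mul]
          _ ≤ 4 * k * M ^ 2 := by
              apply Nat.mul_le_mul_right
              have := card_union_le S (S.image y)
              omega
      have e6 := hhub i.1 (hSH hi1)
      simp only [B, if_neg hP]
      have e7 : 2 * k * M * (2 * M ^ 2) + 4 * k * M ^ 2 + 8 * k < M ^ 4 := by
        have h1 : 1 ≤ M := by omega
        have h2 : M ≤ M ^ 3 := by
          calc M = M ^ 1 := (pow_one M).symm
            _ ≤ M ^ 3 := Nat.pow_le_pow_right h1 (by norm_num)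
        have h3 : M ^ 2 ≤ M ^ 3 := Nat.pow_le_pow_right h1 (by norm_num)
        have h4 : M ^ 4 = M * M ^ 3 := by ring
        have h5 : (100 * (k + 1)) * M ^ 3 ≤ M * M ^ 3 := Nat.mul_le_mul_right _ hM
        have h6 : 2 * k * M * (2 * M ^ 2) = 4 * k * M ^ 3 := by ring
        have h7 : 4 * k * M ^ 2 ≤ 4 * k * M ^ 3 := Nat.mul_le_mul_left _ h3
        have h8 : 1 ≤ M ^ 3 := h1.trans h2
        have h9 : 8 * k ≤ 8 * k * M ^ 3 := Nat.le_mul_of_pos_right _ h8
        rw [h6, h4]
        nlinarith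
      omega
  obtain ⟨f, hf1, hf2⟩ := greedy R hRs B C T hB hC
  let X : V → Finset V := fun h => (range M).image fun m => f (h, m)
  have hX : ∀ h x, x ∈ X h ↔ ∃ m, m < M ∧ f (h, m) = x := by
    intro h x
    simp only [X, mem_image, mem_range]
  have hinj : ∀ i ∈ T, ∀ j ∈ T, f i = f j → i = j := by
    intro i hi j hj h
    by_contra hne
    exact hf2 i hi j hj hne (Or.inl h)
  have hdisj : ∀ h ∈ S, ∀ h' ∈ S, h ≠ h' → Disjoint (X h) (X h') := by
    intro h hh h' hh' hne
    rw [disjoint_left]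
    intro x hx hx'
    obtain ⟨m, hm, h1⟩ := (hX h x).1 hx
    obtain ⟨m', hm', h2⟩ := (hX h' x).1 hx'
    have h3 := hinj (h, m) ((hTm _).2 ⟨hh, hm⟩) (h', m') ((hTm _).2 ⟨hh', hm'⟩) (h1.trans h2.symm)
    exact hne (Prod.mk.inj h3).1
  let q : V → V := fun x => if hx : ∃ h ∈ S, x ∈ X h then q0 hx.choose x else x
  have hqX : ∀ h ∈ S, ∀ x ∈ X h, q x = q0 h x := by
    intro h hh x hx
    have hex : ∃ h ∈ S, x ∈ X h := ⟨h, hh, hx⟩
    have h1 : hex.choose = h := by
      by_contra hne
      exact disjoint_left.1 (hdisj _ hex.choose_spec.1 h hh hne) hex.choose_spec.2 hx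
    simp only [q, dif_pos hex, h1]
  refine ⟨S, X, q, y, hSH, hSc, ?_, hdisj, ?_, hyS, ?_⟩
  · intro h hh
    constructor
    · intro x hx
      obtain ⟨m, hm, rfl⟩ := (hX h x).1 hx
      exact (hCy _ _ (hf1 (h, m) ((hTm _).2 ⟨hh, hm⟩))).1
    · simp only [X]
      rw [card_image_of_injOn, card_range]
      intro m hm m' hm' h1
      have h2 := hinj (h, m) ((hTm _).2 ⟨hh, mem_range.1 hm⟩) (h, m')
        ((hTm _).2 ⟨hh, mem_range.1 hm'⟩) h1
      exact (Prod.mk.inj h2).2
  · intro h hh x hx
    rw [hqX h hh x hx]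
    refine ⟨hq0 h x, hq0' h x, ?_⟩
    intro h' hh' hx'
    obtain ⟨m, hm, h1⟩ := (hX h x).1 hx
    obtain ⟨m', hm', h2⟩ := (hX h' _).1 hx'
    by_cases heq : ((h, m) : V × ℕ) = (h', m')
    · rw [← heq, h1] at h2
      have h3 := hq0 h x
      rw [← h2] at h3
      exact G.loopless.irrefl _ h3
    · apply hf2 (h, m) ((hTm _).2 ⟨hh, hm⟩) (h', m') ((hTm _).2 ⟨hh', hm'⟩) heq
      refine Or.inr (Or.inl ?_)
      rw [h2, h1]
  · intro h hh
    by_cases hP : isP h
    · left
      intro x hx
      rw [hqX h hh x hx]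
      obtain ⟨m, hm, rfl⟩ := (hX h x).1 hx
      exact (hCP (h, m) _ hP (hf1 (h, m) ((hTm _).2 ⟨hh, hm⟩))).2.1
    · right
      intro x hx
      rw [hqX h hh x hx]
      obtain ⟨m, hm, h1⟩ := (hX h x).1 hx
      have h2 := (hCN (h, m) _ hP (hf1 (h, m) ((hTm _).2 ⟨hh, hm⟩))).2.2
      rw [h1] at h2
      refine ⟨fun h3 => h2 (mem_union_left _ h3), ?_, ?_⟩
      · intro h' hh' h3
        apply h2
        rw [mem_union]
        right
        exact mem_image.2 ⟨h', hh', h3.symm⟩
      · intro h' hh' x' hx' h3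
        rw [hqX h' hh' x' hx'] at h3
        obtain ⟨m', hm', h4⟩ := (hX h' x').1 hx'
        by_cases heq : ((h, m) : V × ℕ) = (h', m')
        · rw [← h1, ← h4, heq]
        · exfalso
          apply hf2 (h, m) ((hTm _).2 ⟨hh, hm⟩) (h', m') ((hTm _).2 ⟨hh', hm'⟩) heq
          refine Or.inr (Or.inr (Or.inr ⟨?_, Or.inl hP⟩))
          rw [h1, h4]
          exact h3.symm

end H35ST
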