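import Pool.Agent.H35.ST.TreeB
import Pool.Agent.H35.ST.TreeC
import Pool.Agent.H35.ST.TreeD
import Pool.Agent.H35.ST.TreeE
import Pool.Agent.H35.ST.Count

/-! Module CASE2: many vertices adjacent to `k + 1` common vertices of the core. -/

namespace H35ST

open Finset

variable {V : Type*} [Fintype V] [DecidableEq V]

/-- `N = {h 0, …, h (k-1), h*}` (an equivalence `Fin (k+1) ≃ N`), an embedding
`e : Fin k × Fin t ↪ A`, `X` = its image, `on (e (i, l)) = h i`, `off (e (i, l)) = h*`. For
`a : Fin k → Fin (t + 1)` let `J a = {e (i, l) | l < a i}` and use `tog c.P on off X (J a)`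
(`Core.isPar_tog`). By `dg_tog` the degrees outside `N` are constant and that of `h i` is
`const + a i`. The invariant is the degree multiset (`dg_multiset`, `map_eq_of_const` with `W = N`);
fibres are bounded by `card_pi_le` with `S` = the support of the multiset over `N`, `b = k+1`, `e = 1`.
Use `card_le_tauIso` or `card_le_tauIso'`. -/
theorem case_two {G : SimpleGraph V} (c : Core G) (N A : Finset V) (k t : ℕ)
    (hN : N.card = k + 1) (hNK : N ⊆ c.K) (hA : Disjoint A c.K)
    (hadj : ∀ u ∈ A, ∀ h ∈ N, G.Adj u h) (ht : k * t ≤ A.card) :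
    (t + 1) ^ k ≤ (k + 1) ^ k * tauIso G := by
  classical
  let hE : Fin (k + 1) ≃ N := (N.equivFinOfCardEq hN).symm
  let hh : Fin k → V := fun i => (hE i.castSucc : V)
  let hs : V := (hE (Fin.last k) : V)
  have hhN : ∀ i, hh i ∈ N := fun i => (hE i.castSucc).2
  have hsN : hs ∈ N := (hE (Fin.last k)).2
  have hh_inj : ∀ i j, hh i = hh j → i = j := by
    intro i j hij
    have h1 : hE i.castSucc = hE j.castSucc := Subtype.ext hij
    exact Fin.castSucc_injective _ (hE.injective h1)
  have hh_ne : ∀ i, hs ≠ hh i := by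
    intro i hi
    have h1 : hE (Fin.last k) = hE i.castSucc := Subtype.ext hi
    have h2 := hE.injective h1
    exact (Fin.castSucc_lt_last i).ne h2.symm
  obtain ⟨e⟩ : Nonempty (Fin k × Fin t ↪ A) := by
    apply Function.Embedding.nonempty_of_card_le
    simpa using ht
  have e_inj : ∀ p q, (e p : V) = (e q : V) → p = q := fun p q h => e.injective (Subtype.ext h)
  let X : Finset V := univ.image fun p : Fin k × Fin t => (e p : V)
  let on : V → V := fun x => if hx : ∃ p, (e p : V) = x then hh (Classical.choose hx).1 else hs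
  let off : V → V := fun _ => hs
  have hon_e : ∀ p, on (e p : V) = hh p.1 := by
    intro p
    have hx : ∃ q, (e q : V) = (e p : V) := ⟨p, rfl⟩
    have h1 : on (e p : V) = hh (Classical.choose hx).1 := by simp only [on]; rw [dif_pos hx]
    rw [h1, e_inj _ _ (Classical.choose_spec hx)]
  have hXA : ∀ x ∈ X, x ∈ A := by
    intro x hx
    obtain ⟨p, -, rfl⟩ := Finset.mem_image.1 hx
    exact (e p).2
  have hXK : Disjoint X c.K := Finset.disjoint_of_subset_left hXA hA
  have hNX : ∀ y ∈ N, y ∉ X := fun y hy hyX =>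
    (Finset.disjoint_left.1 hXK hyX) (hNK hy)
  have hon : ∀ x ∈ X, G.Adj x (on x) ∧ on x ∉ X := by
    intro x hx
    obtain ⟨p, -, rfl⟩ := Finset.mem_image.1 hx
    rw [hon_e]
    exact ⟨hadj _ (e p).2 _ (hhN _), hNX _ (hhN _)⟩
  have hoff : ∀ x ∈ X, G.Adj x (off x) ∧ off x ∉ X := fun x hx =>
    ⟨hadj _ (hXA x hx) _ hsN, hNX _ hsN⟩
  let J : (Fin k → Fin (t + 1)) → Finset V := fun a =>
    (univ.filter fun p : Fin k × Fin t => p.2.val < (a p.1).val).image fun p => (e p : V)
  have hJX : ∀ a, J a ⊆ X := by
    intro a x hx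
    obtain ⟨p, -, rfl⟩ := Finset.mem_image.1 hx
    exact Finset.mem_image.2 ⟨p, mem_univ _, rfl⟩
  have hrX : c.r ∉ X := fun h => (Finset.disjoint_left.1 hXK h) (c.I_sub c.r_mem)
  let F : (Fin k → Fin (t + 1)) → V → V := fun a => tog c.P on off X (J a)
  have hF : ∀ a, IsPar G c.r (F a) := fun a => c.isPar_tog on off X (J a) hXK hon hoff
  let D0 : V → ℕ := dg c.r (tog c.P on off X ∅)
  -- the number of members of `J a` attached to `y`
  have hcon : ∀ a i, ((J a).filter fun x => on x = hh i).card = (a i).val := by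
    intro a i
    have h1 : ((J a).filter fun x => on x = hh i) =
        (univ.filter fun l : Fin t => l.val < (a i).val).image fun l => (e (i, l) : V) := by
      ext x
      simp only [J, Finset.mem_filter, Finset.mem_image, Finset.mem_univ, true_and]
      constructor
      · rintro ⟨⟨p, hp, rfl⟩, hx⟩
        rw [hon_e] at hx
        have h2 := hh_inj _ _ hx
        refine ⟨p.2, ?_, ?_⟩
        · rw [← h2]; exact hp
        · rw [← h2]
      · rintro ⟨l, hl, rfl⟩
        exact ⟨⟨(i, l), hl, rfl⟩, hon_e _⟩
    rw [h1, Finset.card_image_of_injective]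
    · rw [Fin.card_filter_val_lt]
      have := (a i).2
      omega
    · intro l l' hl
      exact (Prod.mk.inj (e_inj _ _ hl)).2
  have hoffc : ∀ a y, y ≠ hs → ((J a).filter fun x => off x = y).card = 0 := by
    intro a y hy
    rw [Finset.card_eq_zero, Finset.filter_eq_empty_iff]
    intro x _ hx
    exact hy hx.symm
  have honc : ∀ a y, y ∉ N → ((J a).filter fun x => on x = y).card = 0 := by
    intro a y hy
    rw [Finset.card_eq_zero, Finset.filter_eq_empty_iff]
    intro x hx hxy
    obtain ⟨p, -, rfl⟩ := Finset.mem_image.1 hx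
    rw [hon_e] at hxy
    exact hy (hxy ▸ hhN _)
  have hDN : ∀ a y, y ∉ N → dg c.r (F a) y = D0 y := by
    intro a y hy
    have h1 := dg_tog c.r c.P on off X (J a) hrX (hJX a) y
    rw [hoffc a y (fun h => hy (h ▸ hsN)), honc a y hy] at h1
    exact h1
  have hDh : ∀ a i, dg c.r (F a) (hh i) = D0 (hh i) + (a i).val := by
    intro a i
    have h1 := dg_tog c.r c.P on off X (J a) hrX (hJX a) (hh i)
    rw [hoffc a (hh i) (fun h => hh_ne i h.symm), hcon] at h1
    exact h1
  have key := card_le_tauIso' (G := G) (r := c.r) F hF ((k + 1) ^ k) (by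
    intro a
    refine ⟨univ.filter fun a' : Fin k → Fin (t + 1) =>
      ∀ i, (fun (i : Fin k) (b : Fin (t + 1)) => D0 (hh i) + b.val) i (a' i) ∈
        N.image (dg c.r (F a)), ?_, ?_⟩
    · have h1 := card_pi_le (fun (i : Fin k) (b : Fin (t + 1)) => D0 (hh i) + b.val)
        (N.image (dg c.r (F a))) (k + 1) 1 (Finset.card_image_le.trans hN.le) (by
          intro i y
          rw [Finset.card_le_one]
          intro b hb b' hb'
          simp only [Finset.mem_filter, Finset.mem_univ, true_and] at hb hb'
          apply Fin.ext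
          omega)
      simpa using h1
    · intro a' hiso
      simp only [Finset.mem_filter, Finset.mem_univ, true_and]
      intro i
      have h1 := dg_multiset (hF a) (hF a') hiso
      have h2 := map_eq_of_const (dg c.r (F a)) (dg c.r (F a')) N
        (fun x hx => by rw [hDN a x hx, hDN a' x hx]) h1
      have h3 : dg c.r (F a') (hh i) ∈ N.val.map (dg c.r (F a')) :=
        Multiset.mem_map_of_mem _ (hhN i)
      rw [← h2, hDh] at h3
      obtain ⟨x, hx, hx'⟩ := Multiset.mem_map.1 h3
      exact Finset.mem_image.2 ⟨x, hx, hx'⟩)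
  simpa using key

end H35ST
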