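import Pool.Agent.H35.ST.Case2

/-! Module CASE2B: pigeonhole for Case 2. -/

namespace H35ST

open Finset

/-- Pigeonhole: choose for every `u` with `d ≤ |nb G u H|` a set `N u ⊆ nb G u H` with `d` elements;
there are at most `2 ^ k0` subsets of `H`; apply `case_two` (with `k = d - 1`) to the most popular one. -/
theorem case_two' (d k0 : ℕ) (hd : 2 ≤ d) : ∃ C : ℕ, 0 < C ∧
    ∀ (V : Type) [Fintype V] [DecidableEq V] (G : SimpleGraph V) [DecidableRel G.Adj]
      (c : Core G) (H : Finset V) (t : ℕ), H ⊆ c.K → H.card ≤ k0 →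
      Fintype.card V ≤ 10 * (c.Kᶜ.filter fun u => d ≤ (nb G u H).card).card →
      C * t ≤ Fintype.card V → t ^ (d - 1) ≤ C * tauIso G := by
  classical
  refine ⟨10 * 2 ^ k0 * (d - 1) + d ^ (d - 1), by positivity, ?_⟩
  intro V _ _ G _ c H t hHK hHk hB hC
  set B : Finset V := c.Kᶜ.filter fun u => d ≤ (nb G u H).card with hBdef
  have hex : ∀ u : V, ∃ N : Finset V, u ∈ B → N ⊆ nb G u H ∧ N.card = d := by
    intro u
    by_cases hu : u ∈ B
    · obtain ⟨N, hN, hNc⟩ := Finset.exists_subset_card_eq (Finset.mem_filter.1 hu).2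
      exact ⟨N, fun _ => ⟨hN, hNc⟩⟩
    · exact ⟨∅, fun h => absurd h hu⟩
  choose N hN using hex
  rcases Nat.eq_zero_or_pos t with rfl | htpos
  · rw [zero_pow (by omega)]; exact Nat.zero_le _
  have hVpos : 0 < Fintype.card V := by
    refine lt_of_lt_of_le ?_ hC
    positivity
  have hmaps : ∀ u ∈ B, N u ∈ H.powerset := by
    intro u hu
    rw [Finset.mem_powerset]
    exact (hN u hu).1.trans (Finset.filter_subset _ _)
  have hpig : ∃ M ∈ H.powerset, B.card ≤ 2 ^ k0 * (B.filter fun u => N u = M).card := by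
    by_contra hcon
    push Not at hcon
    have h1 : B.card = ∑ M ∈ H.powerset, (B.filter fun u => N u = M).card :=
      Finset.card_eq_sum_card_fiberwise hmaps
    have hne : H.powerset.Nonempty := ⟨∅, Finset.empty_mem_powerset _⟩
    have h2 : 2 ^ k0 * B.card < H.powerset.card * B.card := by
      calc 2 ^ k0 * B.card = ∑ M ∈ H.powerset, 2 ^ k0 * (B.filter fun u => N u = M).card := by
            rw [← Finset.mul_sum, ← h1]
        _ < ∑ M ∈ H.powerset, B.card := Finset.sum_lt_sum_of_nonempty hne hcon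
        _ = H.powerset.card * B.card := by rw [Finset.sum_const, smul_eq_mul]
    have h3 : H.powerset.card ≤ 2 ^ k0 := by
      rw [Finset.card_powerset]
      exact Nat.pow_le_pow_right (by norm_num) hHk
    exact absurd (Nat.mul_le_mul_right B.card h3) (not_le.2 h2)
  obtain ⟨M, hM, hMB⟩ := hpig
  set A : Finset V := B.filter fun u => N u = M with hAdef
  have hApos : 0 < A.card := by
    rcases Nat.eq_zero_or_pos A.card with h0 | h0
    · rw [h0] at hMB
      omega
    · exact h0
  obtain ⟨u0, hu0⟩ := Finset.card_pos.1 hApos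
  have hu0' := Finset.mem_filter.1 hu0
  have hMcard : M.card = (d - 1) + 1 := by
    rw [← hu0'.2, (hN u0 hu0'.1).2]
    omega
  have hMK : M ⊆ c.K := (Finset.mem_powerset.1 hM).trans hHK
  have hAK : Disjoint A c.K := by
    rw [Finset.disjoint_left]
    intro x hx hxK
    have := (Finset.mem_filter.1 (Finset.mem_filter.1 hx).1).1
    exact (Finset.mem_compl.1 this) hxK
  have hadj : ∀ u ∈ A, ∀ h ∈ M, G.Adj u h := by
    intro u hu h hh
    have hu' := Finset.mem_filter.1 hu
    rw [← hu'.2] at hh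
    exact (Finset.mem_filter.1 ((hN u hu'.1).1 hh)).2
  have hcard : (d - 1) * t ≤ A.card := by
    have h1 : 10 * 2 ^ k0 * ((d - 1) * t) ≤ 10 * 2 ^ k0 * A.card := by
      calc 10 * 2 ^ k0 * ((d - 1) * t) ≤ (10 * 2 ^ k0 * (d - 1) + d ^ (d - 1)) * t := by
            rw [add_mul]
            have : 10 * 2 ^ k0 * ((d - 1) * t) = 10 * 2 ^ k0 * (d - 1) * t := by ring
            rw [this]
            exact Nat.le_add_right _ _
        _ ≤ Fintype.card V := hC
        _ ≤ 10 * B.card := hB
        _ ≤ 10 * (2 ^ k0 * A.card) := Nat.mul_le_mul_left _ hMB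
        _ = 10 * 2 ^ k0 * A.card := by ring
    exact Nat.le_of_mul_le_mul_left h1 (by positivity)
  have key := case_two c M A (d - 1) t hMcard hMK hAK hadj hcard
  have hd1 : d - 1 + 1 = d := by omega
  rw [hd1] at key
  calc t ^ (d - 1) ≤ (t + 1) ^ (d - 1) := Nat.pow_le_pow_left (Nat.le_succ t) _
    _ ≤ d ^ (d - 1) * tauIso G := key
    _ ≤ (10 * 2 ^ k0 * (d - 1) + d ^ (d - 1)) * tauIso G :=
        Nat.mul_le_mul_right _ (Nat.le_add_left _ _)

end H35ST
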