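import Pool.Agent.H35.ST.TreeB
import Pool.Agent.H35.ST.TreeC
import Pool.Agent.H35.ST.TreeD
import Pool.Agent.H35.ST.TreeE
import Pool.Agent.H35.ST.Count

/-! Module CASEB: two kinds of pendant subtrees at `k + 1` common vertices. -/

namespace H35ST

open Finset

set_option linter.unusedSectionVars false

variable {V : Type*} [Fintype V] [DecidableEq V]

/-- The parent function of Case B. -/
noncomputable def fB {k t : ℕ} (P : V → V) (u₀ u₁ w₁ : Fin k × Fin t → V) (h : Fin k → V) (hs : V)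
    (a b : Fin k → ℕ) (v : V) : V :=
  if hv : ∃ p, u₀ p = v then (if (hv.choose.2 : ℕ) < a hv.choose.1 then h hv.choose.1 else hs)
  else if hv : ∃ p, u₁ p = v then
    (if (hv.choose.2 : ℕ) < b hv.choose.1 then h hv.choose.1 else hs)
  else if hv : ∃ p, w₁ p = v then u₁ hv.choose
  else P v

/-- The data of Case B. -/
structure DB (G : SimpleGraph V) (c : Core G) (k t : ℕ) where
  u₀ : Fin k × Fin t → V
  u₁ : Fin k × Fin t → V
  w₁ : Fin k × Fin t → V
  h : Fin k → V
  hs : V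
  N : Finset V
  hi : Function.Injective h
  hhs : ∀ i, h i ≠ hs
  hN : ∀ i, h i ∈ N
  hsN : hs ∈ N
  hcov : ∀ x ∈ N, x = hs ∨ ∃ i, x = h i
  hNK : N ⊆ c.K
  i0 : Function.Injective u₀
  i1 : Function.Injective u₁
  i2 : Function.Injective w₁
  n01 : ∀ p p', u₀ p ≠ u₁ p'
  n02 : ∀ p p', u₀ p ≠ w₁ p'
  n12 : ∀ p p', u₁ p ≠ w₁ p'
  k0 : ∀ p, u₀ p ∉ c.K
  k1 : ∀ p, u₁ p ∉ c.K
  k2 : ∀ p, w₁ p ∉ c.K
  ha₀ : ∀ p, ∀ h ∈ N, G.Adj (u₀ p) h
  ha₁ : ∀ p, ∀ h ∈ N, G.Adj (u₁ p) h
  haw : ∀ p, G.Adj (w₁ p) (u₁ p)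

namespace DB

theorem mem_chn' (r : V) (f : V → V) (x v : V) : v ∈ chn r f x ↔ v ≠ r ∧ f v = x := by
  simp [chn]

variable {G : SimpleGraph V} {c : Core G} {k t : ℕ} (D : DB G c k t)

/-- The parent function. -/
noncomputable def f (a b : Fin k → ℕ) : V → V := fB c.P D.u₀ D.u₁ D.w₁ D.h D.hs a b

theorem f_u₀ (a b : Fin k → ℕ) (p : Fin k × Fin t) :
    D.f a b (D.u₀ p) = if (p.2 : ℕ) < a p.1 then D.h p.1 else D.hs := by
  have hv : ∃ q, D.u₀ q = D.u₀ p := ⟨p, rfl⟩
  have hc : hv.choose = p := D.i0 hv.choose_spec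
  simp only [f, fB, dif_pos hv, hc]

theorem f_u₁ (a b : Fin k → ℕ) (p : Fin k × Fin t) :
    D.f a b (D.u₁ p) = if (p.2 : ℕ) < b p.1 then D.h p.1 else D.hs := by
  have h0 : ¬ ∃ q, D.u₀ q = D.u₁ p := fun ⟨q, hq⟩ => D.n01 q p hq
  have hv : ∃ q, D.u₁ q = D.u₁ p := ⟨p, rfl⟩
  have hc : hv.choose = p := D.i1 hv.choose_spec
  simp only [f, fB, dif_neg h0, dif_pos hv, hc]

theorem f_w₁ (a b : Fin k → ℕ) (p : Fin k × Fin t) : D.f a b (D.w₁ p) = D.u₁ p := by
  have h0 : ¬ ∃ q, D.u₀ q = D.w₁ p := fun ⟨q, hq⟩ => D.n02 q p hq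
  have h1 : ¬ ∃ q, D.u₁ q = D.w₁ p := fun ⟨q, hq⟩ => D.n12 q p hq
  have hv : ∃ q, D.w₁ q = D.w₁ p := ⟨p, rfl⟩
  have hc : hv.choose = p := D.i2 hv.choose_spec
  simp only [f, fB, dif_neg h0, dif_neg h1, dif_pos hv, hc]

theorem f_else (a b : Fin k → ℕ) {v : V} (h0 : ¬ ∃ q, D.u₀ q = v) (h1 : ¬ ∃ q, D.u₁ q = v)
    (h2 : ¬ ∃ q, D.w₁ q = v) : D.f a b v = c.P v := by
  simp only [f, fB, dif_neg h0, dif_neg h1, dif_neg h2]

theorem f_K (a b : Fin k → ℕ) {v : V} (hv : v ∈ c.K) : D.f a b v = c.P v := by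
  refine D.f_else a b ?_ ?_ ?_
  · rintro ⟨q, hq⟩; exact D.k0 q (hq ▸ hv)
  · rintro ⟨q, hq⟩; exact D.k1 q (hq ▸ hv)
  · rintro ⟨q, hq⟩; exact D.k2 q (hq ▸ hv)

theorem ne_root {v : V} (hv : v ∉ c.K) : v ≠ c.r := fun h => hv (h ▸ c.I_sub c.r_mem)

theorem isPar (a b : Fin k → ℕ) : IsPar G c.r (D.f a b) := by
  classical
  refine c.isPar (D.f a b) (fun v => if ∃ q, D.w₁ q = v then 1 else 0)
    (fun v hv => D.f_K a b hv) ?_ ?_
  · intro u hu
    by_cases h0 : ∃ q, D.u₀ q = u
    · obtain ⟨q, rfl⟩ := h0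
      rw [D.f_u₀]
      split_ifs
      · exact D.ha₀ q _ (D.hN _)
      · exact D.ha₀ q _ D.hsN
    by_cases h1 : ∃ q, D.u₁ q = u
    · obtain ⟨q, rfl⟩ := h1
      rw [D.f_u₁]
      split_ifs
      · exact D.ha₁ q _ (D.hN _)
      · exact D.ha₁ q _ D.hsN
    by_cases h2 : ∃ q, D.w₁ q = u
    · obtain ⟨q, rfl⟩ := h2
      rw [D.f_w₁]
      exact D.haw q
    rw [D.f_else a b h0 h1 h2]
    exact c.adj u (ne_root hu)
  · intro u hu
    by_cases h0 : ∃ q, D.u₀ q = u
    · obtain ⟨q, rfl⟩ := h0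
      left
      rw [D.f_u₀]
      split_ifs
      · exact D.hNK (D.hN _)
      · exact D.hNK D.hsN
    by_cases h1 : ∃ q, D.u₁ q = u
    · obtain ⟨q, rfl⟩ := h1
      left
      rw [D.f_u₁]
      split_ifs
      · exact D.hNK (D.hN _)
      · exact D.hNK D.hsN
    by_cases h2 : ∃ q, D.w₁ q = u
    · right
      obtain ⟨q, rfl⟩ := h2
      rw [D.f_w₁]
      have h3 : ¬ ∃ q', D.w₁ q' = D.u₁ q := fun ⟨q', hq'⟩ => D.n12 q q' hq'.symm
      simp only [h3, if_false]
      rw [if_pos ⟨q, rfl⟩]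
      exact Nat.one_pos
    left
    rw [D.f_else a b h0 h1 h2]
    exact c.I_sub (c.par_mem u (ne_root hu))

/-- Outside `N` the children do not depend on the parameters. -/
theorem chn_eq (a b a' b' : Fin k → ℕ) {x : V} (hx : x ∉ D.N) :
    chn c.r (D.f a b) x = chn c.r (D.f a' b') x := by
  ext v
  simp only [chn, mem_filter, mem_univ, true_and]
  refine and_congr_right fun _ => ?_
  by_cases h0 : ∃ q, D.u₀ q = v
  · obtain ⟨q, rfl⟩ := h0
    have : ∀ a b, D.f a b (D.u₀ q) ≠ x := by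
      intro a b he
      rw [D.f_u₀] at he
      split_ifs at he
      · exact hx (he ▸ D.hN _)
      · exact hx (he ▸ D.hsN)
    exact iff_of_false (this a b) (this a' b')
  by_cases h1 : ∃ q, D.u₁ q = v
  · obtain ⟨q, rfl⟩ := h1
    have : ∀ a b, D.f a b (D.u₁ q) ≠ x := by
      intro a b he
      rw [D.f_u₁] at he
      split_ifs at he
      · exact hx (he ▸ D.hN _)
      · exact hx (he ▸ D.hsN)
    exact iff_of_false (this a b) (this a' b')
  by_cases h2 : ∃ q, D.w₁ q = v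
  · obtain ⟨q, rfl⟩ := h2
    rw [D.f_w₁, D.f_w₁]
  rw [D.f_else a b h0 h1 h2, D.f_else a' b' h0 h1 h2]

/-- Admissible parameters. -/
def Ok (t : ℕ) (a : Fin k → ℕ) : Prop := ∀ i, 1 ≤ a i ∧ a i < t

theorem chn_ne (a b : Fin k → ℕ) (ha : Ok t a) (hk : 0 < k) {x : V} (hx : x ∈ D.N) :
    chn c.r (D.f a b) x ≠ ∅ := by
  rw [← nonempty_iff_ne_empty]
  rcases D.hcov x hx with rfl | ⟨i, rfl⟩
  · have ht := ha ⟨0, hk⟩
    refine ⟨D.u₀ (⟨0, hk⟩, ⟨t - 1, by omega⟩), ?_⟩
    simp only [chn, mem_filter, mem_univ, true_and]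
    refine ⟨ne_root (D.k0 _), ?_⟩
    rw [D.f_u₀, if_neg]
    simp only
    omega
  · have ht := ha i
    refine ⟨D.u₀ (i, ⟨0, by omega⟩), ?_⟩
    simp only [chn, mem_filter, mem_univ, true_and]
    refine ⟨ne_root (D.k0 _), ?_⟩
    rw [D.f_u₀, if_pos]
    simp only
    omega

theorem empty_iff (a b a' b' : Fin k → ℕ) (ha : Ok t a) (ha' : Ok t a') (hk : 0 < k) (x : V) :
    chn c.r (D.f a b) x = ∅ ↔ chn c.r (D.f a' b') x = ∅ := by
  by_cases hx : x ∈ D.N
  · exact iff_of_false (D.chn_ne a b ha hk hx) (D.chn_ne a' b' ha' hk hx)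
  · rw [D.chn_eq a b a' b' hx]

theorem sg_out (a b a' b' : Fin k → ℕ) (ha : Ok t a) (ha' : Ok t a') (hk : 0 < k)
    {x : V} (hx : x ∉ D.N) : sg c.r (D.f a b) x = sg c.r (D.f a' b') x := by
  unfold sg
  rw [D.chn_eq a b a' b' hx]
  have h := fun v => D.empty_iff a b a' b' ha ha' hk v
  simp only [h, ne_eq]

theorem u₀_empty (a b : Fin k → ℕ) (p : Fin k × Fin t) : chn c.r (D.f a b) (D.u₀ p) = ∅ := by
  rw [eq_empty_iff_forall_notMem]
  intro v hv
  simp only [chn, mem_filter, mem_univ, true_and] at hv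
  obtain ⟨hr, hv⟩ := hv
  by_cases h0 : ∃ q, D.u₀ q = v
  · obtain ⟨q, rfl⟩ := h0
    rw [D.f_u₀] at hv
    split_ifs at hv
    · exact D.k0 p (hv ▸ D.hNK (D.hN _))
    · exact D.k0 p (hv ▸ D.hNK D.hsN)
  by_cases h1 : ∃ q, D.u₁ q = v
  · obtain ⟨q, rfl⟩ := h1
    rw [D.f_u₁] at hv
    split_ifs at hv
    · exact D.k0 p (hv ▸ D.hNK (D.hN _))
    · exact D.k0 p (hv ▸ D.hNK D.hsN)
  by_cases h2 : ∃ q, D.w₁ q = v
  · obtain ⟨q, rfl⟩ := h2
    rw [D.f_w₁] at hv
    exact D.n01 _ _ hv.symm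
  rw [D.f_else a b h0 h1 h2] at hv
  exact D.k0 p (hv ▸ c.I_sub (c.par_mem v hr))

theorem u₁_nonempty (a b : Fin k → ℕ) (p : Fin k × Fin t) :
    chn c.r (D.f a b) (D.u₁ p) ≠ ∅ := by
  rw [← nonempty_iff_ne_empty]
  refine ⟨D.w₁ p, ?_⟩
  simp only [chn, mem_filter, mem_univ, true_and]
  exact ⟨ne_root (D.k2 _), D.f_w₁ a b p⟩

/-- The non-special vertices attached to `x` (the property `E` being fixed). -/
def base (x : V) (E : V → Prop) [DecidablePred E] : Finset V := by
  classical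
  exact univ.filter fun v => v ≠ c.r ∧ (¬ ∃ q, D.u₀ q = v) ∧ (¬ ∃ q, D.u₁ q = v) ∧
    (¬ ∃ q, D.w₁ q = v) ∧ c.P v = x ∧ E v

theorem card_one (a b : Fin k → ℕ) (ha : Ok t a) (i : Fin k) (E : V → Prop) [DecidablePred E]
    (hE : ∀ v, chn c.r (D.f a b) v = ∅ ↔ E v) :
    (sg c.r (D.f a b) (D.h i)).1 = (D.base (D.h i) E).card + a i := by
  classical
  have e : (chn c.r (D.f a b) (D.h i)).filter (fun v => chn c.r (D.f a b) v = ∅) =
      D.base (D.h i) E ∪ ((univ : Finset (Fin t)).filter fun l : Fin t => (l : ℕ) < a i).image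
        (fun l => D.u₀ (i, l)) := by
    ext v
    rw [mem_filter, mem_union, mem_image, mem_chn']
    simp only [base, mem_filter, mem_univ, true_and]
    constructor
    · rintro ⟨⟨hr, hv⟩, he⟩
      by_cases h0 : ∃ q, D.u₀ q = v
      · right
        obtain ⟨⟨i', l⟩, rfl⟩ := h0
        rw [D.f_u₀] at hv
        split_ifs at hv with hl
        · have : i' = i := D.hi hv
          subst this
          exact ⟨l, hl, rfl⟩
        · exact absurd hv.symm (D.hhs i)
      by_cases h1 : ∃ q, D.u₁ q = v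
      · obtain ⟨q, rfl⟩ := h1
        exact absurd he (D.u₁_nonempty a b q)
      by_cases h2 : ∃ q, D.w₁ q = v
      · obtain ⟨q, rfl⟩ := h2
        rw [D.f_w₁] at hv
        exact absurd (hv ▸ D.hNK (D.hN i)) (D.k1 q)
      left
      rw [D.f_else a b h0 h1 h2] at hv
      exact ⟨hr, h0, h1, h2, hv, (hE v).1 he⟩
    · rintro (⟨hr, h0, h1, h2, hv, he⟩ | ⟨l, hl, rfl⟩)
      · refine ⟨⟨hr, ?_⟩, (hE v).2 he⟩
        rw [D.f_else a b h0 h1 h2, hv]
      · refine ⟨⟨ne_root (D.k0 _), ?_⟩, D.u₀_empty a b _⟩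
        rw [D.f_u₀, if_pos]
        exact hl
  have hd : Disjoint (D.base (D.h i) E)
      (((univ : Finset (Fin t)).filter fun l : Fin t => (l : ℕ) < a i).image (fun l => D.u₀ (i, l))) := by
    rw [disjoint_left]
    intro v hv hv'
    simp only [base, mem_filter, mem_univ, true_and] at hv
    simp only [mem_image, mem_filter, mem_univ, true_and] at hv'
    obtain ⟨l, _, rfl⟩ := hv'
    exact hv.2.1 ⟨_, rfl⟩
  unfold sg
  simp only
  rw [e, card_union_of_disjoint hd, card_image_of_injective]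
  · congr 1
    have := (ha i).2
    rw [Fin.card_filter_val_lt]
    omega
  · intro l l' hl
    have := D.i0 hl
    simpa using this

theorem card_two (a b : Fin k → ℕ) (hb : Ok t b) (i : Fin k) (E : V → Prop) [DecidablePred E]
    (hE : ∀ v, chn c.r (D.f a b) v ≠ ∅ ↔ E v) :
    (sg c.r (D.f a b) (D.h i)).2 =
      (D.base (D.h i) E).card + b i + (if D.h i = c.r then 0 else 1) := by
  classical
  have e : (chn c.r (D.f a b) (D.h i)).filter (fun v => chn c.r (D.f a b) v ≠ ∅) =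
      D.base (D.h i) E ∪ ((univ : Finset (Fin t)).filter fun l : Fin t => (l : ℕ) < b i).image
        (fun l => D.u₁ (i, l)) := by
    ext v
    rw [mem_filter, mem_union, mem_image, mem_chn']
    simp only [base, mem_filter, mem_univ, true_and]
    constructor
    · rintro ⟨⟨hr, hv⟩, he⟩
      by_cases h0 : ∃ q, D.u₀ q = v
      · obtain ⟨q, rfl⟩ := h0
        exact absurd (D.u₀_empty a b q) he
      by_cases h1 : ∃ q, D.u₁ q = v
      · right
        obtain ⟨⟨i', l⟩, rfl⟩ := h1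
        rw [D.f_u₁] at hv
        split_ifs at hv with hl
        · have : i' = i := D.hi hv
          subst this
          exact ⟨l, hl, rfl⟩
        · exact absurd hv.symm (D.hhs i)
      by_cases h2 : ∃ q, D.w₁ q = v
      · obtain ⟨q, rfl⟩ := h2
        rw [D.f_w₁] at hv
        exact absurd (hv ▸ D.hNK (D.hN i)) (D.k1 q)
      left
      rw [D.f_else a b h0 h1 h2] at hv
      exact ⟨hr, h0, h1, h2, hv, (hE v).1 he⟩
    · rintro (⟨hr, h0, h1, h2, hv, he⟩ | ⟨l, hl, rfl⟩)
      · refine ⟨⟨hr, ?_⟩, (hE v).2 he⟩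
        rw [D.f_else a b h0 h1 h2, hv]
      · refine ⟨⟨ne_root (D.k1 _), ?_⟩, D.u₁_nonempty a b _⟩
        rw [D.f_u₁, if_pos]
        exact hl
  have hd : Disjoint (D.base (D.h i) E)
      (((univ : Finset (Fin t)).filter fun l : Fin t => (l : ℕ) < b i).image (fun l => D.u₁ (i, l))) := by
    rw [disjoint_left]
    intro v hv hv'
    simp only [base, mem_filter, mem_univ, true_and] at hv
    simp only [mem_image, mem_filter, mem_univ, true_and] at hv'
    obtain ⟨l, _, rfl⟩ := hv'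
    exact hv.2.2.1 ⟨_, rfl⟩
  unfold sg
  simp only
  rw [e, card_union_of_disjoint hd, card_image_of_injective]
  · congr 2
    have := (hb i).2
    rw [Fin.card_filter_val_lt]
    omega
  · intro l l' hl
    have := D.i1 hl
    simpa using this

end DB

/-- Counting in Case B. -/
theorem DB.count {G : SimpleGraph V} {c : Core G} {k t : ℕ} (D : DB G c k t) (hNc : D.N.card = k + 1) :
    (t - 1) ^ (2 * k) ≤ (k + 1) ^ k * tauIso G := by
  classical
  rcases Nat.eq_zero_or_pos k with hk | hk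
  · subst hk
    have h := card_le_tauIso' (G := G) (r := c.r) (J := Fin 1)
      (fun _ => D.f (fun _ => 0) (fun _ => 0)) (fun _ => D.isPar _ _) 1
      (fun j => ⟨{j}, by simp, fun j' _ => by simp [Subsingleton.elim j' j]⟩)
    simpa using h
  set J := Fin k → Fin (t - 1) × Fin (t - 1) with hJ
  let A : J → Fin k → ℕ := fun j i => ((j i).1 : ℕ) + 1
  let B : J → Fin k → ℕ := fun j i => ((j i).2 : ℕ) + 1
  have hA : ∀ j, DB.Ok t (A j) := fun j i => by
    have := (j i).1.2
    simp only [A]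
    omega
  have hB : ∀ j, DB.Ok t (B j) := fun j i => by
    have := (j i).2.2
    simp only [B]
    omega
  have hone : ∀ j j' i, (sg c.r (D.f (A j) (B j)) (D.h i)).1 + (A j' i) =
      (sg c.r (D.f (A j') (B j')) (D.h i)).1 + A j i := by
    intro j j' i
    rw [D.card_one (A j) (B j) (hA j) i (fun v => chn c.r (D.f (A j) (B j)) v = ∅) (fun v => Iff.rfl),
      D.card_one (A j') (B j') (hA j') i (fun v => chn c.r (D.f (A j) (B j)) v = ∅)
        (fun v => D.empty_iff _ _ _ _ (hA j') (hA j) hk v)]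
    omega
  have htwo : ∀ j j' i, (sg c.r (D.f (A j) (B j)) (D.h i)).2 + (B j' i) =
      (sg c.r (D.f (A j') (B j')) (D.h i)).2 + B j i := by
    intro j j' i
    rw [D.card_two (A j) (B j) (hB j) i (fun v => chn c.r (D.f (A j) (B j)) v ≠ ∅) (fun v => Iff.rfl),
      D.card_two (A j') (B j') (hB j') i (fun v => chn c.r (D.f (A j) (B j)) v ≠ ∅)
        (fun v => not_congr (D.empty_iff _ _ _ _ (hA j') (hA j) hk v))]
    omega
  let g : Fin k → Fin (t - 1) × Fin (t - 1) → ℕ × ℕ := fun i a =>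
    sg c.r (D.f (A fun _ => a) (B fun _ => a)) (D.h i)
  have hg : ∀ j i, g i (j i) = sg c.r (D.f (A j) (B j)) (D.h i) := by
    intro j i
    have h1 := hone j (fun _ => j i) i
    have h2 := htwo j (fun _ => j i) i
    simp only [A, B] at h1 h2
    refine Prod.ext ?_ ?_
    · simp only [g, A, B]
      omega
    · simp only [g, A, B]
      omega
  have hgi : ∀ i, Function.Injective (g i) := by
    intro i a a' h
    have h1 := hone (fun _ => a) (fun _ => a') i
    have h2 := htwo (fun _ => a) (fun _ => a') i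
    have h3 : sg c.r (D.f (A fun _ => a) (B fun _ => a)) (D.h i) =
      sg c.r (D.f (A fun _ => a') (B fun _ => a')) (D.h i) := h
    rw [h3] at h1 h2
    simp only [A, B] at h1 h2
    refine Prod.ext (Fin.ext ?_) (Fin.ext ?_)
    · omega
    · omega
  have key := card_le_tauIso (G := G) (r := c.r) (J := J) (β := Multiset (ℕ × ℕ))
    (fun j => D.f (A j) (B j)) (fun j => D.isPar _ _)
    (fun j => (univ : Finset V).val.map (sg c.r (D.f (A j) (B j))))
    (fun j j' h => sg_multiset (D.isPar _ _) (D.isPar _ _)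
      (c.two_le_root _ fun v hv => D.f_K _ _ hv) (c.two_le_root _ fun v hv => D.f_K _ _ hv) h)
    ((k + 1) ^ k) ?_
  · refine le_trans (le_of_eq ?_) key
    simp only [J, Fintype.card_fun, Fintype.card_prod, Fintype.card_fin, ← sq, pow_mul]
  · intro M
    rcases (univ.filter fun j => (univ : Finset V).val.map (sg c.r (D.f (A j) (B j))) = M).eq_empty_or_nonempty
      with he | ⟨j₁, hj₁⟩
    · rw [he]; simp
    have hM : (univ : Finset V).val.map (sg c.r (D.f (A j₁) (B j₁))) = M := by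
      simpa using hj₁
    have hpi := card_pi_le g (D.N.image (sg c.r (D.f (A j₁) (B j₁)))) (k + 1) 1
      (le_trans card_image_le hNc.le) ?_
    · refine le_trans (card_le_card ?_) (le_trans hpi (by simp))
      intro j hj
      simp only [mem_filter, mem_univ, true_and] at hj ⊢
      intro i
      rw [hg]
      have hm := map_eq_of_const (sg c.r (D.f (A j) (B j))) (sg c.r (D.f (A j₁) (B j₁))) D.N
        (fun x hx => D.sg_out _ _ _ _ (hA j) (hA j₁) hk hx) (hj.trans hM.symm)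
      have : sg c.r (D.f (A j) (B j)) (D.h i) ∈ D.N.val.map (sg c.r (D.f (A j) (B j))) :=
        Multiset.mem_map_of_mem _ (D.hN i)
      rw [hm] at this
      obtain ⟨x, hx, hx'⟩ := Multiset.mem_map.1 this
      exact mem_image.2 ⟨x, hx, hx'⟩
    · intro i y
      rw [card_le_one]
      intro a ha a' ha'
      simp only [mem_filter, mem_univ, true_and] at ha ha'
      exact hgi i (ha.trans ha'.symm)

/-- `N = {h 0, …, h (k-1), h*}`. Parameters `a, b : Fin k → {1, …, t - 1}` (`Fin (t - 1)` shifted by one).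
Parent function: `u₀ (i, l)` is attached to `h i` if `l < a i`, otherwise to `h*`; `u₁ (i, l)` is
attached to `h i` if `l < b i`, otherwise to `h*`; `w₁ (i, l)` is attached to `u₁ (i, l)`; all other
vertices to `c.P` (`Core.isPar` with rank 1 at the `w₁`'s and 0 elsewhere). All vertices of `N`
have children for all parameters (`1 ≤ a i ≤ t - 1`), so the set of childless vertices is
the same for all parameters, `sg` is constant outside `N`, and `sg (h i) = const + (a i, b i)`.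
Invariant: the multiset of `sg` (`sg_multiset`, `Core.two_le_root`); `map_eq_of_const` with `W = N`;
`card_pi_le` with `α = Fin (t - 1) × Fin (t - 1)`, `b = k + 1`, `e = 1`.
(For `k = 0` or `t ≤ 1` the statement is trivial or covered by the same argument.) -/
theorem case_B {G : SimpleGraph V} (c : Core G) (N : Finset V) (k t : ℕ)
    (hN : N.card = k + 1) (hNK : N ⊆ c.K) (u₀ u₁ w₁ : Fin k × Fin t → V)
    (hinj : Function.Injective (fun p : Fin 3 × (Fin k × Fin t) =>
      if p.1 = 0 then u₀ p.2 else if p.1 = 1 then u₁ p.2 else w₁ p.2))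
    (hu₀ : ∀ p, u₀ p ∉ c.K) (hu₁ : ∀ p, u₁ p ∉ c.K) (hw₁ : ∀ p, w₁ p ∉ c.K)
    (ha₀ : ∀ p, ∀ h ∈ N, G.Adj (u₀ p) h) (ha₁ : ∀ p, ∀ h ∈ N, G.Adj (u₁ p) h)
    (haw : ∀ p, G.Adj (w₁ p) (u₁ p)) :
    (t - 1) ^ (2 * k) ≤ (k + 1) ^ k * tauIso G := by
  classical
  let e := (N.equivFinOfCardEq hN).symm
  have h01 : (0 : Fin 3) ≠ 1 := by decide
  have h02 : (2 : Fin 3) ≠ 0 := by decide
  have h12 : (2 : Fin 3) ≠ 1 := by decide
  have hh : ∀ p p' : Fin 3 × (Fin k × Fin t),
      (if p.1 = 0 then u₀ p.2 else if p.1 = 1 then u₁ p.2 else w₁ p.2) =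
      (if p'.1 = 0 then u₀ p'.2 else if p'.1 = 1 then u₁ p'.2 else w₁ p'.2) → p = p' :=
    fun p p' h => hinj h
  let D : DB G c k t :=
    { u₀ := u₀
      u₁ := u₁
      w₁ := w₁
      h := fun i => (e (Fin.castSucc i)).1
      hs := (e (Fin.last k)).1
      N := N
      hi := fun i i' h => by
        have := e.injective (Subtype.ext h)
        exact Fin.castSucc_injective k this
      hhs := fun i h => by
        have := e.injective (Subtype.ext h)
        exact absurd this (Fin.castSucc_lt_last i).ne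
      hN := fun i => (e _).2
      hsN := (e _).2
      hcov := fun x hx => by
        obtain ⟨y, hy⟩ := e.surjective ⟨x, hx⟩
        induction y using Fin.lastCases with
        | last => exact Or.inl (by rw [hy])
        | cast i => exact Or.inr ⟨i, by rw [hy]⟩
      hNK := hNK
      i0 := fun p p' h => by
        have := hh (0, p) (0, p') (by simpa using h)
        exact (Prod.ext_iff.1 this).2
      i1 := fun p p' h => by
        have := hh (1, p) (1, p') (by simpa using h)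
        exact (Prod.ext_iff.1 this).2
      i2 := fun p p' h => by
        have := hh (2, p) (2, p') (by simpa [h02, h12] using h)
        exact (Prod.ext_iff.1 this).2
      n01 := fun p p' h => by
        have := hh (0, p) (1, p') (by simpa using h)
        exact h01 (Prod.ext_iff.1 this).1
      n02 := fun p p' h => by
        have := hh (0, p) (2, p') (by simpa [h02, h12] using h)
        exact h02 (Prod.ext_iff.1 this).1.symm
      n12 := fun p p' h => by
        have := hh (1, p) (2, p') (by simpa [h02, h12] using h)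
        exact h12 (Prod.ext_iff.1 this).1.symm
      k0 := hu₀
      k1 := hu₁
      k2 := hw₁
      ha₀ := ha₀
      ha₁ := ha₁
      haw := haw }
  exact D.count hN

end H35ST
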