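import Pool.Agent.H35.ST.CaseB

/-! Module CASEBB: selection for Case B. -/

namespace H35ST

open Finset

/-- Let `B` be the set of the `u ∉ K` with `(d + 1) / 2 + 1 ≤ |nb u H|` and a neighbour `w u ∉ K`.
Zones `{u, w u}`: every point is in at most `Δ` of them (points are outside `K ⊇ H`, so they
have fewer than `Δ` neighbours outside `K`); `exists_disjoint_zones` with `a = Δ`, `b = 2`. Choose
`N u ⊆ nb G u H` with `(d + 1) / 2 + 1` elements and take the most popular one of the at most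
`2 ^ k0` possible sets (`exists_large_fiber`). With `k = (d + 1) / 2` this gives at least
`n / (2 Δ ^ 2 2 ^ k0)` disjoint pairs `(u, w u)` with all `u` adjacent to `N`, `N.card = k + 1`.
`case_B` with `t + 1` in place of `t` needs `2 k (t + 1)` of them; `2 * k ≥ d`. -/
theorem case_B' (d k0 : ℕ) (hd : 2 ≤ d) : ∃ C : ℕ, 0 < C ∧
    ∀ (V : Type) [Fintype V] [DecidableEq V] (G : SimpleGraph V) [DecidableRel G.Adj]
      (c : Core G) (H : Finset V) (Δ t : ℕ), H ⊆ c.K → H.card ≤ k0 → 1 ≤ Δ → 1 ≤ t →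
      (∀ v, v ∉ H → (nb G v c.Kᶜ).card < Δ) →
      Fintype.card V ≤ Δ * (c.Kᶜ.filter fun u =>
        (d + 1) / 2 + 1 ≤ (nb G u H).card ∧ 1 ≤ (nb G u c.Kᶜ).card).card →
      C * Δ ^ 4 * t ≤ Fintype.card V → t ^ d ≤ C * tauIso G := by
  obtain ⟨k, hk⟩ : ∃ k, k = (d + 1) / 2 := ⟨_, rfl⟩
  have hk1 : 1 ≤ k := by omega
  have hk2 : d ≤ 2 * k := by omega
  refine ⟨8 * k * 2 ^ k0 + (k + 1) ^ k, by positivity, ?_⟩
  intro V _ _ G _ c H Δ t hHK hHk hΔ ht hnb hB hC
  rw [← hk] at hB
  obtain ⟨B, hBdef⟩ : ∃ B : Finset V, B = (c.Kᶜ.filter fun u =>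
        k + 1 ≤ (nb G u H).card ∧ 1 ≤ (nb G u c.Kᶜ).card) := ⟨_, rfl⟩
  rw [← hBdef] at hB
  have hBm : ∀ u ∈ B, u ∉ c.K ∧ k + 1 ≤ (nb G u H).card ∧ 1 ≤ (nb G u c.Kᶜ).card := by
    intro u hu
    rw [hBdef, Finset.mem_filter, Finset.mem_compl] at hu
    exact hu
  -- the partner
  have hw : ∀ u, ∃ w, u ∈ B → (w ∉ c.K ∧ G.Adj u w) := by
    intro u
    by_cases hu : u ∈ B
    · obtain ⟨w, hw⟩ := Finset.card_pos.1 (hBm u hu).2.2
      have h2 := Finset.mem_filter.1 hw
      exact ⟨w, fun _ => ⟨Finset.mem_compl.1 h2.1, h2.2⟩⟩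
    · exact ⟨u, fun h => absurd h hu⟩
  choose w hw using hw
  have hN : ∀ u, ∃ N : Finset V, u ∈ B → (N ⊆ nb G u H ∧ N.card = k + 1) := by
    intro u
    by_cases hu : u ∈ B
    · obtain ⟨N, hN1, hN2⟩ := Finset.exists_subset_card_eq (hBm u hu).2.1
      exact ⟨N, fun _ => ⟨hN1, hN2⟩⟩
    · exact ⟨∅, fun h => absurd h hu⟩
  choose N hN using hN
  obtain ⟨S', hS'B, hS'card, hS'd⟩ := exists_disjoint_zones B (fun u => ({u, w u} : Finset V)) Δ 2
    (fun s _ => ⟨s, by simp⟩) (fun s _ => Finset.card_le_two) (by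
      intro x
      by_cases hx : x ∈ c.K
      · have : (B.filter fun s => x ∈ ({s, w s} : Finset V)) = ∅ := by
          rw [Finset.filter_eq_empty_iff]
          intro s hs hxs
          rcases Finset.mem_insert.1 hxs with h | h
          · exact (hBm s hs).1 (h ▸ hx)
          · rw [Finset.mem_singleton] at h
            exact (hw s hs).1 (h ▸ hx)
        rw [this]
        simp
      · have hxH : x ∉ H := fun h => hx (hHK h)
        have h1 : (B.filter fun s => x ∈ ({s, w s} : Finset V)) ⊆ insert x (nb G x c.Kᶜ) := by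
          intro s hs
          obtain ⟨hs1, hs2⟩ := Finset.mem_filter.1 hs
          rcases Finset.mem_insert.1 hs2 with h | h
          · rw [h]; exact Finset.mem_insert_self _ _
          · rw [Finset.mem_singleton] at h
            apply Finset.mem_insert_of_mem
            refine Finset.mem_filter.2 ⟨Finset.mem_compl.2 (hBm s hs1).1, ?_⟩
            rw [h]
            exact (hw s hs1).2.symm
        have h2 := Finset.card_le_card h1
        have h3 := Finset.card_insert_le x (nb G x c.Kᶜ)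
        have h4 := hnb x hxH
        omega)
  obtain ⟨N0, hN0, hfib⟩ := exists_large_fiber S' H.powerset N ⟨∅, by simp⟩ (by
    intro s hs
    exact Finset.mem_powerset.2 ((hN s (hS'B hs)).1.trans (Finset.filter_subset _ _)))
  obtain ⟨F, hF⟩ : ∃ F : Finset V, F = S'.filter fun s => N s = N0 := ⟨_, rfl⟩
  rw [← hF, Finset.card_powerset] at hfib
  have hFS : ∀ s ∈ F, s ∈ S' ∧ N s = N0 := by
    intro s hs
    rw [hF, Finset.mem_filter] at hs
    exact hs
  have h2k0 : 2 ^ H.card ≤ 2 ^ k0 := Nat.pow_le_pow_right (by norm_num) hHk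
  have hchain : Fintype.card V ≤ 2 * Δ ^ 2 * 2 ^ k0 * F.card := by
    calc Fintype.card V ≤ Δ * B.card := hB
      _ ≤ Δ * (Δ * 2 * S'.card) := Nat.mul_le_mul_left _ hS'card
      _ ≤ Δ * (Δ * 2 * (2 ^ k0 * F.card)) := by
        apply Nat.mul_le_mul_left
        apply Nat.mul_le_mul_left
        exact hfib.trans (Nat.mul_le_mul_right _ h2k0)
      _ = 2 * Δ ^ 2 * 2 ^ k0 * F.card := by ring
  have hFbig : 2 * (k * (t + 1)) ≤ F.card := by
    have h1 : 8 * k * 2 ^ k0 * Δ ^ 4 * t ≤ 2 * Δ ^ 2 * 2 ^ k0 * F.card := by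
      calc 8 * k * 2 ^ k0 * Δ ^ 4 * t ≤ (8 * k * 2 ^ k0 + (k + 1) ^ k) * Δ ^ 4 * t := by
            apply Nat.mul_le_mul_right
            apply Nat.mul_le_mul_right
            exact Nat.le_add_right _ _
        _ ≤ _ := hC.trans hchain
    have hΔ2 : 1 ≤ Δ ^ 2 := Nat.one_le_pow _ _ hΔ
    have h2 : (2 * Δ ^ 2 * 2 ^ k0) * (4 * k * Δ ^ 2 * t) ≤ (2 * Δ ^ 2 * 2 ^ k0) * F.card := by
      calc (2 * Δ ^ 2 * 2 ^ k0) * (4 * k * Δ ^ 2 * t) = 8 * k * 2 ^ k0 * Δ ^ 4 * t := by ring
        _ ≤ _ := h1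
    have h3 : 4 * k * Δ ^ 2 * t ≤ F.card := Nat.le_of_mul_le_mul_left h2 (by positivity)
    calc 2 * (k * (t + 1)) ≤ 2 * (k * (t + t)) := by
          apply Nat.mul_le_mul_left
          apply Nat.mul_le_mul_left
          omega
      _ = 4 * k * 1 * t := by ring
      _ ≤ 4 * k * Δ ^ 2 * t := by
          apply Nat.mul_le_mul_right
          exact Nat.mul_le_mul_left _ hΔ2
      _ ≤ F.card := h3
  have hemb : Nonempty ((Fin 2 × (Fin k × Fin (t + 1))) ↪ F) := by
    apply Function.Embedding.nonempty_of_card_le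
    simp only [Fintype.card_prod, Fintype.card_fin, Fintype.card_coe]
    exact hFbig
  obtain ⟨e⟩ := hemb
  have hF0 : 0 < F.card := lt_of_lt_of_le (by positivity) hFbig
  obtain ⟨s0, hs0⟩ := Finset.card_pos.1 hF0
  have hN0card : N0.card = k + 1 := by
    rw [← (hFS s0 hs0).2]
    exact (hN s0 (hS'B (hFS s0 hs0).1)).2
  have hadj : ∀ s ∈ F, ∀ h ∈ N0, G.Adj s h := by
    intro s hs h hh
    rw [← (hFS s hs).2] at hh
    exact (Finset.mem_filter.1 ((hN s (hS'B (hFS s hs).1)).1 hh)).2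
  have hzone : ∀ s ∈ F, ∀ s' ∈ F, ∀ x, (x = s ∨ x = w s) → (x = s' ∨ x = w s') → s = s' := by
    intro s hs s' hs' x hx hx'
    by_contra hne
    have h1 := hS'd s (hFS s hs).1 s' (hFS s' hs').1 hne
    rw [Finset.disjoint_left] at h1
    exact h1 (a := x) (by simpa using hx) (by simpa using hx')
  have hne : ∀ s ∈ F, s ≠ w s := fun s hs => (hw s (hS'B (hFS s hs).1)).2.ne
  have hfin := case_B c N0 k (t + 1) hN0card ((Finset.mem_powerset.1 hN0).trans hHK)
    (fun p => (e (0, p) : V)) (fun p => (e (1, p) : V)) (fun p => w (e (1, p) : V))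
    (by
      rintro ⟨i, p⟩ ⟨j, q⟩ h
      have hi : i = 0 ∨ i = 1 ∨ i = 2 := by omega
      have hj : j = 0 ∨ j = 1 ∨ j = 2 := by omega
      rcases hi with rfl | rfl | rfl <;> rcases hj with rfl | rfl | rfl <;>
        simp only [Fin.isValue, if_true, one_ne_zero, if_false, Fin.reduceEq] at h
      · have h2 := e.injective (Subtype.ext h)
        simp only [Prod.mk.injEq, true_and] at h2
        rw [h2]
      · have h2 := e.injective (Subtype.ext h)
        simp at h2
      · exfalso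
        have h2 := hzone _ (e (0, p)).2 _ (e (1, q)).2 _ (Or.inl rfl) (Or.inr h)
        have h3 := e.injective (Subtype.ext h2)
        simp at h3
      · have h2 := e.injective (Subtype.ext h)
        simp at h2
      · have h2 := e.injective (Subtype.ext h)
        simp only [Prod.mk.injEq, true_and] at h2
        rw [h2]
      · exfalso
        have h2 := hzone _ (e (1, p)).2 _ (e (1, q)).2 _ (Or.inl rfl) (Or.inr h)
        rw [h2] at h
        exact hne _ (e (1, q)).2 h
      · exfalso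
        have h2 := hzone _ (e (1, p)).2 _ (e (0, q)).2 _ (Or.inr rfl) (Or.inl h)
        have h3 := e.injective (Subtype.ext h2)
        simp at h3
      · exfalso
        have h2 := hzone _ (e (1, p)).2 _ (e (1, q)).2 _ (Or.inr rfl) (Or.inl h)
        rw [h2] at h
        exact hne _ (e (1, q)).2 h.symm
      · have h2 := hzone _ (e (1, p)).2 _ (e (1, q)).2 _ (Or.inr rfl) (Or.inr h)
        have h3 := e.injective (Subtype.ext h2)
        simp only [Prod.mk.injEq, true_and] at h3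
        rw [h3])
    (fun p => (hBm _ (hS'B (hFS _ (e (0, p)).2).1)).1)
    (fun p => (hBm _ (hS'B (hFS _ (e (1, p)).2).1)).1)
    (fun p => (hw _ (hS'B (hFS _ (e (1, p)).2).1)).1)
    (fun p => hadj _ (e (0, p)).2)
    (fun p => hadj _ (e (1, p)).2)
    (fun p => (hw _ (hS'B (hFS _ (e (1, p)).2).1)).2.symm)
  rw [Nat.add_sub_cancel] at hfin
  calc t ^ d ≤ t ^ (2 * k) := Nat.pow_le_pow_right ht hk2
    _ ≤ (k + 1) ^ k * tauIso G := hfin
    _ ≤ (8 * k * 2 ^ k0 + (k + 1) ^ k) * tauIso G := Nat.mul_le_mul_right _ (Nat.le_add_left _ _)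

end H35ST
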