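import Pool.Agent.H35.ST.TreeC

/-! Module CASERA: the parent functions of the local modifications of Case R and their `sg`. -/

namespace H35ST

open Finset

variable {V : Type*} [Fintype V] [DecidableEq V]

/-- The spot data: `sp i none` is the centre, `sp i (some (0, l))` the vertices `y l`,
`sp i (some (1, l))` the vertices `w l`, `sp i (some (2, l))` the vertices `x l`. -/
structure Spots (G : SimpleGraph V) (c : Core G) (ι : Type) (q : ℕ) where
  sp : ι → Option (Fin 3 × Fin q) → V
  inj : Function.Injective (fun p : ι × Option (Fin 3 × Fin q) => sp p.1 p.2)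
  notK : ∀ i o, sp i o ∉ c.K
  adj_y : ∀ i l, G.Adj (sp i none) (sp i (some (0, l)))
  adj_w : ∀ i l, G.Adj (sp i none) (sp i (some (1, l)))
  adj_x : ∀ i l, G.Adj (sp i (some (0, l))) (sp i (some (2, l)))

/-- `g` is the parent function of the states `s`: in state `none` all vertices of the spot are at
their `P`-parents; in state `some (a, b)` the vertices `w l`, `l ≤ a`, and `y l`, `l ≤ b`, are attached
to the centre and `x l`, `l ≤ b`, to `y l`. -/
def IsState {G : SimpleGraph V} {c : Core G} {ι : Type} {q : ℕ} (S : Spots G c ι q)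
    (s : ι → Option (Fin q × Fin q)) (g : V → V) : Prop :=
  (∀ v, (∀ i o, v ≠ S.sp i o) → g v = c.P v) ∧
  (∀ i, g (S.sp i none) = c.P (S.sp i none)) ∧
  (∀ i, s i = none → ∀ o, g (S.sp i o) = c.P (S.sp i o)) ∧
  (∀ i a b, s i = some (a, b) →
    (∀ l, g (S.sp i (some (0, l))) = if l ≤ b then S.sp i none else c.P (S.sp i (some (0, l)))) ∧
    (∀ l, g (S.sp i (some (1, l))) = if l ≤ a then S.sp i none else c.P (S.sp i (some (1, l)))) ∧
    (∀ l, g (S.sp i (some (2, l))) =
      if l ≤ b then S.sp i (some (0, l)) else c.P (S.sp i (some (2, l)))))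

/-- The state parent functions exist. -/
theorem exists_isState {G : SimpleGraph V} {c : Core G} {ι : Type} {q : ℕ} (S : Spots G c ι q)
    (s : ι → Option (Fin q × Fin q)) : ∃ g, IsState S s g := by
  classical
  let np : ι × Option (Fin 3 × Fin q) → V := fun p => match s p.1 with
    | none => c.P (S.sp p.1 p.2)
    | some (a, b) => match p.2 with
      | none => c.P (S.sp p.1 none)
      | some (j, l) =>
        if j = 0 then (if l ≤ b then S.sp p.1 none else c.P (S.sp p.1 (some (j, l))))
        else if j = 1 then (if l ≤ a then S.sp p.1 none else c.P (S.sp p.1 (some (j, l))))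
        else (if l ≤ b then S.sp p.1 (some (0, l)) else c.P (S.sp p.1 (some (j, l))))
  let g : V → V := fun v =>
    if h : ∃ p : ι × Option (Fin 3 × Fin q), S.sp p.1 p.2 = v then np h.choose else c.P v
  have hg : ∀ i o, g (S.sp i o) = np (i, o) := by
    intro i o
    have h : ∃ p : ι × Option (Fin 3 × Fin q), S.sp p.1 p.2 = S.sp i o := ⟨(i, o), rfl⟩
    have h2 : h.choose = (i, o) := S.inj h.choose_spec
    simp only [g]
    rw [dif_pos h, h2]
  refine ⟨g, ?_, ?_, ?_, ?_⟩
  · intro v hv
    have h : ¬ ∃ p : ι × Option (Fin 3 × Fin q), S.sp p.1 p.2 = v := by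
      rintro ⟨p, hp⟩
      exact hv p.1 p.2 hp.symm
    simp only [g]
    rw [dif_neg h]
  · intro i
    rw [hg]
    simp only [np]
    rcases s i with _ | ⟨a, b⟩ <;> rfl
  · intro i hi o
    rw [hg]
    simp only [np, hi]
  · intro i a b hi
    refine ⟨fun l => ?_, fun l => ?_, fun l => ?_⟩
    · rw [hg]
      simp only [np, hi]
      rfl
    · rw [hg]
      simp only [np, hi]
      rfl
    · rw [hg]
      simp only [np, hi]
      rfl

omit [Fintype V] [DecidableEq V] in
theorem IsState.agree {G : SimpleGraph V} {c : Core G} {ι : Type} {q : ℕ} {S : Spots G c ι q}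
    {s : ι → Option (Fin q × Fin q)} {g : V → V} (hg : IsState S s g) :
    ∀ v ∈ c.K, g v = c.P v := by
  intro v hv
  exact hg.1 v (fun i o h => S.notK i o (h ▸ hv))

/-- They are parent functions (`Core.isPar`, rank: `x`'s 3, `y`'s and `w`'s 2, all others 1). -/
theorem IsState.isPar {G : SimpleGraph V} {c : Core G} {ι : Type} {q : ℕ} {S : Spots G c ι q}
    {s : ι → Option (Fin q × Fin q)} {g : V → V} (hg : IsState S s g) : IsPar G c.r g := by
  classical
  let rk : V → ℕ := fun v => if ∃ i l, v = S.sp i (some (2, l)) then 3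
    else if ∃ i j l, v = S.sp i (some (j, l)) then 2 else 1
  have hcen : ∀ i, rk (S.sp i none) = 1 := by
    intro i
    have h1 : ¬ ∃ i' l, S.sp i none = S.sp i' (some (2, l)) := by
      rintro ⟨i', l, h⟩
      have := @S.inj (i, none) (i', some (2, l)) h
      simp at this
    have h2 : ¬ ∃ i' j l, S.sp i none = S.sp i' (some (j, l)) := by
      rintro ⟨i', j, l, h⟩
      have := @S.inj (i, none) (i', some (j, l)) h
      simp at this
    simp only [rk]
    rw [if_neg h1, if_neg h2]
  have hmid : ∀ i j l, j ≠ 2 → rk (S.sp i (some (j, l))) = 2 := by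
    intro i j l hj
    have h1 : ¬ ∃ i' l', S.sp i (some (j, l)) = S.sp i' (some (2, l')) := by
      rintro ⟨i', l', h⟩
      have := @S.inj (i, some (j, l)) (i', some (2, l')) h
      simp only [Prod.mk.injEq, Option.some.injEq] at this
      exact hj this.2.1
    have h2 : ∃ i' j' l', S.sp i (some (j, l)) = S.sp i' (some (j', l')) := ⟨i, j, l, rfl⟩
    simp only [rk]
    rw [if_neg h1, if_pos h2]
  have hbig : ∀ i l, rk (S.sp i (some (2, l))) = 3 := by
    intro i l
    have h1 : ∃ i' l', S.sp i (some (2, l)) = S.sp i' (some (2, l')) := ⟨i, l, rfl⟩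
    simp only [rk]
    rw [if_pos h1]
  have hPK : ∀ v, v ∉ c.K → c.P v ∈ c.K ∧ G.Adj v (c.P v) := by
    intro v hv
    have hvr : v ≠ c.r := fun h => hv (h ▸ c.I_sub c.r_mem)
    exact ⟨c.I_sub (c.par_mem v hvr), c.adj v hvr⟩
  have key : ∀ u, u ∉ c.K → G.Adj u (g u) ∧ (g u ∈ c.K ∨ rk (g u) < rk u) := by
    intro u hu
    obtain ⟨hP1, hP2⟩ := hPK u hu
    by_cases hsp : ∃ i o, u = S.sp i o
    · obtain ⟨i, o, rfl⟩ := hsp
      rcases hsi : s i with _ | ⟨a, b⟩
      · rw [hg.2.2.1 i hsi o]
        exact ⟨hP2, Or.inl hP1⟩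
      · rcases o with _ | ⟨j, l⟩
        · rw [hg.2.1 i]
          exact ⟨hP2, Or.inl hP1⟩
        · obtain ⟨h0, h1, h2⟩ := hg.2.2.2 i a b hsi
          have hj : j = 0 ∨ j = 1 ∨ j = 2 := by
            fin_cases j <;> simp
          rcases hj with rfl | rfl | rfl
          · rw [h0 l]
            split_ifs with hl
            · refine ⟨(S.adj_y i l).symm, Or.inr ?_⟩
              rw [hcen, hmid i 0 l (by decide)]
              norm_num
            · exact ⟨hP2, Or.inl hP1⟩
          · rw [h1 l]
            split_ifs with hl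
            · refine ⟨(S.adj_w i l).symm, Or.inr ?_⟩
              rw [hcen, hmid i 1 l (by decide)]
              norm_num
            · exact ⟨hP2, Or.inl hP1⟩
          · rw [h2 l]
            split_ifs with hl
            · refine ⟨(S.adj_x i l).symm, Or.inr ?_⟩
              rw [hbig, hmid i 0 l (by decide)]
              norm_num
            · exact ⟨hP2, Or.inl hP1⟩
    · rw [hg.1 u (fun i o h => hsp ⟨i, o, h⟩)]
      exact ⟨hP2, Or.inl hP1⟩
  exact c.isPar g rk hg.agree (fun u hu => (key u hu).1) (fun u hu => (key u hu).2)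

end H35ST
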