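import Pool.Agent.H35.ST.CaseRa

/-! Module CASERAB: childless vertices. -/

namespace H35ST

open Finset

variable {V : Type*} [Fintype V] [DecidableEq V]

/-- Which vertices are childless: outside `K` exactly the vertices which are not a centre in a
state `some _` and not a `y l` with `l ≤ b`; inside `K` exactly those not in `I`. -/
theorem IsState.childless {G : SimpleGraph V} {c : Core G} {ι : Type} {q : ℕ} {S : Spots G c ι q}
    {s : ι → Option (Fin q × Fin q)} {g : V → V} (hg : IsState S s g) (v : V) :
    chn c.r g v = ∅ ↔ v ∉ c.I ∧ (∀ i, v = S.sp i none → s i = none) ∧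
      (∀ i l a b, v = S.sp i (some (0, l)) → s i = some (a, b) → b < l) := by
  classical
  have hne : ∀ i o, S.sp i o ≠ c.r := fun i o h => S.notK i o (h ▸ c.I_sub c.r_mem)
  have hmem : ∀ x z, x ∈ chn c.r g z ↔ x ≠ c.r ∧ g x = z := by
    intro x z
    unfold chn
    rw [mem_filter]
    exact ⟨fun h => h.2, fun h => ⟨mem_univ _, h⟩⟩
  constructor
  · intro h
    rw [eq_empty_iff_forall_notMem] at h
    refine ⟨fun hI => ?_, fun i hv => ?_, fun i l a b hv hs => ?_⟩
    · obtain ⟨x, hx⟩ := c.chn_nonempty g hg.agree v hI
      exact h x hx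
    · rcases hsi : s i with _ | ⟨a, b⟩
      · rfl
      · exfalso
        -- the vertex `y 0` is attached to the centre
        have hq : 0 < q := Nat.lt_of_le_of_lt (Nat.zero_le _) b.2
        apply h (S.sp i (some (0, ⟨0, hq⟩)))
        rw [hmem]
        refine ⟨hne _ _, ?_⟩
        rw [(hg.2.2.2 i a b hsi).1, if_pos (Fin.mk_le_of_le_val (Nat.zero_le _)), hv]
    · by_contra hcon
      push Not at hcon
      apply h (S.sp i (some (2, l)))
      rw [hmem]
      refine ⟨hne _ _, ?_⟩
      rw [(hg.2.2.2 i a b hs).2.2, if_pos hcon, hv]
  · rintro ⟨h1, h2, h3⟩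
    rw [eq_empty_iff_forall_notMem]
    intro x hx
    rw [hmem] at hx
    obtain ⟨hxr, hx⟩ := hx
    have hPx : c.P x ≠ v := fun h => h1 (h ▸ c.par_mem x hxr)
    by_cases hsp : ∃ i o, x = S.sp i o
    · obtain ⟨i, o, rfl⟩ := hsp
      rcases hsi : s i with _ | ⟨a, b⟩
      · rw [hg.2.2.1 i hsi o] at hx
        exact hPx hx
      · rcases o with _ | ⟨j, l⟩
        · rw [hg.2.1 i] at hx
          exact hPx hx
        · obtain ⟨g0, g1, g2⟩ := hg.2.2.2 i a b hsi
          have hj : j = 0 ∨ j = 1 ∨ j = 2 := by
            fin_cases j <;> simp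
          rcases hj with rfl | rfl | rfl
          · rw [g0 l] at hx
            split_ifs at hx with hl
            · have := h2 i hx.symm
              rw [hsi] at this
              exact Option.some_ne_none _ this
            · exact hPx hx
          · rw [g1 l] at hx
            split_ifs at hx with hl
            · have := h2 i hx.symm
              rw [hsi] at this
              exact Option.some_ne_none _ this
            · exact hPx hx
          · rw [g2 l] at hx
            split_ifs at hx with hl
            · have := h3 i l a b hx.symm hsi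
              exact absurd hl (not_le.2 this)
            · exact hPx hx
    · rw [hg.1 x (fun i o h => hsp ⟨i, o, h⟩)] at hx
      exact hPx hx

end H35ST
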