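import Pool.Agent.H35.ST.CaseRaB

/-! Module CASERAC: `sg` outside the core. -/

namespace H35ST

open Finset

variable {V : Type*} [Fintype V] [DecidableEq V]

omit [Fintype V] [DecidableEq V] in
theorem Core.P_mem_K {G : SimpleGraph V} (c : Core G) {v : V} (hv : v ≠ c.r) : c.P v ∈ c.K :=
  c.I_sub (c.par_mem v hv)

omit [Fintype V] [DecidableEq V] in
theorem Spots.ne_r {G : SimpleGraph V} {c : Core G} {ι : Type} {q : ℕ} (S : Spots G c ι q)
    (i : ι) (o : Option (Fin 3 × Fin q)) : S.sp i o ≠ c.r := fun h =>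
  S.notK i o (h ▸ c.I_sub c.r_mem)

omit [Fintype V] [DecidableEq V] in
theorem Spots.sp_inj {G : SimpleGraph V} {c : Core G} {ι : Type} {q : ℕ} (S : Spots G c ι q)
    {i j : ι} {o o' : Option (Fin 3 × Fin q)} (h : S.sp i o = S.sp j o') : i = j ∧ o = o' := by
  have := @Spots.inj V G c ι q S (i, o) (j, o') h
  exact Prod.mk_inj.1 this

omit [Fintype V] [DecidableEq V] in
/-- The vertices attached outside `K`. -/
theorem IsState.cases_out {G : SimpleGraph V} {c : Core G} {ι : Type} {q : ℕ} {S : Spots G c ι q}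
    {s : ι → Option (Fin q × Fin q)} {g : V → V} (hg : IsState S s g) (u : V) (hu : u ≠ c.r)
    (hK : g u ∉ c.K) :
    ∃ j a b, s j = some (a, b) ∧
      ((∃ l, l ≤ b ∧ u = S.sp j (some (0, l)) ∧ g u = S.sp j none) ∨
       (∃ l, l ≤ a ∧ u = S.sp j (some (1, l)) ∧ g u = S.sp j none) ∨
       (∃ l, l ≤ b ∧ u = S.sp j (some (2, l)) ∧ g u = S.sp j (some (0, l)))) := by
  by_cases hsp : ∀ i o, u ≠ S.sp i o
  · rw [hg.1 u hsp] at hK
    exact absurd (c.P_mem_K hu) hK
  push Not at hsp
  obtain ⟨j, o, rfl⟩ := hsp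
  have hP := c.P_mem_K hu
  rcases hs : s j with _ | ⟨a, b⟩
  · rw [hg.2.2.1 j hs o] at hK
    exact absurd hP hK
  · refine ⟨j, a, b, hs, ?_⟩
    obtain ⟨h0, h1, h2⟩ := hg.2.2.2 j a b hs
    rcases o with _ | ⟨k, l⟩
    · rw [hg.2.1 j] at hK
      exact absurd hP hK
    · fin_cases k
      · simp only [Fin.zero_eta] at *
        by_cases hl : l ≤ b
        · exact Or.inl ⟨l, hl, rfl, by rw [h0 l, if_pos hl]⟩
        · rw [h0 l, if_neg hl] at hK
          exact absurd hP hK
      · simp only [Fin.mk_one] at *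
        by_cases hl : l ≤ a
        · exact Or.inr (Or.inl ⟨l, hl, rfl, by rw [h1 l, if_pos hl]⟩)
        · rw [h1 l, if_neg hl] at hK
          exact absurd hP hK
      · simp only [Fin.reduceFinMk] at *
        by_cases hl : l ≤ b
        · exact Or.inr (Or.inr ⟨l, hl, rfl, by rw [h2 l, if_pos hl]⟩)
        · rw [h2 l, if_neg hl] at hK
          exact absurd hP hK

/-- `sg` of a centre: `a + 1` leaves and `b + 1` non-leaf children, and the parent. -/
theorem IsState.sg_centre {G : SimpleGraph V} {c : Core G} {ι : Type} {q : ℕ} {S : Spots G c ι q}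
    {s : ι → Option (Fin q × Fin q)} {g : V → V} (hg : IsState S s g) (i : ι) (a b : Fin q)
    (hs : s i = some (a, b)) : sg c.r g (S.sp i none) = (a.1 + 1, b.1 + 2) := by
  have hxr : S.sp i none ≠ c.r := S.ne_r i none
  have hchn : ∀ v, v ∈ chn c.r g (S.sp i none) ↔
      ((∃ l, l ≤ b ∧ v = S.sp i (some (0, l))) ∨ (∃ l, l ≤ a ∧ v = S.sp i (some (1, l)))) := by
    intro v
    simp only [chn, mem_filter, mem_univ, true_and]
    constructor
    · rintro ⟨hvr, hgv⟩
      obtain ⟨j, a', b', hj, h⟩ := hg.cases_out v hvr (by rw [hgv]; exact S.notK i none)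
      rcases h with ⟨l, hl, rfl, h⟩ | ⟨l, hl, rfl, h⟩ | ⟨l, hl, rfl, h⟩
      · rw [hgv] at h
        obtain ⟨rfl, -⟩ := S.sp_inj h
        rw [hs] at hj
        obtain ⟨rfl, rfl⟩ := Prod.mk_inj.1 (Option.some.inj hj)
        exact Or.inl ⟨l, hl, rfl⟩
      · rw [hgv] at h
        obtain ⟨rfl, -⟩ := S.sp_inj h
        rw [hs] at hj
        obtain ⟨rfl, rfl⟩ := Prod.mk_inj.1 (Option.some.inj hj)
        exact Or.inr ⟨l, hl, rfl⟩
      · rw [hgv] at h
        exact absurd (S.sp_inj h).2 (by simp)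
    · obtain ⟨h0, h1, h2⟩ := hg.2.2.2 i a b hs
      rintro (⟨l, hl, rfl⟩ | ⟨l, hl, rfl⟩)
      · exact ⟨S.ne_r i _, by rw [h0 l, if_pos hl]⟩
      · exact ⟨S.ne_r i _, by rw [h1 l, if_pos hl]⟩
  have hy : ∀ l, l ≤ b → chn c.r g (S.sp i (some (0, l))) ≠ ∅ := by
    intro l hl h
    rw [hg.childless] at h
    exact absurd (h.2.2 i l a b rfl hs) (not_lt.2 hl)
  have hw : ∀ l, chn c.r g (S.sp i (some (1, l))) = ∅ := by
    intro l
    rw [hg.childless]
    refine ⟨fun h => S.notK _ _ (c.I_sub h), fun j h => absurd (S.sp_inj h).2 (by simp), ?_⟩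
    intro j l' a' b' h
    exact absurd (S.sp_inj h).2 (by simp)
  have h1 : ((chn c.r g (S.sp i none)).filter fun v => chn c.r g v = ∅) =
      (univ.filter fun l : Fin q => l ≤ a).image (fun l => S.sp i (some (1, l))) := by
    ext v
    simp only [mem_filter, hchn, mem_image, mem_univ, true_and]
    constructor
    · rintro ⟨⟨l, hl, rfl⟩ | ⟨l, hl, rfl⟩, h⟩
      · exact absurd h (hy l hl)
      · exact ⟨l, hl, rfl⟩
    · rintro ⟨l, hl, rfl⟩
      exact ⟨Or.inr ⟨l, hl, rfl⟩, hw l⟩
  have h2 : ((chn c.r g (S.sp i none)).filter fun v => chn c.r g v ≠ ∅) =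
      (univ.filter fun l : Fin q => l ≤ b).image (fun l => S.sp i (some (0, l))) := by
    ext v
    simp only [mem_filter, hchn, mem_image, mem_univ, true_and]
    constructor
    · rintro ⟨⟨l, hl, rfl⟩ | ⟨l, hl, rfl⟩, h⟩
      · exact ⟨l, hl, rfl⟩
      · exact absurd (hw l) h
    · rintro ⟨l, hl, rfl⟩
      exact ⟨Or.inl ⟨l, hl, rfl⟩, hy l hl⟩
  have hcard : ∀ t : Fin q, (univ.filter fun l : Fin q => l ≤ t).card = t.1 + 1 := by
    intro t
    have : (univ.filter fun l : Fin q => l ≤ t) = Finset.Iic t := by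
      ext l; simp
    rw [this, Fin.card_Iic]
  have hinj : ∀ k : Fin 3, Function.Injective (fun l : Fin q => S.sp i (some (k, l))) := by
    intro k l l' h
    have := (S.sp_inj h).2
    simpa using this
  unfold sg
  rw [h1, h2, card_image_of_injective _ (hinj 1), card_image_of_injective _ (hinj 0), hcard, hcard,
    if_neg hxr]

/-- All vertices outside `K` which are not centres in a state `some _` have `sg = (0, 1)` or
`sg = (1, 1)`; in particular the second component is at most one. -/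
theorem IsState.sg_out {G : SimpleGraph V} {c : Core G} {ι : Type} {q : ℕ} {S : Spots G c ι q}
    {s : ι → Option (Fin q × Fin q)} {g : V → V} (hg : IsState S s g) (v : V) (hv : v ∉ c.K)
    (h : ∀ i, v = S.sp i none → s i = none) : (sg c.r g v).2 ≤ 1 := by
  have hempty : ((chn c.r g v).filter fun u => chn c.r g u ≠ ∅) = ∅ := by
    rw [filter_eq_empty_iff]
    intro u hu hne
    simp only [chn, mem_filter, mem_univ, true_and] at hu
    obtain ⟨hur, hgu⟩ := hu
    obtain ⟨j, a, b, hj, hc⟩ := hg.cases_out u hur (by rw [hgu]; exact hv)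
    rcases hc with ⟨l, hl, rfl, hc⟩ | ⟨l, hl, rfl, hc⟩ | ⟨l, hl, rfl, hc⟩
    · have := h j (hgu.symm.trans hc)
      rw [hj] at this; exact absurd this (by simp)
    · have := h j (hgu.symm.trans hc)
      rw [hj] at this; exact absurd this (by simp)
    · apply hne
      rw [hg.childless]
      refine ⟨fun h => S.notK _ _ (c.I_sub h), fun j h => absurd (S.sp_inj h).2 (by simp), ?_⟩
      intro j' l' a' b' h'
      exact absurd (S.sp_inj h').2 (by simp)
  unfold sg
  simp only
  rw [hempty]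
  split_ifs <;> simp

end H35ST
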