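import Pool.Agent.H35.ST.CaseRaB

/-! Module CASERAD: `sg` inside the core. -/

namespace H35ST

open Finset

variable {V : Type*} [Fintype V] [DecidableEq V]

omit [Fintype V] [DecidableEq V] in
theorem IsState.aux_par {G : SimpleGraph V} {c : Core G} {ι : Type} {q : ℕ} {S : Spots G c ι q}
    {s : ι → Option (Fin q × Fin q)} {g : V → V} (hg : IsState S s g)
    (z : V) (hz : z ∈ c.K) (v : V) (hv : g v = z) : c.P v = z := by
  obtain ⟨h1, h2, h3, h4⟩ := hg
  by_cases hs : ∀ i o, v ≠ S.sp i o
  · rw [← h1 v hs, hv]
  · push Not at hs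
    obtain ⟨i, o, rfl⟩ := hs
    cases hsi : s i with
    | none => rw [← h3 i hsi o, hv]
    | some ab =>
      obtain ⟨a, b⟩ := ab
      obtain ⟨hy, hw, hx⟩ := h4 i a b hsi
      match o with
      | none => rw [← h2 i, hv]
      | some (0, l) =>
        have := hy l
        split_ifs at this with hl
        · exact absurd hz (by rw [← hv, this]; exact S.notK _ _)
        · rw [← this, hv]
      | some (1, l) =>
        have := hw l
        split_ifs at this with hl
        · exact absurd hz (by rw [← hv, this]; exact S.notK _ _)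
        · rw [← this, hv]
      | some (2, l) =>
        have := hx l
        split_ifs at this with hl
        · exact absurd hz (by rw [← hv, this]; exact S.notK _ _)
        · rw [← this, hv]

omit [Fintype V] [DecidableEq V] in
theorem IsState.aux_same {G : SimpleGraph V} {c : Core G} {ι : Type} {q : ℕ} {S : Spots G c ι q}
    {s s' : ι → Option (Fin q × Fin q)} {g g' : V → V} (hg : IsState S s g) (hg' : IsState S s' g')
    (v : V) (h : ∀ i o, v = S.sp i o → s i = s' i) : g v = g' v := by
  obtain ⟨h1, h2, h3, h4⟩ := hg
  obtain ⟨h1', h2', h3', h4'⟩ := hg'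
  by_cases hs : ∀ i o, v ≠ S.sp i o
  · rw [h1 v hs, h1' v hs]
  · push Not at hs
    obtain ⟨i, o, rfl⟩ := hs
    have hss := h i o rfl
    cases hsi : s i with
    | none => rw [h3 i hsi o, h3' i (hss ▸ hsi) o]
    | some ab =>
      obtain ⟨a, b⟩ := ab
      obtain ⟨hy, hw, hx⟩ := h4 i a b hsi
      obtain ⟨hy', hw', hx'⟩ := h4' i a b (hss ▸ hsi)
      match o with
      | none => rw [h2 i, h2' i]
      | some (0, l) => rw [hy l, hy' l]
      | some (1, l) => rw [hw l, hw' l]
      | some (2, l) => rw [hx l, hx' l]

theorem IsState.aux_cless {G : SimpleGraph V} {c : Core G} {ι : Type} {q : ℕ} {S : Spots G c ι q}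
    {s s' : ι → Option (Fin q × Fin q)} {g g' : V → V} (hg : IsState S s g) (hg' : IsState S s' g')
    (v : V) (h : ∀ i o, v = S.sp i o → s i = s' i) : chn c.r g v = ∅ ↔ chn c.r g' v = ∅ := by
  rw [hg.childless, hg'.childless]
  constructor
  · rintro ⟨h1, h2, h3⟩
    refine ⟨h1, fun i hi => (h i _ hi) ▸ h2 i hi, fun i l a b hi hb => h3 i l a b hi ?_⟩
    rw [h i _ hi, hb]
  · rintro ⟨h1, h2, h3⟩
    refine ⟨h1, fun i hi => (h i _ hi).symm ▸ h2 i hi, fun i l a b hi hb => h3 i l a b hi ?_⟩
    rw [← h i _ hi, hb]

/-- `sg` of a vertex `z ∈ K` only depends on the states of the spots with a vertex whose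
`P`-parent is `z`. -/
theorem IsState.sg_in {G : SimpleGraph V} {c : Core G} {ι : Type} {q : ℕ} {S : Spots G c ι q}
    {s s' : ι → Option (Fin q × Fin q)} {g g' : V → V} (hg : IsState S s g) (hg' : IsState S s' g')
    (z : V) (hz : z ∈ c.K) (h : ∀ i o, c.P (S.sp i o) = z → s i = s' i) :
    sg c.r g z = sg c.r g' z := by
  have hch : chn c.r g z = chn c.r g' z := by
    ext v
    simp only [chn, mem_filter, mem_univ, true_and]
    refine and_congr_right fun _ => ⟨fun hv => ?_, fun hv => ?_⟩
    · have hp := hg.aux_par z hz v hv
      rw [← hg.aux_same hg' v (fun i o ho => h i o (by rw [← ho]; exact hp))]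
      exact hv
    · have hp := hg'.aux_par z hz v hv
      rw [hg.aux_same hg' v (fun i o ho => h i o (by rw [← ho]; exact hp))]
      exact hv
  have key : ∀ v ∈ chn c.r g z, (chn c.r g v = ∅ ↔ chn c.r g' v = ∅) := by
    intro v hv
    simp only [chn, mem_filter, mem_univ, true_and] at hv
    have hp := hg.aux_par z hz v hv.2
    exact hg.aux_cless hg' v (fun i o ho => h i o (by rw [← ho]; exact hp))
  unfold sg
  have e1 : (chn c.r g z).filter (fun v => chn c.r g v = ∅) =
      (chn c.r g' z).filter (fun v => chn c.r g' v = ∅) := by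
    rw [← hch]; exact filter_congr key
  have e2 : (chn c.r g z).filter (fun v => chn c.r g v ≠ ∅) =
      (chn c.r g' z).filter (fun v => chn c.r g' v ≠ ∅) := by
    rw [← hch]; exact filter_congr (fun v hv => not_congr (key v hv))
  rw [e1, e2]

/-- If only the spot `i` touches `z ∈ K`, there are at most `1 +` (number of `o` with
`c.P (sp i o) = z`) values of `sg z`: there are `L, N'` such that (with `k` this number and `e = 0`,
or `e = 1` if the centre has parent `z`) the value is `(L + k, N')` in state `none`, and
`(L + r, N' + e)` with some `r ≤ k - e` in the states `some _`. -/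
theorem IsState.sg_values {G : SimpleGraph V} {c : Core G} {ι : Type} {q : ℕ} (S : Spots G c ι q)
    (i : ι) (z : V) (hz : z ∈ c.K) (h : ∀ j o, c.P (S.sp j o) = z → j = i) :
    ∃ W : Finset (ℕ × ℕ),
      W.card ≤ 1 + (univ.filter fun o : Option (Fin 3 × Fin q) => c.P (S.sp i o) = z).card ∧
      ∀ s g, IsState S s g → sg c.r g z ∈ W := by
  classical
  set k := (univ.filter fun o : Option (Fin 3 × Fin q) => c.P (S.sp i o) = z).card with hk
  set A : Finset V := univ.filter fun v => v ≠ c.r ∧ c.P v = z ∧ ∀ o, v ≠ S.sp i o with hA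
  set L := (A.filter fun v => v ∉ c.I).card with hL
  set N := (A.filter fun v => ¬ v ∉ c.I).card + (if z = c.r then 0 else 1) with hN
  refine ⟨(range (1 + k)).image (fun r => (L + r, N + if c.P (S.sp i none) = z ∧ r < k then 1 else 0)),
    card_image_le.trans (by simp), ?_⟩
  intro s g hg
  have hrK : c.r ∈ c.K := c.I_sub c.r_mem
  have hspr : ∀ o, S.sp i o ≠ c.r := fun o ho => S.notK i o (ho ▸ hrK)
  have hinj : Function.Injective (S.sp i) := by
    intro o o' hoo
    have := S.inj (a₁ := (i, o)) (a₂ := (i, o')) hoo
    simpa using this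
  set O : Finset (Option (Fin 3 × Fin q)) := univ.filter fun o => g (S.sp i o) = z with hO
  -- children of z
  have hch : chn c.r g z = A ∪ O.image (S.sp i) := by
    ext v
    simp only [chn, mem_filter, mem_univ, true_and, hA, hO, mem_union, mem_image]
    constructor
    · rintro ⟨hv, hgv⟩
      by_cases hs : ∀ o, v ≠ S.sp i o
      · exact Or.inl ⟨hv, hg.aux_par z hz v hgv, hs⟩
      · push Not at hs
        obtain ⟨o, rfl⟩ := hs
        exact Or.inr ⟨o, hgv, rfl⟩
    · rintro (⟨hv, hp, hs⟩ | ⟨o, ho, rfl⟩)
      · refine ⟨hv, ?_⟩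
        rw [hg.1 v ?_, hp]
        intro j o hjo
        have hji : j = i := h j o (by rw [← hjo]; exact hp)
        subst hji
        exact hs o hjo
      · exact ⟨hspr o, ho⟩
  have hdisj : Disjoint A (O.image (S.sp i)) := by
    rw [disjoint_left]
    intro v hv hv'
    simp only [hA, mem_filter, mem_univ, true_and] at hv
    obtain ⟨o, -, rfl⟩ := mem_image.1 hv'
    exact hv.2.2 o rfl
  have hAc : ∀ v ∈ A, (chn c.r g v = ∅ ↔ v ∉ c.I) := by
    intro v hv
    simp only [hA, mem_filter, mem_univ, true_and] at hv
    obtain ⟨hv1, hp, hs⟩ := hv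
    have hns : ∀ j o, v ≠ S.sp j o := by
      intro j o hjo
      have hji : j = i := h j o (by rw [← hjo]; exact hp)
      subst hji
      exact hs o hjo
    rw [hg.childless]
    constructor
    · exact fun h => h.1
    · exact fun h => ⟨h, fun j hj => absurd hj (hns _ _), fun j l a b hj => absurd hj (hns _ _)⟩
  have e1 : ((chn c.r g z).filter fun v => chn c.r g v = ∅).card =
      L + (O.filter fun o => chn c.r g (S.sp i o) = ∅).card := by
    rw [hch, filter_union, card_union_of_disjoint (disjoint_filter_filter hdisj), hL,
      filter_congr hAc, filter_image, card_image_of_injective _ hinj]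
  have e2 : ((chn c.r g z).filter fun v => chn c.r g v ≠ ∅).card =
      (A.filter fun v => ¬ v ∉ c.I).card + (O.filter fun o => chn c.r g (S.sp i o) ≠ ∅).card := by
    rw [hch, filter_union, card_union_of_disjoint (disjoint_filter_filter hdisj),
      filter_congr (fun v hv => not_congr (hAc v hv)), filter_image, card_image_of_injective _ hinj]
  have hOsub : O ⊆ univ.filter fun o : Option (Fin 3 × Fin q) => c.P (S.sp i o) = z := by
    intro o ho
    simp only [hO, mem_filter, mem_univ, true_and] at ho ⊢
    exact hg.aux_par z hz _ ho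
  have hnotI : ∀ o, S.sp i o ∉ c.I := fun o ho => S.notK i o (c.I_sub ho)
  -- membership
  rw [mem_image]
  cases hsi : s i with
  | none =>
    have hOall : O = univ.filter fun o : Option (Fin 3 × Fin q) => c.P (S.sp i o) = z := by
      ext o
      simp only [hO, mem_filter, mem_univ, true_and]
      rw [hg.2.2.1 i hsi o]
    have hall : ∀ o, chn c.r g (S.sp i o) = ∅ := by
      intro o
      rw [hg.childless]
      refine ⟨hnotI o, fun j hj => ?_, fun j l a b hj hb => ?_⟩
      · have := S.inj (a₁ := (i, o)) (a₂ := (j, none)) hj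
        simp only [Prod.mk.injEq] at this
        rw [← this.1]; exact hsi
      · have := S.inj (a₁ := (i, o)) (a₂ := (j, some (0, l))) hj
        simp only [Prod.mk.injEq] at this
        rw [← this.1, hsi] at hb
        exact absurd hb (by simp)
    refine ⟨k, by simp, ?_⟩
    unfold sg
    rw [e1, e2]
    have f1 : O.filter (fun o => chn c.r g (S.sp i o) = ∅) = O := by
      apply filter_true_of_mem; intro o _; exact hall o
    have f2 : O.filter (fun o => chn c.r g (S.sp i o) ≠ ∅) = ∅ := by
      apply filter_false_of_mem; intro o _; simpa using hall o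
    rw [f1, f2, hOall, ← hk]
    simp [hN]
  | some ab =>
    obtain ⟨a, b⟩ := ab
    have hcl : ∀ o ∈ O, (chn c.r g (S.sp i o) ≠ ∅ ↔ o = none) := by
      intro o ho
      simp only [hO, mem_filter, mem_univ, true_and] at ho
      constructor
      · intro hne
        by_contra hno
        apply hne
        rw [hg.childless]
        refine ⟨hnotI o, fun j hj => ?_, fun j l a' b' hj hb => ?_⟩
        · have := S.inj (a₁ := (i, o)) (a₂ := (j, none)) hj
          simp only [Prod.mk.injEq] at this
          exact absurd this.2 hno
        · have := S.inj (a₁ := (i, o)) (a₂ := (j, some (0, l))) hj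
          simp only [Prod.mk.injEq] at this
          obtain ⟨hij, rfl⟩ := this
          subst hij
          rw [hsi] at hb
          simp only [Option.some.injEq, Prod.mk.injEq] at hb
          obtain ⟨rfl, rfl⟩ := hb
          by_contra hlb
          push Not at hlb
          have := (hg.2.2.2 i a b hsi).1 l
          rw [if_pos hlb] at this
          rw [this] at ho
          exact S.notK i none (ho ▸ hz)
      · rintro rfl he
        rw [hg.childless] at he
        have := he.2.1 i rfl
        rw [hsi] at this
        exact absurd this (by simp)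
    have hn : none ∈ O ↔ c.P (S.sp i none) = z := by
      simp only [hO, mem_filter, mem_univ, true_and]
      rw [hg.2.1 i]
    have f2 : (O.filter (fun o => chn c.r g (S.sp i o) ≠ ∅)).card =
        if c.P (S.sp i none) = z then 1 else 0 := by
      rw [filter_congr hcl]
      by_cases hp : c.P (S.sp i none) = z
      · rw [if_pos hp]
        have : O.filter (fun o => o = none) = {none} := by
          ext o
          simp only [mem_filter, mem_singleton]
          exact ⟨fun hh => hh.2, fun hh => ⟨hh ▸ hn.2 hp, hh⟩⟩
        rw [this, card_singleton]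
      · rw [if_neg hp, card_eq_zero, filter_eq_empty_iff]
        rintro o ho rfl
        exact hp (hn.1 ho)
    have f3 : (O.filter (fun o => chn c.r g (S.sp i o) = ∅)).card +
        (O.filter (fun o => chn c.r g (S.sp i o) ≠ ∅)).card = O.card := by
      exact card_filter_add_card_filter_not _
    have f4 : O.card ≤ k := card_le_card hOsub
    refine ⟨(O.filter (fun o => chn c.r g (S.sp i o) = ∅)).card, ?_, ?_⟩
    · rw [mem_range]; omega
    · unfold sg
      rw [e1, e2, f2]
      rw [f2] at f3
      by_cases hp : c.P (S.sp i none) = z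
      · rw [if_pos hp] at f3 ⊢
        rw [if_pos ⟨hp, by omega⟩]
        simp only [hN, Prod.mk.injEq, true_and]
        omega
      · rw [if_neg hp, if_neg (fun hh => hp hh.1)]
        simp only [hN, Prod.mk.injEq, true_and]
        omega

end H35ST
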