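import Pool.Agent.H35.ST.CaseRaD

/-! Module CASERBA: few polluted states. -/

namespace H35ST

open Finset

variable {V : Type*} [Fintype V] [DecidableEq V]

/-- Polluted states: a state `(a, b)` is polluted for the spot `i` if `sg z = (a + 1, b + 2)` for some
`z ∈ K \ H` which is the `P`-parent of a vertex of the spot `i`, in some family of states. By
`IsState.sg_values` and the disjointness of the parents at most `∑_z (1 + k_z) ≤ 2 (3 q + 1)` states are
polluted (`k_z ≥ 1`, `∑ k_z ≤ 3 q + 1`). -/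
theorem exists_pollution {G : SimpleGraph V} {c : Core G} {ι : Type} [Fintype ι] [DecidableEq ι]
    {q : ℕ} (S : Spots G c ι q) (H : Finset V)
    (hdisj : ∀ i i' o o', i ≠ i' → c.P (S.sp i o) = c.P (S.sp i' o') → c.P (S.sp i o) ∈ H) (i : ι) :
    ∃ Pol : Finset (Fin q × Fin q), Pol.card ≤ 6 * q + 2 ∧
      ∀ s g, IsState S s g → ∀ o, c.P (S.sp i o) ∉ H → ∀ a b : Fin q,
        sg c.r g (c.P (S.sp i o)) = (a.1 + 1, b.1 + 2) → (a, b) ∈ Pol := by
  classical
  have hW : ∀ z : V, ∃ W : Finset (ℕ × ℕ),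
      W.card ≤ 1 + (univ.filter fun o : Option (Fin 3 × Fin q) => c.P (S.sp i o) = z).card ∧
      ((∃ o, c.P (S.sp i o) = z) → z ∉ H → ∀ s g, IsState S s g → sg c.r g z ∈ W) := by
    intro z
    by_cases hz : (∃ o, c.P (S.sp i o) = z) ∧ z ∉ H
    · obtain ⟨⟨o, ho⟩, hzH⟩ := hz
      have hne : S.sp i o ≠ c.r := fun h => S.notK i o (h ▸ c.I_sub c.r_mem)
      have hzK : z ∈ c.K := by
        rw [← ho]
        exact c.I_sub (c.par_mem _ hne)
      have hj : ∀ j o', c.P (S.sp j o') = z → j = i := by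
        intro j o' h
        by_contra hji
        apply hzH
        rw [← ho]
        exact hdisj i j o o' (fun e => hji e.symm) (ho.trans h.symm)
      obtain ⟨W, hW1, hW2⟩ := IsState.sg_values S i z hzK hj
      exact ⟨W, hW1, fun _ _ => hW2⟩
    · refine ⟨∅, by simp, fun h1 h2 => absurd ⟨h1, h2⟩ hz⟩
  choose W hW1 hW2 using hW
  let Z : Finset V := univ.image fun o : Option (Fin 3 × Fin q) => c.P (S.sp i o)
  refine ⟨univ.filter fun p : Fin q × Fin q => (p.1.1 + 1, p.2.1 + 2) ∈ Z.biUnion W, ?_, ?_⟩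
  · have h1 : (univ.filter fun p : Fin q × Fin q =>
        (p.1.1 + 1, p.2.1 + 2) ∈ Z.biUnion W).card ≤ (Z.biUnion W).card := by
      apply Finset.card_le_card_of_injOn (fun p : Fin q × Fin q => (p.1.1 + 1, p.2.1 + 2))
      · intro p hp
        simpa using hp
      · intro p _ p' _ h
        simp only [Prod.mk.injEq, add_left_inj] at h
        exact Prod.ext (Fin.ext h.1) (Fin.ext h.2)
    have h2 : (Z.biUnion W).card ≤ ∑ z ∈ Z, (W z).card := Finset.card_biUnion_le
    have h3 : ∑ z ∈ Z, (W z).card ≤ ∑ z ∈ Z, 2 *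
        (univ.filter fun o : Option (Fin 3 × Fin q) => c.P (S.sp i o) = z).card := by
      apply Finset.sum_le_sum
      intro z hz
      have hz1 := hW1 z
      have hz2 : 0 < (univ.filter fun o : Option (Fin 3 × Fin q) => c.P (S.sp i o) = z).card := by
        rw [Finset.card_pos]
        obtain ⟨o, -, ho⟩ := Finset.mem_image.1 hz
        exact ⟨o, by simpa using ho⟩
      omega
    have h4 : (univ : Finset (Option (Fin 3 × Fin q))).card = ∑ z ∈ Z,
        (univ.filter fun o : Option (Fin 3 × Fin q) => c.P (S.sp i o) = z).card := by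
      apply Finset.card_eq_sum_card_fiberwise
      intro o _
      exact Finset.mem_coe.2 (Finset.mem_image_of_mem _ (Finset.mem_univ o))
    have h5 : (univ : Finset (Option (Fin 3 × Fin q))).card = 3 * q + 1 := by
      simp
    rw [← Finset.mul_sum, ← h4, h5] at h3
    omega
  · intro s g hs o ho a b hab
    rw [Finset.mem_filter]
    refine ⟨Finset.mem_univ _, Finset.mem_biUnion.2
      ⟨c.P (S.sp i o), Finset.mem_image_of_mem _ (Finset.mem_univ o), ?_⟩⟩
    have := hW2 _ ⟨o, rfl⟩ ho s g hs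
    rw [hab] at this
    exact this

end H35ST
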