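import Pool.Agent.H35.ST.Count

/-! Module COUNTB: abstract counting lemmas for Cases R and W. -/

namespace H35ST

open Finset

/-- The number of elements `x` with `F x = b` as a count in the multiset of values. -/
private theorem count_map_univ {V β : Type*} [Fintype V] [DecidableEq β] (F : V → β) (b : β) :
    ((univ : Finset V).val.map F).count b = (univ.filter fun x => F x = b).card := by
  rw [Multiset.count_map]
  simp only [eq_comm (a := b)]
  rfl

/-- Splitting the fibre over `b` into the parts inside and outside `H`. -/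
private theorem card_split {V β : Type*} [Fintype V] [DecidableEq V] [DecidableEq β]
    (H : Finset V) (F : V → β) (b : β) :
    (univ.filter fun x => F x = b).card =
      (univ.filter fun x => x ∉ H ∧ F x = b).card + (H.filter fun x => F x = b).card := by
  rw [← card_union_of_disjoint]
  · congr 1
    ext x
    simp only [mem_filter, mem_univ, true_and, mem_union]
    by_cases hx : x ∈ H <;> simp [hx]
  · rw [disjoint_left]
    intro x hx hx'
    simp only [mem_filter, mem_univ, true_and] at hx hx'
    exact hx.1 hx'.1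

private theorem near_of_eq {V β : Type*} [Fintype V] [DecidableEq V] [DecidableEq β] (H : Finset V)
    (k0 : ℕ) (hH : H.card ≤ k0) (F F' : V → β) (b : β) (K c c' : ℕ)
    (hF : (univ.filter fun x => x ∉ H ∧ F x = b).card = K + c)
    (hF' : (univ.filter fun x => x ∉ H ∧ F' x = b).card = K + c')
    (h : (univ : Finset V).val.map F' = (univ : Finset V).val.map F) :
    c' ≤ c + k0 ∧ c ≤ c' + k0 := by
  have h1 := congrArg (Multiset.count b) h
  rw [count_map_univ, count_map_univ, card_split H F' b, card_split H F b, hF, hF'] at h1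
  have h2 : (H.filter fun x => F x = b).card ≤ H.card := card_filter_le _ _
  have h3 : (H.filter fun x => F' x = b).card ≤ H.card := card_filter_le _ _
  omega

private theorem card_near (t k0 c : ℕ) :
    (univ.filter fun x : Fin (t + 1) => x.1 ≤ c + k0 ∧ c ≤ x.1 + k0).card ≤ 2 * k0 + 1 := by
  have h : (univ.filter fun x : Fin (t + 1) => x.1 ≤ c + k0 ∧ c ≤ x.1 + k0).card ≤
      (Finset.Icc (c - k0) (c + k0)).card := by
    apply card_le_card_of_injOn (fun x => x.1)
    · intro x hx
      simp only [coe_filter, mem_univ, true_and, Set.mem_ofPred_eq] at hx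
      simp only [coe_Icc, Set.mem_Icc]
      omega
    · intro x _ y _ hxy
      exact Fin.ext hxy
  rw [Nat.card_Icc] at h
  omega

private theorem card_box (m t k0 : ℕ) (c : Fin m → ℕ) :
    (univ.filter fun k' : Fin m → Fin (t + 1) =>
      ∀ j, (k' j).1 ≤ c j + k0 ∧ c j ≤ (k' j).1 + k0).card ≤ (2 * k0 + 1) ^ m := by
  have hsub : (univ.filter fun k' : Fin m → Fin (t + 1) =>
      ∀ j, (k' j).1 ≤ c j + k0 ∧ c j ≤ (k' j).1 + k0) ⊆
      Fintype.piFinset fun j => univ.filter fun x : Fin (t + 1) => x.1 ≤ c j + k0 ∧ c j ≤ x.1 + k0 := by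
    intro k' hk'
    rw [Fintype.mem_piFinset]
    intro j
    simp only [mem_filter, mem_univ, true_and] at hk' ⊢
    exact hk' j
  refine (card_le_card hsub).trans ?_
  rw [Fintype.card_piFinset]
  calc ∏ j : Fin m, (univ.filter fun x : Fin (t + 1) => x.1 ≤ c j + k0 ∧ c j ≤ x.1 + k0).card
      ≤ ∏ _j : Fin m, (2 * k0 + 1) := prod_le_prod' fun j _ => card_near t k0 (c j)
    _ = (2 * k0 + 1) ^ m := by simp

/-- If outside `H` the value `val j` is taken exactly `Kc j + k j` times by `D k`, then equality of
the multisets of `D k` and `D k'` gives `|k j - k' j| ≤ |H|`; count the `k'`. -/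
theorem count_classes {V β : Type*} [Fintype V] [DecidableEq V] [DecidableEq β] (H : Finset V)
    (k0 m t : ℕ) (hH : H.card ≤ k0) (D : (Fin m → Fin (t + 1)) → V → β) (val : Fin m → β)
    (Kc : Fin m → ℕ)
    (h : ∀ k j, (univ.filter fun x => x ∉ H ∧ D k x = val j).card = Kc j + (k j).1)
    (k : Fin m → Fin (t + 1)) :
    (univ.filter fun k' : Fin m → Fin (t + 1) =>
      (univ : Finset V).val.map (D k') = (univ : Finset V).val.map (D k)).card ≤
      (2 * k0 + 1) ^ m := by
  refine (card_le_card ?_).trans (card_box m t k0 fun j => (k j).1)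
  intro k' hk'
  simp only [mem_filter, mem_univ, true_and] at hk' ⊢
  intro j
  exact near_of_eq H k0 hH (D k) (D k') (val j) (Kc j) _ _ (h k j) (h k' j) hk'

/-- With additional parameters `a` that only influence `H`: for given `k'` the multiset of the values
on `H` is determined (subtract the part outside `H` from the multiset), so `D k' a' (hh j)` takes
one of at most `k0` values, and it determines `a' j`. -/
theorem count_classes_two {V : Type*} [Fintype V] [DecidableEq V] (H : Finset V)
    (k0 m σ t : ℕ) (hH : H.card ≤ k0)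
    (D : (Fin m → Fin (t + 1)) → (Fin σ → Fin (t + 1)) → V → ℕ) (val : Fin m → ℕ)
    (Kc : Fin m → ℕ) (hh : Fin σ → V) (hhH : ∀ j, hh j ∈ H)
    (h1 : ∀ k a a' x, x ∉ H → D k a x = D k a' x)
    (h2 : ∀ k a j, (univ.filter fun x => x ∉ H ∧ D k a x = val j).card = Kc j + (k j).1)
    (h3 : ∀ k a a' j, D k a (hh j) + (a' j).1 = D k a' (hh j) + (a j).1)
    (k : Fin m → Fin (t + 1)) (a : Fin σ → Fin (t + 1)) :
    (univ.filter fun p : (Fin m → Fin (t + 1)) × (Fin σ → Fin (t + 1)) =>
      (univ : Finset V).val.map (D p.1 p.2) = (univ : Finset V).val.map (D k a)).card ≤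
      (2 * k0 + 1) ^ (m + σ) := by
  set C := univ.filter fun p : (Fin m → Fin (t + 1)) × (Fin σ → Fin (t + 1)) =>
      (univ : Finset V).val.map (D p.1 p.2) = (univ : Finset V).val.map (D k a) with hC
  set B := univ.filter fun k' : Fin m → Fin (t + 1) =>
      ∀ j, (k' j).1 ≤ (k j).1 + k0 ∧ (k j).1 ≤ (k' j).1 + k0 with hB
  -- the fibre over a fixed `k'`
  have hfib : ∀ k' : Fin m → Fin (t + 1), (C.filter fun p => p.1 = k').card ≤ (2 * k0 + 1) ^ σ := by
    intro k'
    rcases (C.filter fun p => p.1 = k').eq_empty_or_nonempty with he | ⟨p0, hp0⟩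
    · rw [he]; simp
    obtain ⟨hp0C, hp0k⟩ := mem_filter.1 hp0
    simp only [hC, mem_filter, mem_univ, true_and] at hp0C
    rw [hp0k] at hp0C
    -- the multiset of values on `H`
    have hR : ∀ a' : Fin σ → Fin (t + 1),
        (univ : Finset V).val.map (D k' a') = (univ : Finset V).val.map (D k a) →
        H.val.map (D k' a') = H.val.map (D k' p0.2) := by
      intro a' ha'
      apply map_eq_of_const (D k' a') (D k' p0.2) H (fun x hx => h1 k' a' p0.2 x hx)
      rw [ha', hp0C]
    set R : Finset ℕ := H.image (D k' p0.2) with hRdef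
    have hRcard : R.card ≤ k0 := card_image_le.trans hH
    have hmemR : ∀ a' : Fin σ → Fin (t + 1),
        (univ : Finset V).val.map (D k' a') = (univ : Finset V).val.map (D k a) →
        ∀ j, D k' a' (hh j) ∈ R := by
      intro a' ha' j
      have hmem : D k' a' (hh j) ∈ H.val.map (D k' a') := Multiset.mem_map_of_mem _ (hhH j)
      rw [hR a' ha', Multiset.mem_map] at hmem
      obtain ⟨x, hx, hxe⟩ := hmem
      exact mem_image.2 ⟨x, hx, hxe⟩
    -- inject the fibre into functions `Fin σ → R`
    have hinj : (C.filter fun p => p.1 = k').card ≤ (Fintype.piFinset fun _ : Fin σ => R).card := by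
      apply card_le_card_of_injOn (fun p j => D k' p.2 (hh j))
      · intro p hp
        obtain ⟨hpC, hpk⟩ := mem_filter.1 (mem_coe.1 hp)
        simp only [hC, mem_filter, mem_univ, true_and] at hpC
        rw [hpk] at hpC
        simp only [mem_coe, Fintype.mem_piFinset]
        exact hmemR p.2 hpC
      · intro p hp q hq hpq
        obtain ⟨-, hpk⟩ := mem_filter.1 (mem_coe.1 hp)
        obtain ⟨-, hqk⟩ := mem_filter.1 (mem_coe.1 hq)
        refine Prod.ext (hpk.trans hqk.symm) ?_
        funext j
        have h4 := h3 k' p.2 q.2 j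
        have h5 : D k' p.2 (hh j) = D k' q.2 (hh j) := congrFun hpq j
        apply Fin.ext
        omega
    refine hinj.trans ?_
    rw [Fintype.card_piFinset]
    simp only [prod_const, card_univ, Fintype.card_fin]
    exact Nat.pow_le_pow_left (by omega) σ
  have hmaps : ∀ p ∈ C, p.1 ∈ B := by
    intro p hp
    simp only [hC, mem_filter, mem_univ, true_and] at hp
    simp only [hB, mem_filter, mem_univ, true_and]
    intro j
    exact near_of_eq H k0 hH (D k a) (D p.1 p.2) (val j) (Kc j) _ _ (h2 k a j) (h2 p.1 p.2 j) hp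
  calc C.card = ∑ k' ∈ B, (C.filter fun p => p.1 = k').card :=
        card_eq_sum_card_fiberwise hmaps
    _ ≤ ∑ _k' ∈ B, (2 * k0 + 1) ^ σ := sum_le_sum fun k' _ => hfib k'
    _ = B.card * (2 * k0 + 1) ^ σ := by rw [sum_const, smul_eq_mul]
    _ ≤ (2 * k0 + 1) ^ m * (2 * k0 + 1) ^ σ :=
        Nat.mul_le_mul_right _ (card_box m t k0 fun j => (k j).1)
    _ = (2 * k0 + 1) ^ (m + σ) := (pow_add _ _ _).symm

end H35ST
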