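import Pool.Agent.H35.ST.TreeB
import Pool.Agent.H35.ST.TreeD
import Pool.Agent.H35.ST.CaseRaC
import Pool.Agent.H35.ST.CaseRbA
import Pool.Agent.H35.ST.CountB

/-! Module CASERB: counting for Case R. -/

namespace H35ST

open Finset

variable {V : Type*} [Fintype V] [DecidableEq V]

/-- The states of Case R. -/
noncomputable def stR {ι : Type} {q d t : ℕ} (e : Fin d × Fin t → ι) (κ : Fin d → Fin q × Fin q)
    (a : Fin d → Fin (t + 1)) (i : ι) : Option (Fin q × Fin q) := by
  classical
  exact if h : ∃ p, e p = i ∧ (p.2 : ℕ) < (a p.1 : ℕ) then some (κ h.choose.1) else none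

theorem stR_some {ι : Type} {q d t : ℕ} {e : Fin d × Fin t → ι} (he : Function.Injective e)
    (κ : Fin d → Fin q × Fin q) (a : Fin d → Fin (t + 1)) (p : Fin d × Fin t)
    (hp : (p.2 : ℕ) < (a p.1 : ℕ)) : stR e κ a (e p) = some (κ p.1) := by
  classical
  have h : ∃ p', e p' = e p ∧ (p'.2 : ℕ) < (a p'.1 : ℕ) := ⟨p, rfl, hp⟩
  have hc : h.choose = p := he h.choose_spec.1
  unfold stR
  rw [dif_pos h, hc]

theorem stR_eq_some {ι : Type} {q d t : ℕ} {e : Fin d × Fin t → ι}
    (κ : Fin d → Fin q × Fin q) (a : Fin d → Fin (t + 1)) {i : ι} {x : Fin q × Fin q}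
    (h : stR e κ a i = some x) : ∃ p, e p = i ∧ (p.2 : ℕ) < (a p.1 : ℕ) ∧ κ p.1 = x := by
  classical
  unfold stR at h
  split_ifs at h with h'
  exact ⟨_, h'.choose_spec.1, h'.choose_spec.2, Option.some.inj h⟩

theorem stR_none {ι : Type} {q d t : ℕ} {e : Fin d × Fin t → ι}
    (κ : Fin d → Fin q × Fin q) (a : Fin d → Fin (t + 1)) {i : ι} (h : ∀ p, e p ≠ i) :
    stR e κ a i = none := by
  classical
  unfold stR
  rw [dif_neg]
  rintro ⟨p, hp, _⟩
  exact h p hp

/-- Pigeonhole on `Pol i` (at most `2 ^ (q ^ 2)` subsets of `Fin q × Fin q`): an injection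
`e : Fin d × Fin t → ι` with constant `Pol (e p)`; `κ : Fin d → Fin q × Fin q` injective with values
outside. For `a : Fin d → Fin (t + 1)` the state of `e (j, l)` is `some (κ j)` if `l < a j`, otherwise
`none`; all other spots are in state `none`. The number of `x` with `sg x = (κ j).1 + 1, (κ j).2 + 2` is
`a j` (centres) `+` const (vertices of `K \ H`: those touched by a spot `e p` never have this value,
the others have constant `sg` by `IsState.sg_in`) `+` (vertices of `H`: between `0` and `k0`).
Vertices outside `K` other than active centres do not count by `IsState.sg_out`.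
Use `count_classes` (from CountB, with `D k = sg` of the state parent function, `val j =
((κ j).1 + 1, (κ j).2 + 2)`) and `card_le_tauIso'`, `sg_multiset`, `Core.two_le_root`, `IsState.agree`. -/
theorem case_R {G : SimpleGraph V} {c : Core G} {ι : Type} [Fintype ι] [DecidableEq ι]
    {q : ℕ} (S : Spots G c ι q) (H : Finset V) (k0 d t : ℕ) (hHK : H ⊆ c.K) (hH : H.card ≤ k0)
    (hdisj : ∀ i i' o o', i ≠ i' → c.P (S.sp i o) = c.P (S.sp i' o') → c.P (S.sp i o) ∈ H)
    (hd : 1 ≤ d) (ht : 1 ≤ t) (hq : d + 6 * q + 2 ≤ q ^ 2)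
    (hι : 2 ^ (q ^ 2) * (d * t) ≤ Fintype.card ι) :
    (t + 1) ^ d ≤ (2 * k0 + 1) ^ d * tauIso G := by
  classical
  choose Pol hPolc hPol using fun i => exists_pollution S H hdisj i
  -- a common polluted set
  obtain ⟨Γ, -, hΓ⟩ := Finset.exists_le_card_fiber_of_mul_le_card_of_maps_to
    (s := (univ : Finset ι)) (t := (univ : Finset (Finset (Fin q × Fin q)))) (f := Pol)
    (n := d * t) (fun i _ => mem_univ _) univ_nonempty (by
      rw [card_univ, card_univ, Fintype.card_finset, Fintype.card_prod, Fintype.card_fin, ← sq]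
      exact hι)
  have hne : (univ.filter fun i => Pol i = Γ).Nonempty := by
    rw [← card_pos]
    exact lt_of_lt_of_le (Nat.mul_pos hd ht) hΓ
  obtain ⟨i₀, hi₀⟩ := hne
  have hΓc : Γ.card ≤ 6 * q + 2 := by
    have : Pol i₀ = Γ := by simpa using hi₀
    rw [← this]
    exact hPolc i₀
  obtain ⟨e'⟩ : Nonempty (Fin d × Fin t ↪ {i // Pol i = Γ}) := by
    rw [Function.Embedding.nonempty_iff_card_le, Fintype.card_prod, Fintype.card_fin,
      Fintype.card_fin, Fintype.card_subtype]
    exact hΓ
  obtain ⟨κ'⟩ : Nonempty (Fin d ↪ {x : Fin q × Fin q // x ∉ Γ}) := by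
    rw [Function.Embedding.nonempty_iff_card_le, Fintype.card_fin, Fintype.card_subtype_compl,
      Fintype.card_prod, Fintype.card_fin, Fintype.card_coe, ← sq]
    omega
  set e : Fin d × Fin t → ι := fun p => (e' p).1 with he
  set κ : Fin d → Fin q × Fin q := fun j => (κ' j).1 with hκ
  have hei : Function.Injective e := fun p p' h => e'.injective (Subtype.ext h)
  have hκi : Function.Injective κ := fun p p' h => κ'.injective (Subtype.ext h)
  have heP : ∀ p, Pol (e p) = Γ := fun p => (e' p).2
  have hκΓ : ∀ j, κ j ∉ Γ := fun j => (κ' j).2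
  choose g hg using fun a : Fin d → Fin (t + 1) => exists_isState S (stR e κ a)
  let val : Fin d → ℕ × ℕ := fun j => ((κ j).1.1 + 1, (κ j).2.1 + 2)
  let Kc : Fin d → ℕ := fun j =>
    (univ.filter fun x => (x ∈ c.K ∧ x ∉ H) ∧ sg c.r (g fun _ => 0) x = val j).card
  have hval : ∀ j (x : Fin q × Fin q), (x.1.1 + 1, x.2.1 + 2) = val j → x = κ j := by
    intro j x hx
    simp only [val, Prod.mk.injEq] at hx
    refine Prod.ext (Fin.ext ?_) (Fin.ext ?_)
    · omega
    · omega
  have hcount : ∀ a j, (univ.filter fun x => x ∉ H ∧ sg c.r (g a) x = val j).card =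
      Kc j + (a j).1 := by
    intro a j
    have e1 : (univ.filter fun x => x ∉ H ∧ sg c.r (g a) x = val j) =
        (univ.filter fun x => (x ∈ c.K ∧ x ∉ H) ∧ sg c.r (g fun _ => 0) x = val j) ∪
        ((univ : Finset (Fin t)).filter fun l : Fin t => (l : ℕ) < (a j : ℕ)).image
          (fun l => S.sp (e (j, l)) none) := by
      ext x
      rw [mem_union, mem_image]
      simp only [mem_filter, mem_univ, true_and]
      by_cases hxK : x ∈ c.K
      · have hx2 : ¬ ∃ l : Fin t, (l : ℕ) < (a j : ℕ) ∧ S.sp (e (j, l)) none = x := by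
          rintro ⟨l, _, hl⟩
          exact S.notK _ _ (hl ▸ hxK)
        rw [or_iff_left hx2]
        by_cases hxH : x ∈ H
        · simp [hxH]
        simp only [hxK, hxH, not_false_eq_true, true_and, and_self]
        by_cases htc : ∃ p o, c.P (S.sp (e p) o) = x
        · obtain ⟨p, o, hpo⟩ := htc
          have : ∀ a, sg c.r (g a) x ≠ val j := by
            intro a h
            have h3 := hPol (e p) (stR e κ a) (g a) (hg a) o (by rw [hpo]; exact hxH)
              (κ j).1 (κ j).2 (by rw [hpo]; exact h)
            rw [heP] at h3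
            exact hκΓ j h3
          exact iff_of_false (this _) (this _)
        · have : sg c.r (g a) x = sg c.r (g fun _ => 0) x := by
            refine (hg a).sg_in (hg _) x hxK ?_
            intro i o hio
            have : ∀ p, e p ≠ i := by
              rintro p rfl
              exact htc ⟨p, o, hio⟩
            rw [stR_none κ _ this, stR_none κ _ this]
          rw [this]
      · have hxH : x ∉ H := fun h => hxK (hHK h)
        simp only [hxK, hxH, not_false_eq_true, true_and, false_and, false_or]
        constructor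
        · intro h
          by_cases hcen : ∀ i, x = S.sp i none → stR e κ a i = none
          · have h2 := (hg a).sg_out x hxK hcen
            rw [h] at h2
            simp only [val] at h2
            omega
          · push Not at hcen
            obtain ⟨i, hxi, hi⟩ := hcen
            obtain ⟨y, hy⟩ := Option.ne_none_iff_exists'.1 hi
            have h3 := (hg a).sg_centre i y.1 y.2 hy
            rw [← hxi, h] at h3
            have h4 := hval j y h3.symm
            obtain ⟨p, hp1, hp2, hp3⟩ := stR_eq_some κ a hy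
            have h5 : p.1 = j := hκi (hp3.trans h4)
            obtain ⟨p1, p2⟩ := p
            simp only at h5
            subst h5
            exact ⟨p2, hp2, by rw [hp1, hxi]⟩
        · rintro ⟨l, hl, rfl⟩
          have h3 := (hg a).sg_centre (e (j, l)) (κ j).1 (κ j).2 (stR_some hei κ a (j, l) hl)
          exact h3
    rw [e1, card_union_of_disjoint, card_image_of_injective]
    · congr 1
      have := (a j).2
      rw [Fin.card_filter_val_lt]
      omega
    · intro l l' hl
      have h1 := S.inj (a₁ := (e (j, l), none)) (a₂ := (e (j, l'), none)) hl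
      have h2 := hei (Prod.ext_iff.1 h1).1
      exact (Prod.ext_iff.1 h2).2
    · rw [disjoint_left]
      intro x hx hx'
      simp only [mem_filter, mem_univ, true_and] at hx
      obtain ⟨l, _, rfl⟩ := mem_image.1 hx'
      exact S.notK _ _ hx.1.1
  have key := card_le_tauIso' (G := G) (r := c.r) (J := Fin d → Fin (t + 1)) g
    (fun a => (hg a).isPar) ((2 * k0 + 1) ^ d) ?_
  · simpa using key
  · intro a
    refine ⟨univ.filter fun a' : Fin d → Fin (t + 1) =>
      (univ : Finset V).val.map (sg c.r (g a')) = (univ : Finset V).val.map (sg c.r (g a)),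
      count_classes H k0 d t hH (fun a => sg c.r (g a)) val Kc hcount a, ?_⟩
    intro a' h
    simp only [mem_filter, mem_univ, true_and]
    exact (sg_multiset (hg a).isPar (hg a').isPar (c.two_le_root _ (hg a).agree)
      (c.two_le_root _ (hg a').agree) h).symm

end H35ST
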