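import Pool.Agent.H35.ST.Defs

/-! Module CASERCA: local selection at one rich vertex. -/

namespace H35ST

open Finset

/-- Local selection at one rich vertex. -/
theorem exists_spot {V : Type} [Fintype V] [DecidableEq V] (G : SimpleGraph V)
    [DecidableRel G.Adj] (U : Finset V) (q : ℕ) (v : V) (hv : v ∈ U) (h1 : 2 * q ≤ (nb G v U).card)
    (h2 : q ≤ ((nb G v U).filter fun y => 3 * q + 1 ≤ (nb G y U).card).card) :
    ∃ f : Option (Fin 3 × Fin q) → V, Function.Injective f ∧ f none = v ∧ (∀ o, f o ∈ U) ∧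
      (∀ l, G.Adj v (f (some (0, l)))) ∧ (∀ l, G.Adj v (f (some (1, l)))) ∧
      (∀ l, G.Adj (f (some (0, l))) (f (some (2, l)))) := by
  classical
  set Y := (nb G v U).filter fun y => 3 * q + 1 ≤ (nb G y U).card with hY
  obtain ⟨Y', hY'sub, hY'card⟩ := exists_subset_card_eq h2
  have hW : q ≤ (nb G v U \ Y').card := by
    have := le_card_sdiff Y' (nb G v U)
    omega
  obtain ⟨W', hW'sub, hW'card⟩ := exists_subset_card_eq hW
  -- enumerations
  let ey : Fin q ≃ Y' := (finCongr hY'card.symm).trans Y'.equivFin.symm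
  let ew : Fin q ≃ W' := (finCongr hW'card.symm).trans W'.equivFin.symm
  have hy_mem : ∀ l, (ey l : V) ∈ Y' := fun l => (ey l).2
  have hw_mem : ∀ l, (ew l : V) ∈ W' := fun l => (ew l).2
  have hy_nb : ∀ y ∈ Y', y ∈ U ∧ G.Adj v y ∧ 3 * q + 1 ≤ (nb G y U).card := by
    intro y hy
    have := hY'sub hy
    rw [hY, mem_filter, nb, mem_filter] at this
    exact ⟨this.1.1, this.1.2, this.2⟩
  have hw_nb : ∀ w ∈ W', w ∈ U ∧ G.Adj v w ∧ w ∉ Y' := by
    intro w hw
    have := hW'sub hw
    rw [mem_sdiff, nb, mem_filter] at this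
    exact ⟨this.1.1, this.1.2, this.2⟩
  -- greedy choice of the x's
  have hx : ∀ m : ℕ, m ≤ q → ∃ x : Fin m → V, Function.Injective x ∧
      (∀ l, x l ∈ U ∧ x l ≠ v ∧ x l ∉ Y' ∧ x l ∉ W') ∧
      ∀ (l : Fin m) (hl : l.1 < q), G.Adj (ey ⟨l.1, hl⟩ : V) (x l) := by
    intro m
    induction m with
    | zero => exact fun _ => ⟨Fin.elim0, fun a => a.elim0, fun a => a.elim0, fun a => a.elim0⟩
    | succ m ih =>
      intro hm
      obtain ⟨x, hx1, hx2, hx3⟩ := ih (by omega)
      set Fb := insert v (Y' ∪ W' ∪ univ.image x) with hFb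
      have hFbcard : Fb.card ≤ 3 * q := by
        have a1 : Fb.card ≤ _ := card_insert_le v (Y' ∪ W' ∪ univ.image x)
        have a2 := card_union_le (Y' ∪ W') (univ.image x)
        have a3 := card_union_le Y' W'
        have a4 : (univ.image x).card ≤ m := by
          refine card_image_le.trans ?_
          simp
        omega
      have hbig := (hy_nb _ (hy_mem ⟨m, hm⟩)).2.2
      have hex : ((nb G (ey ⟨m, hm⟩ : V) U) \ Fb).Nonempty := by
        rw [← card_pos]
        have := le_card_sdiff Fb (nb G (ey ⟨m, hm⟩ : V) U)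
        omega
      obtain ⟨z, hz⟩ := hex
      rw [mem_sdiff, nb, mem_filter] at hz
      obtain ⟨⟨hzU, hzadj⟩, hzF⟩ := hz
      rw [hFb, mem_insert, mem_union, mem_union, mem_image] at hzF
      push Not at hzF
      obtain ⟨hz1, ⟨hz2, hz3⟩, hz4⟩ := hzF
      refine ⟨Fin.snoc x z, ?_, ?_, ?_⟩
      · rw [Fin.snoc_injective_iff]
        refine ⟨hx1, ?_⟩
        rintro ⟨l, hl⟩
        exact hz4 l (mem_univ _) hl
      · intro l
        refine Fin.lastCases ?_ (fun l => ?_) l
        · rw [Fin.snoc_last]
          exact ⟨hzU, hz1, hz2, hz3⟩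
        · rw [Fin.snoc_castSucc]
          exact hx2 l
      · intro l
        refine Fin.lastCases ?_ (fun l => ?_) l
        · intro hl
          rw [Fin.snoc_last]
          exact hzadj
        · intro hl
          rw [Fin.snoc_castSucc]
          exact hx3 l hl
  obtain ⟨x, hx1, hx2, hx3⟩ := hx q le_rfl
  let f : Option (Fin 3 × Fin q) → V := fun o => match o with
    | none => v
    | some (j, l) => if j = 0 then (ey l : V) else if j = 1 then (ew l : V) else x l
  have f0 : ∀ l, f (some (0, l)) = (ey l : V) := fun l => by simp [f]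
  have f1 : ∀ l, f (some (1, l)) = (ew l : V) := fun l => by simp [f]
  have f2 : ∀ l, f (some (2, l)) = x l := fun l => by simp [f]
  have hvY : v ∉ Y' := fun h => G.loopless.irrefl v (hy_nb v h).2.1
  have hvW : v ∉ W' := fun h => G.loopless.irrefl v (hw_nb v h).2.1
  have eyinj : ∀ l l', (ey l : V) = ey l' → l = l' := fun l l' h => ey.injective (Subtype.ext h)
  have ewinj : ∀ l l', (ew l : V) = ew l' → l = l' := fun l l' h => ew.injective (Subtype.ext h)
  refine ⟨f, ?_, rfl, ?_, ?_, ?_, ?_⟩
  · intro o o' h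
    have n0 : ∀ j l, f (some (j, l)) ≠ v := by
      intro j l
      fin_cases j
      · show f (some (0, l)) ≠ v
        rw [f0]; exact fun h => hvY (h ▸ hy_mem l)
      · show f (some (1, l)) ≠ v
        rw [f1]; exact fun h => hvW (h ▸ hw_mem l)
      · show f (some (2, l)) ≠ v
        rw [f2]; exact (hx2 l).2.1
    rcases o with _ | ⟨j, l⟩ <;> rcases o' with _ | ⟨j', l'⟩
    · rfl
    · exact absurd h.symm (n0 j' l')
    · exact absurd h (n0 j l)
    · have n01 : ∀ l l', f (some (0, l)) ≠ f (some (1, l')) := by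
        intro l l' h
        rw [f0, f1] at h
        exact (hw_nb _ (hw_mem l')).2.2 (h ▸ hy_mem l)
      have n02 : ∀ l l', f (some (0, l)) ≠ f (some (2, l')) := by
        intro l l' h
        rw [f0, f2] at h
        exact (hx2 l').2.2.1 (h ▸ hy_mem l)
      have n12 : ∀ l l', f (some (1, l)) ≠ f (some (2, l')) := by
        intro l l' h
        rw [f1, f2] at h
        exact (hx2 l').2.2.2 (h ▸ hw_mem l)
      have c : j = j' ∧ l = l' := by
        fin_cases j <;> fin_cases j'
        · refine ⟨rfl, eyinj _ _ ?_⟩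
          have h' : f (some (0, l)) = f (some (0, l')) := h
          rwa [f0, f0] at h'
        · exact absurd h (n01 l l')
        · exact absurd h (n02 l l')
        · exact absurd h.symm (n01 l' l)
        · refine ⟨rfl, ewinj _ _ ?_⟩
          have h' : f (some (1, l)) = f (some (1, l')) := h
          rwa [f1, f1] at h'
        · exact absurd h (n12 l l')
        · exact absurd h.symm (n02 l' l)
        · exact absurd h.symm (n12 l' l)
        · refine ⟨rfl, hx1 ?_⟩
          have h' : f (some (2, l)) = f (some (2, l')) := h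
          rwa [f2, f2] at h'
      rw [c.1, c.2]
  · intro o
    rcases o with _ | ⟨j, l⟩
    · exact hv
    · fin_cases j
      · show f (some (0, l)) ∈ U
        rw [f0]; exact (hy_nb _ (hy_mem l)).1
      · show f (some (1, l)) ∈ U
        rw [f1]; exact (hw_nb _ (hw_mem l)).1
      · show f (some (2, l)) ∈ U
        rw [f2]; exact (hx2 l).1
  · intro l
    rw [f0]; exact (hy_nb _ (hy_mem l)).2.1
  · intro l
    rw [f1]; exact (hw_nb _ (hw_mem l)).2.1
  · intro l
    rw [f0, f2]
    exact hx3 l l.2

end H35ST
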