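import Pool.Agent.H35.ST.CaseRb
import Pool.Agent.H35.ST.CaseRcA
import Pool.Agent.H35.ST.Count

/-! Module CASERC: selection for Case R. -/

namespace H35ST

open Finset

/-- vertices at distance at most two in `U` -/
theorem card_ball_le {V : Type} [Fintype V] [DecidableEq V] (G : SimpleGraph V)
    [DecidableRel G.Adj] (U : Finset V) (D : ℕ) (x : V) (hx : (nb G x U).card ≤ D)
    (hU : ∀ y ∈ U, (nb G y U).card ≤ D) :
    (insert x (nb G x U ∪ (nb G x U).biUnion fun y => nb G y U)).card ≤ 1 + D + D * D := by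
  refine (card_insert_le _ _).trans ?_
  have h1 : (nb G x U ∪ (nb G x U).biUnion fun y => nb G y U).card ≤ D + D * D := by
    refine (card_union_le _ _).trans (Nat.add_le_add hx ?_)
    refine (card_biUnion_le_card_mul _ _ D ?_).trans (Nat.mul_le_mul_right _ hx)
    intro y hy
    exact hU y (mem_filter.1 hy).1
  omega

/-- Let `R` be the set of rich vertices (`exists_spot` with `U = Kᶜ`). Zones: the `3q + 1` vertices of
the spot and their `P`-parents outside `H`; at most `6 q + 2` elements; each `x ∉ H` is in at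
most `Δ ^ 3` zones (`x ∈ U`: the centre is at distance at most 2 in `U`, at most
`1 + (Δ - 1) + (Δ - 1) ^ 2 ≤ Δ ^ 2`; `x ∈ K \ H`: `x` is the parent of a spot vertex in `nb x U`).
`exists_disjoint_zones`, then `case_R`. -/
theorem case_R' (d k0 q : ℕ) (hd : 1 ≤ d) (hq : d + 6 * q + 2 ≤ q ^ 2) : ∃ C : ℕ, 0 < C ∧
    ∀ (V : Type) [Fintype V] [DecidableEq V] (G : SimpleGraph V) [DecidableRel G.Adj]
      (c : Core G) (H : Finset V) (Δ t : ℕ), H ⊆ c.K → H.card ≤ k0 → 1 ≤ Δ → 1 ≤ t →
      (∀ v, v ∉ H → (nb G v c.Kᶜ).card < Δ) →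
      Fintype.card V ≤ Δ * (c.Kᶜ.filter fun v => 2 * q ≤ (nb G v c.Kᶜ).card ∧
        q ≤ ((nb G v c.Kᶜ).filter fun y => 3 * q + 1 ≤ (nb G y c.Kᶜ).card).card).card →
      C * Δ ^ 4 * t ≤ Fintype.card V → t ^ d ≤ C * tauIso G := by
  classical
  refine ⟨(6 * q + 2) * ((2 * k0 + 1) ^ d * (2 ^ (q ^ 2) * d)), by positivity, ?_⟩
  intro V _ _ G _ c H Δ t hHK hH hΔ ht hnb hrich hn
  set U := c.Kᶜ with hU
  set R := U.filter fun v => 2 * q ≤ (nb G v U).card ∧
        q ≤ ((nb G v U).filter fun y => 3 * q + 1 ≤ (nb G y U).card).card with hR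
  have hUH : ∀ y ∈ U, y ∉ H := fun y hy hyH => (mem_compl.1 hy) (hHK hyH)
  have hnbU : ∀ y ∈ U, (nb G y U).card ≤ Δ - 1 := fun y hy => by
    have := hnb y (hUH y hy)
    omega
  -- the spots
  have hex : ∀ v ∈ R, ∃ f : Option (Fin 3 × Fin q) → V, Function.Injective f ∧ f none = v ∧
      (∀ o, f o ∈ U) ∧ (∀ l, G.Adj v (f (some (0, l)))) ∧ (∀ l, G.Adj v (f (some (1, l)))) ∧
      (∀ l, G.Adj (f (some (0, l))) (f (some (2, l)))) := by
    intro v hv
    rw [hR, mem_filter] at hv
    exact exists_spot G U q v hv.1 hv.2.1 hv.2.2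
  choose! f hf1 hf2 hf3 hf4 hf5 hf6 using hex
  set Z : V → Finset V := fun v => univ.image (f v) ∪ (univ.image (fun o => c.P (f v o)) \ H)
    with hZ
  have hcardO : Fintype.card (Option (Fin 3 × Fin q)) = 3 * q + 1 := by simp
  have hb : ∀ s ∈ R, (Z s).card ≤ 6 * q + 2 := by
    intro s _
    refine (card_union_le _ _).trans ?_
    have h1 : (univ.image (f s)).card ≤ 3 * q + 1 := by
      refine card_image_le.trans ?_
      rw [card_univ, hcardO]
    have h2 : (univ.image (fun o => c.P (f s o)) \ H).card ≤ 3 * q + 1 := by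
      refine (card_le_card sdiff_subset).trans (card_image_le.trans ?_)
      rw [card_univ, hcardO]
    omega
  -- balls
  set B : V → Finset V := fun x => insert x (nb G x U ∪ (nb G x U).biUnion fun y => nb G y U)
    with hB
  -- the centre is in the ball of any vertex of the spot
  have hmemB : ∀ v ∈ R, ∀ o, v ∈ B (f v o) := by
    intro v hv o
    have hvU : v ∈ U := (mem_filter.1 hv).1
    rw [hB]
    simp only [mem_insert, mem_union, mem_biUnion]
    rcases o with _ | ⟨i, l⟩
    · left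
      rw [hf2 v hv]
    · fin_cases i
      · right; left
        exact mem_filter.2 ⟨hvU, (hf4 v hv l).symm⟩
      · right; left
        exact mem_filter.2 ⟨hvU, (hf5 v hv l).symm⟩
      · right; right
        exact ⟨f v (some (0, l)), mem_filter.2 ⟨hf3 v hv _, (hf6 v hv l).symm⟩,
          mem_filter.2 ⟨hvU, (hf4 v hv l).symm⟩⟩
  have hBcard : ∀ x, x ∉ H → (B x).card ≤ 1 + (Δ - 1) + (Δ - 1) * (Δ - 1) := by
    intro x hx
    refine card_ball_le G U (Δ - 1) x ?_ hnbU
    have := hnb x hx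
    omega
  have ha : ∀ x, (R.filter fun s => x ∈ Z s).card ≤ Δ ^ 3 := by
    intro x
    by_cases hx : x ∈ H
    · have : (R.filter fun s => x ∈ Z s) = ∅ := by
        rw [filter_eq_empty_iff]
        intro s hs hxs
        rw [hZ, mem_union, mem_sdiff] at hxs
        rcases hxs with hxs | hxs
        · obtain ⟨o, _, ho⟩ := mem_image.1 hxs
          exact hUH _ (hf3 s hs o) (ho ▸ hx)
        · exact hxs.2 hx
      rw [this, card_empty]
      exact Nat.zero_le _
    · have hsub : (R.filter fun s => x ∈ Z s) ⊆ B x ∪ (nb G x U).biUnion B := by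
        intro s hs
        rw [mem_filter, hZ, mem_union, mem_sdiff] at hs
        obtain ⟨hsR, hs | hs⟩ := hs
        · obtain ⟨o, _, rfl⟩ := mem_image.1 hs
          exact mem_union_left _ (hmemB s hsR o)
        · obtain ⟨o, _, ho⟩ := mem_image.1 hs.1
          refine mem_union_right _ (mem_biUnion.2 ⟨f s o, ?_, hmemB s hsR o⟩)
          refine mem_filter.2 ⟨hf3 s hsR o, ?_⟩
          have hne : f s o ≠ c.r := fun h => by
            have := hf3 s hsR o
            rw [h] at this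
            exact (mem_compl.1 this) (c.I_sub c.r_mem)
          have := c.adj _ hne
          rw [ho] at this
          exact this.symm
      refine (card_le_card hsub).trans ((card_union_le _ _).trans ?_)
      have h1 := hBcard x hx
      have h2 : ((nb G x U).biUnion B).card ≤
          (Δ - 1) * (1 + (Δ - 1) + (Δ - 1) * (Δ - 1)) := by
        refine (card_biUnion_le_card_mul _ _ _ ?_).trans (Nat.mul_le_mul_right _ ?_)
        · intro y hy
          exact hBcard y (hUH y (mem_filter.1 hy).1)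
        · have := hnb x hx
          omega
      obtain ⟨D, rfl⟩ : ∃ D, Δ = D + 1 := ⟨Δ - 1, by omega⟩
      simp only [Nat.add_sub_cancel] at h1 h2
      nlinarith [h1, h2, Nat.zero_le D, Nat.zero_le (D * D)]
  obtain ⟨S', hS'R, hS'card, hdisjZ⟩ := exists_disjoint_zones R Z (Δ ^ 3) (6 * q + 2)
    (fun s _ => ⟨f s none, mem_union_left _ (mem_image_of_mem _ (mem_univ _))⟩) hb ha
  -- the spots structure
  have hin : ∀ (i : S') (o), f i.1 o ∈ Z i.1 := fun i o =>
    mem_union_left _ (mem_image_of_mem _ (mem_univ _))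
  have hinP : ∀ (i : S') (o), c.P (f i.1 o) ∉ H → c.P (f i.1 o) ∈ Z i.1 := fun i o h =>
    mem_union_right _ (mem_sdiff.2 ⟨mem_image.2 ⟨o, mem_univ _, rfl⟩, h⟩)
  have hsep : ∀ (i i' : S') (x : V), x ∈ Z i.1 → x ∈ Z i'.1 → i = i' := by
    intro i i' x h1 h2
    by_contra hne
    exact (Finset.disjoint_left.1 (hdisjZ i.1 i.2 i'.1 i'.2 fun h => hne (Subtype.ext h))) h1 h2
  let S : Spots G c S' q :=
    { sp := fun i o => f i.1 o
      inj := by
        rintro ⟨i, o⟩ ⟨i', o'⟩ h
        dsimp only at h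
        have hii : i = i' := hsep i i' (f i.1 o) (hin i o) (h ▸ hin i' o')
        subst hii
        rw [hf1 i.1 (hS'R i.2) h]
      notK := fun i o => mem_compl.1 (hf3 i.1 (hS'R i.2) o)
      adj_y := fun i l => by
        rw [hf2 i.1 (hS'R i.2)]
        exact hf4 i.1 (hS'R i.2) l
      adj_w := fun i l => by
        rw [hf2 i.1 (hS'R i.2)]
        exact hf5 i.1 (hS'R i.2) l
      adj_x := fun i l => hf6 i.1 (hS'R i.2) l }
  have hcard : Fintype.card S' = S'.card := Fintype.card_coe S'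
  have hΔ4 : 0 < Δ ^ 4 := by positivity
  have hmain : ((2 * k0 + 1) ^ d * (2 ^ (q ^ 2) * d)) * t ≤ S'.card := by
    have h1 : (6 * q + 2) * ((2 * k0 + 1) ^ d * (2 ^ (q ^ 2) * d)) * Δ ^ 4 * t ≤
        Δ * (Δ ^ 3 * (6 * q + 2) * S'.card) :=
      hn.trans (hrich.trans (Nat.mul_le_mul_left _ hS'card))
    have h2 : (Δ ^ 4 * (6 * q + 2)) * (((2 * k0 + 1) ^ d * (2 ^ (q ^ 2) * d)) * t) ≤
        (Δ ^ 4 * (6 * q + 2)) * S'.card := by
      calc _ = (6 * q + 2) * ((2 * k0 + 1) ^ d * (2 ^ (q ^ 2) * d)) * Δ ^ 4 * t := by ring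
        _ ≤ _ := h1
        _ = _ := by ring
    exact Nat.le_of_mul_le_mul_left h2 (by positivity)
  have hι : 2 ^ (q ^ 2) * (d * t) ≤ Fintype.card S' := by
    rw [hcard]
    refine le_trans ?_ hmain
    calc 2 ^ (q ^ 2) * (d * t) = 1 * (2 ^ (q ^ 2) * d) * t := by ring
      _ ≤ (2 * k0 + 1) ^ d * (2 ^ (q ^ 2) * d) * t := by
          refine Nat.mul_le_mul_right _ (Nat.mul_le_mul_right _ ?_)
          exact Nat.one_le_pow _ _ (by omega)
  have := case_R S H k0 d t hHK hH (fun i i' o o' hne h => by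
    by_contra hcon
    refine hne (hsep i i' (c.P (f i.1 o)) (hinP i o hcon) ?_)
    have h' : c.P (f i.1 o) = c.P (f i'.1 o') := h
    rw [h']
    exact hinP i' o' (h' ▸ hcon)) hd ht hq hι
  calc t ^ d ≤ (t + 1) ^ d := Nat.pow_le_pow_left (by omega) _
    _ ≤ (2 * k0 + 1) ^ d * tauIso G := this
    _ = 1 * (2 * k0 + 1) ^ d * 1 * tauIso G := by ring
    _ ≤ (6 * q + 2) * (2 * k0 + 1) ^ d * (2 ^ (q ^ 2) * d) * tauIso G := by
        refine Nat.mul_le_mul_right _ (Nat.mul_le_mul (Nat.mul_le_mul_right _ (by omega)) ?_)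
        exact Nat.succ_le_of_lt (by positivity)
    _ = _ := by ring

end H35ST
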