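import Pool.Agent.H35.ST.Defs

/-! Module CASEWA: the spot lemma (pure combinatorics). -/

namespace H35ST

open Finset

/-- `T` (toggles) has `2 κ` elements, `alt : T → X`, `g x` = degree of `x` with all toggles off (at least
the number of toggles at `x`), `b` = degree of the centre with all toggles off.
Take `A ⊆ T` of maximal cardinality such that for all `u ∈ A` with `¬ hub (alt u)`:
`b + κ + #{u' ∈ A | alt u' = alt u} ≤ g (alt u)`.
If `κ ≤ A.card` let `ON i` be `i` elements of `A` (increasing), `c = b`. Otherwise extend `A` to `J ⊆ T` with
`J.card = κ`; by maximality `g (alt u) ≤ b + κ + #{u' ∈ A | alt u' = alt u}` for `u ∈ T \ J` with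
`¬ hub (alt u)`; `ON i = J ∪ (i + 1 elements of T \ J)`, `c = b + κ + 1`. -/
theorem spot_chain {α X : Type*} [DecidableEq α] [DecidableEq X] (T : Finset α) (alt : α → X)
    (g : X → ℕ) (b κ : ℕ) (hT : T.card = 2 * κ) (hub : X → Prop)
    (hg : ∀ x, (T.filter fun u => alt u = x).card ≤ g x) :
    ∃ (c : ℕ) (ON : ℕ → Finset α), (c = b ∨ c = b + κ + 1) ∧
      (∀ i, i < κ → ON i ⊆ T ∧ b + (ON i).card = c + i) ∧
      ∀ x, ¬ hub x →
        (∀ i, i < κ → ((ON i).filter fun u => alt u = x).card =
            ((ON 0).filter fun u => alt u = x).card) ∨
        (∀ i, i < κ → g x - ((ON i).filter fun u => alt u = x).card < c ∨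
            c + κ ≤ g x - ((ON i).filter fun u => alt u = x).card) := by
  classical
  let P : Finset α → Prop := fun A => ∀ u ∈ A, ¬ hub (alt u) →
    b + κ + (A.filter fun u' => alt u' = alt u).card ≤ g (alt u)
  obtain ⟨A, hA, hmax⟩ := exists_max_image (T.powerset.filter P) Finset.card
    ⟨∅, by simp [P]⟩
  rw [mem_filter, mem_powerset] at hA
  obtain ⟨hAT, hPA⟩ := hA
  by_cases hκ : κ ≤ A.card
  · have hex : ∀ i, ∃ S, S ⊆ A ∧ (i < κ → S.card = i) := by
      intro i
      by_cases hi : i < κ
      · obtain ⟨S, hS, hS2⟩ := exists_subset_card_eq (show i ≤ A.card by omega)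
        exact ⟨S, hS, fun _ => hS2⟩
      · exact ⟨∅, empty_subset _, fun h => absurd h hi⟩
    choose ON hON1 hON2 using hex
    refine ⟨b, ON, Or.inl rfl, fun i hi => ⟨(hON1 i).trans hAT, by rw [hON2 i hi]⟩, ?_⟩
    intro x hx
    by_cases hxA : ∃ u ∈ A, alt u = x
    · right
      intro i hi
      right
      obtain ⟨u, hu, rfl⟩ := hxA
      have h1 := hPA u hu hx
      have h2 : ((ON i).filter fun u' => alt u' = alt u).card ≤
          (A.filter fun u' => alt u' = alt u).card :=
        card_le_card (filter_subset_filter _ (hON1 i))
      omega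
    · left
      push Not at hxA
      have h0 : ∀ i, ((ON i).filter fun u => alt u = x) = ∅ := by
        intro i
        rw [filter_eq_empty_iff]
        exact fun u hu => hxA u (hON1 i hu)
      intro i _
      rw [h0 i, h0 0]
  · push Not at hκ
    obtain ⟨J, hAJ, hJT, hJ⟩ := exists_subsuperset_card_eq hAT hκ.le (by omega : κ ≤ T.card)
    have hTJ : (T \ J).card = κ := by
      rw [card_sdiff_of_subset hJT]
      omega
    have hex : ∀ i, ∃ S, S ⊆ T \ J ∧ (i < κ → S.card = i + 1) := by
      intro i
      by_cases hi : i < κ
      · obtain ⟨S, hS, hS2⟩ := exists_subset_card_eq (show i + 1 ≤ (T \ J).card by omega)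
        exact ⟨S, hS, fun _ => hS2⟩
      · exact ⟨∅, empty_subset _, fun h => absurd h hi⟩
    choose S hS1 hS2 using hex
    refine ⟨b + κ + 1, fun i => J ∪ S i, Or.inr rfl, fun i hi => ⟨?_, ?_⟩, ?_⟩
    · exact union_subset hJT ((hS1 i).trans sdiff_subset)
    · rw [card_union_of_disjoint, hS2 i hi, hJ]
      · omega
      · exact disjoint_left.2 fun a ha ha' => (mem_sdiff.1 (hS1 i ha')).2 ha
    · intro x hx
      by_cases hxJ : ∃ u ∈ T \ J, alt u = x
      · right
        intro i hi
        left
        obtain ⟨u, hu, rfl⟩ := hxJ
        rw [mem_sdiff] at hu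
        have huA : u ∉ A := fun h => hu.2 (hAJ h)
        have hnot : ¬ P (insert u A) := by
          intro hP
          have h1 := hmax (insert u A) (by
            rw [mem_filter, mem_powerset]
            exact ⟨insert_subset hu.1 hAT, hP⟩)
          rw [card_insert_of_notMem huA] at h1
          omega
        have hle : g (alt u) ≤ b + κ + (A.filter fun u' => alt u' = alt u).card := by
          by_contra hcon
          push Not at hcon
          apply hnot
          intro u' hu' hhub
          by_cases heq : alt u' = alt u
          · rw [heq, filter_insert, if_pos rfl, card_insert_of_notMem]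
            · omega
            · simp [huA]
          · have hu'A : u' ∈ A := by
              rcases mem_insert.1 hu' with h | h
              · exact absurd (by rw [h]) heq
              · exact h
            rw [filter_insert, if_neg (fun h => heq h.symm)]
            exact hPA u' hu'A hhub
        have h2 : (A.filter fun u' => alt u' = alt u).card ≤
            ((J ∪ S i).filter fun u' => alt u' = alt u).card :=
          card_le_card (filter_subset_filter _ (hAJ.trans subset_union_left))
        show g (alt u) - ((J ∪ S i).filter fun u' => alt u' = alt u).card < b + κ + 1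
        omega
      · left
        push Not at hxJ
        have h0 : ∀ i, ((J ∪ S i).filter fun u => alt u = x) = J.filter fun u => alt u = x := by
          intro i
          rw [filter_union]
          have : (S i).filter (fun u => alt u = x) = ∅ := by
            rw [filter_eq_empty_iff]
            exact fun u hu => hxJ u (hS1 i hu)
          rw [this, union_empty]
        intro i _
        simp only [h0]

end H35ST
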