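import Pool.Agent.H35.ST.CaseWb0
import Pool.Agent.H35.ST.CaseWa
import Pool.Agent.H35.ST.Count
import Pool.Agent.H35.ST.TreeE

/-! Module CASEWB1: choice of the spots with equal parameters. -/

namespace H35ST

open Finset

variable {V : Type*} [Fintype V] [DecidableEq V]

/-- The sum of all `dg` is at most `2 * card V`. -/
theorem sum_dg_le (r : V) (f : V → V) : ∑ x, dg r f x ≤ 2 * Fintype.card V := by
  unfold dg
  rw [sum_add_distrib]
  have h1 : ∑ x, (chn r f x).card ≤ Fintype.card V := by
    have h := card_eq_sum_card_fiberwise (s := (univ : Finset V).filter fun v => v ≠ r)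
      (t := univ) (f := f) (fun _ _ => by simp)
    have h' : ∑ x, (chn r f x).card = ((univ : Finset V).filter fun v => v ≠ r).card := by
      rw [h]
      refine sum_congr rfl fun x _ => ?_
      rw [filter_filter]
      rfl
    rw [h']
    exact card_le_univ _
  have h2 : ∑ x : V, (if x = r then 0 else 1) ≤ Fintype.card V := by
    calc ∑ x : V, (if x = r then 0 else 1) ≤ ∑ x : V, 1 := by
          refine sum_le_sum fun x _ => ?_
          split_ifs <;> simp
      _ = Fintype.card V := by simp
  omega

/-- `b i = W.g (W.w i)`. By `sum_dg_le`, at most half of the `i` have `B ≤ b i`; so there is a value `b`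
with at least `card ι / (2 B)` spots with `b i = b`. For each of these apply `spot_chain` to
`T = univ`, `alt l = W.off (W.u i l)`, `hub x := x ∈ H` (hypothesis `hg`: toggles that are off at `x` are
children of `x` in `tog … ∅`); at least `card ι / (4 B) ≥ κ t` of them have the same `c`. -/
theorem WD.exists_chain {G : SimpleGraph V} {c : Core G} {H : Finset V} {ι : Type} [Fintype ι]
    [DecidableEq ι] {κ σ t : ℕ} (W : WD G c H ι κ σ t) (B : ℕ) (hκ : 1 ≤ κ) (ht : 1 ≤ t)
    (hB : 4 * Fintype.card V ≤ B * Fintype.card ι)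
    (hBt : 4 * B * (κ * t) ≤ Fintype.card ι) : Nonempty W.Chain := by
  classical
  have hV : 0 < Fintype.card V := Fintype.card_pos_iff.2 ⟨c.r⟩
  have hB0 : 0 < B := by
    rcases Nat.eq_zero_or_pos B with h | h
    · subst h; omega
    · exact h
  -- the sum over the centres
  have hsum : ∑ i, W.g (W.w i) ≤ 2 * Fintype.card V := by
    calc ∑ i, W.g (W.w i) = ∑ x ∈ univ.image W.w, W.g x := by
          rw [sum_image (fun a _ b _ h => W.w_inj h)]
      _ ≤ ∑ x, W.g x := sum_le_sum_of_subset (subset_univ _)
      _ ≤ _ := sum_dg_le _ _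
  set S : Finset ι := univ.filter fun i => W.g (W.w i) < B with hS
  have hcomp : B * (univ.filter fun i => ¬ W.g (W.w i) < B).card ≤ 2 * Fintype.card V := by
    calc B * (univ.filter fun i => ¬ W.g (W.w i) < B).card
        = ∑ i ∈ univ.filter fun i => ¬ W.g (W.w i) < B, B := by simp [mul_comm]
      _ ≤ ∑ i ∈ univ.filter fun i => ¬ W.g (W.w i) < B, W.g (W.w i) := by
          refine sum_le_sum fun i hi => ?_
          simp only [mem_filter, mem_univ, true_and, not_lt] at hi
          exact hi
      _ ≤ ∑ i, W.g (W.w i) := sum_le_sum_of_subset (subset_univ _)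
      _ ≤ _ := hsum
  have hcard : S.card + (univ.filter fun i => ¬ W.g (W.w i) < B).card = Fintype.card ι := by
    rw [hS, card_filter_add_card_filter_not, card_univ]
  have hS2 : Fintype.card ι ≤ 2 * S.card := by
    set m := (univ.filter fun i => ¬ W.g (W.w i) < B).card
    have h1 : B * (2 * m) ≤ B * Fintype.card ι := by
      calc B * (2 * m) = 2 * (B * m) := by ring
        _ ≤ 2 * (2 * Fintype.card V) := by omega
        _ = 4 * Fintype.card V := by ring
        _ ≤ _ := hB
    have h2 : 2 * m ≤ Fintype.card ι := Nat.le_of_mul_le_mul_left h1 hB0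
    omega
  obtain ⟨b, -, hb⟩ := exists_large_fiber S (range B) (fun i => W.g (W.w i))
    (nonempty_range_iff.2 hB0.ne') (fun i hi => by
      simp only [hS, mem_filter, mem_univ, true_and] at hi
      exact mem_range.2 hi)
  rw [card_range] at hb
  set Sb := S.filter fun i => W.g (W.w i) = b with hSb
  -- the chains
  have hchain : ∀ i : ι, ∃ (cc : ℕ) (ON : ℕ → Finset (Fin (2 * κ))),
      (cc = W.g (W.w i) ∨ cc = W.g (W.w i) + κ + 1) ∧
      (∀ j, j < κ → ON j ⊆ univ ∧ W.g (W.w i) + (ON j).card = cc + j) ∧
      ∀ x, ¬ x ∈ H →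
        (∀ j, j < κ → ((ON j).filter fun l => W.off (W.u i l) = x).card =
            ((ON 0).filter fun l => W.off (W.u i l) = x).card) ∨
        (∀ j, j < κ → W.g x - ((ON j).filter fun l => W.off (W.u i l) = x).card < cc ∨
            cc + κ ≤ W.g x - ((ON j).filter fun l => W.off (W.u i l) = x).card) := by
    intro i
    refine spot_chain (univ : Finset (Fin (2 * κ))) (fun l => W.off (W.u i l)) W.g
      (W.g (W.w i)) κ (by simp) (fun x => x ∈ H) ?_
    intro x
    have hinj : Function.Injective (W.u i) := by
      intro l l' hll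
      have := W.u_inj (a₁ := (i, l)) (a₂ := (i, l')) hll
      simpa using this
    have hle : (univ.filter fun l => W.off (W.u i l) = x).card ≤
        (chn c.r (tog c.P W.on W.off W.X ∅) x).card := by
      rw [← card_image_of_injective _ hinj]
      refine card_le_card ?_
      intro v hv
      obtain ⟨l, hl, rfl⟩ := mem_image.1 hv
      simp only [mem_filter, mem_univ, true_and] at hl
      simp only [chn, mem_filter, mem_univ, true_and]
      refine ⟨fun h => W.uK i l (h ▸ c.I_sub c.r_mem), ?_⟩
      unfold tog
      rw [if_pos, if_neg (notMem_empty _), hl]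
      exact mem_union_left _ (mem_image.2 ⟨(i, l), mem_univ _, rfl⟩)
    exact hle.trans (Nat.le_add_right _ _)
  choose cc ON hcc hON hclean using hchain
  obtain ⟨c', -, hc'⟩ := exists_large_fiber Sb {b, b + κ + 1} cc (insert_nonempty _ _)
    (fun i hi => by
      simp only [hSb, mem_filter] at hi
      have := hcc i
      rw [hi.2] at this
      simpa using this)
  have h2 : ({b, b + κ + 1} : Finset ℕ).card ≤ 2 := card_le_two
  set Sc := Sb.filter fun i => cc i = c' with hSc
  have hbig : κ * t ≤ Sc.card := by
    have h3 : Sb.card ≤ 2 * Sc.card := hc'.trans (Nat.mul_le_mul_right _ h2)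
    have h4 : 4 * B * (κ * t) ≤ 4 * B * Sc.card := by
      calc 4 * B * (κ * t) ≤ Fintype.card ι := hBt
        _ ≤ 2 * S.card := hS2
        _ ≤ 2 * (B * Sb.card) := Nat.mul_le_mul_left _ hb
        _ ≤ 2 * (B * (2 * Sc.card)) := Nat.mul_le_mul_left _ (Nat.mul_le_mul_left _ h3)
        _ = 4 * B * Sc.card := by ring
    exact Nat.le_of_mul_le_mul_left h4 (by positivity)
  have hle : Fintype.card (Fin (κ - 1) × Fin t) ≤ Fintype.card Sc := by
    rw [Fintype.card_prod, Fintype.card_fin, Fintype.card_fin, Fintype.card_coe]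
    exact (Nat.mul_le_mul_right _ (Nat.sub_le _ _)).trans hbig
  obtain ⟨e⟩ := Function.Embedding.nonempty_of_card_le hle
  refine ⟨⟨c', fun p => (e p).1, ON, fun p p' h => e.injective (Subtype.ext h), ?_, ?_⟩⟩
  · intro p j hj
    have hp : cc (e p).1 = c' := (mem_filter.1 (e p).2).2
    rw [(hON (e p).1 j hj).2, hp]
  · intro p x hx
    have hp := (mem_filter.1 (e p).2).2
    have := hclean (e p).1 x hx
    rw [hp] at this
    exact this

end H35ST
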