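import Pool.Agent.H35.ST.CaseWb0
import Pool.Agent.H35.ST.TreeC
import Pool.Agent.H35.ST.TreeE

/-! Module CASEWB2: degrees in the trees of Case W. -/

set_option linter.unusedSectionVars false

namespace H35ST

open Finset

variable {V : Type*} [Fintype V] [DecidableEq V]

variable {G : SimpleGraph V} {c : Core G} {H : Finset V} {ι : Type} [Fintype ι]
    {κ σ t : ℕ} {W : WD G c H ι κ σ t} (Ch : W.Chain)

private theorem WD.mem_X {x : V} :
    x ∈ W.X ↔ (∃ i l, W.u i l = x) ∨ ∃ p, W.y p = x := by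
  unfold WD.X
  rw [mem_union, mem_image, mem_image]
  constructor
  · rintro (⟨p, -, hp⟩ | ⟨p, -, hp⟩)
    · exact Or.inl ⟨p.1, p.2, hp⟩
    · exact Or.inr ⟨p, hp⟩
  · rintro (⟨i, l, hp⟩ | ⟨p, hp⟩)
    · exact Or.inl ⟨(i, l), mem_univ _, hp⟩
    · exact Or.inr ⟨p, mem_univ _, hp⟩

private theorem WD.X_disj : Disjoint W.X c.K := by
  rw [disjoint_left]
  intro x hx
  rcases WD.mem_X.1 hx with ⟨i, l, rfl⟩ | ⟨p, rfl⟩
  · exact W.uK i l
  · exact W.yK p

private theorem WD.r_notMem_X : c.r ∉ W.X := by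
  intro h
  exact (disjoint_left.1 WD.X_disj h) (c.I_sub c.r_mem)

private theorem WD.hs_mem (p : Fin σ × Fin t) : W.hs ∈ H :=
  W.hsH (lt_of_le_of_lt (Nat.zero_le _) p.1.2)

private theorem card_fin_lt {t : ℕ} (m : ℕ) (hm : m ≤ t) :
    ((univ : Finset (Fin t)).filter fun l => l.1 < m).card = m := by
  have h : ((univ : Finset (Fin t)).filter fun l => l.1 < m).map Fin.valEmbedding = range m := by
    ext x
    rw [mem_map, mem_range]
    constructor
    · rintro ⟨l, hl, rfl⟩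
      exact (mem_filter.1 hl).2
    · intro hx
      exact ⟨⟨x, lt_of_lt_of_le hx hm⟩, mem_filter.2 ⟨mem_univ _, hx⟩, rfl⟩
  rw [← card_map Fin.valEmbedding, h, card_range]

/-- The state of the spot `e p`. -/
private def stt {κ t : ℕ} (k : Fin (κ - 1) → Fin (t + 1)) (p : Fin (κ - 1) × Fin t) : ℕ :=
  if p.2.1 < (k p.1).1 then p.1.1 + 1 else 0

private theorem stt_lt {κ t : ℕ} (k : Fin (κ - 1) → Fin (t + 1)) (p : Fin (κ - 1) × Fin t) :
    stt k p < κ := by
  have h := p.1.2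
  unfold stt
  split_ifs <;> omega

private theorem WD.Chain.mem_J {k : Fin (κ - 1) → Fin (t + 1)} {a : Fin σ → Fin (t + 1)} {x : V} :
    x ∈ Ch.J k a ↔ (∃ p, ∃ l ∈ Ch.ON (Ch.e p) (stt k p), W.u (Ch.e p) l = x) ∨
      ∃ p : Fin σ × Fin t, p.2.1 < (a p.1).1 ∧ W.y p = x := by
  unfold WD.Chain.J
  rw [mem_union, mem_biUnion, mem_image]
  constructor
  · rintro (⟨p, -, hp⟩ | ⟨p, hp, hx⟩)
    · obtain ⟨l, hl, hx⟩ := mem_image.1 hp
      exact Or.inl ⟨p, l, hl, hx⟩
    · exact Or.inr ⟨p, (mem_filter.1 hp).2, hx⟩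
  · rintro (⟨p, l, hl, hx⟩ | ⟨p, hp, hx⟩)
    · exact Or.inl ⟨p, mem_univ _, mem_image.2 ⟨l, hl, hx⟩⟩
    · exact Or.inr ⟨p, mem_filter.2 ⟨mem_univ _, hp⟩, hx⟩

theorem WD.Chain.J_subset (k : Fin (κ - 1) → Fin (t + 1)) (a : Fin σ → Fin (t + 1)) :
    Ch.J k a ⊆ W.X := by
  intro x hx
  rcases Ch.mem_J.1 hx with ⟨p, l, -, rfl⟩ | ⟨p, -, rfl⟩
  · exact WD.mem_X.2 (Or.inl ⟨_, _, rfl⟩)
  · exact WD.mem_X.2 (Or.inr ⟨_, rfl⟩)

private theorem WD.Chain.card_J_filter (k : Fin (κ - 1) → Fin (t + 1)) (a : Fin σ → Fin (t + 1))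
    (Q : V → Prop) [DecidablePred Q] :
    ((Ch.J k a).filter Q).card =
      ∑ p, ((Ch.ON (Ch.e p) (stt k p)).filter fun l => Q (W.u (Ch.e p) l)).card +
        (univ.filter fun p : Fin σ × Fin t => p.2.1 < (a p.1).1 ∧ Q (W.y p)).card := by
  have e1 : (Ch.J k a).filter Q =
      ((univ : Finset (Fin (κ - 1) × Fin t)).biUnion fun p =>
        ((Ch.ON (Ch.e p) (stt k p)).filter fun l => Q (W.u (Ch.e p) l)).image (W.u (Ch.e p))) ∪
      (univ.filter fun p : Fin σ × Fin t => p.2.1 < (a p.1).1 ∧ Q (W.y p)).image W.y := by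
    ext x
    rw [mem_filter, Ch.mem_J, mem_union, mem_biUnion, mem_image]
    constructor
    · rintro ⟨⟨p, l, hl, rfl⟩ | ⟨p, hp, rfl⟩, hQ⟩
      · exact Or.inl ⟨p, mem_univ _, mem_image.2 ⟨l, mem_filter.2 ⟨hl, hQ⟩, rfl⟩⟩
      · exact Or.inr ⟨p, mem_filter.2 ⟨mem_univ _, hp, hQ⟩, rfl⟩
    · rintro (⟨p, -, hp⟩ | ⟨p, hp, rfl⟩)
      · obtain ⟨l, hl, rfl⟩ := mem_image.1 hp
        rw [mem_filter] at hl
        exact ⟨Or.inl ⟨p, l, hl.1, rfl⟩, hl.2⟩
      · rw [mem_filter] at hp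
        exact ⟨Or.inr ⟨p, hp.2.1, rfl⟩, hp.2.2⟩
  have hu : ∀ i, Function.Injective (W.u i) := by
    intro i l l' h
    have h2 : ((i, l) : ι × Fin (2 * κ)) = (i, l') := W.u_inj h
    exact (Prod.mk.inj h2).2
  rw [e1, card_union_of_disjoint, card_biUnion, card_image_of_injective _ W.y_inj]
  · congr 1
    exact sum_congr rfl fun p _ => card_image_of_injective _ (hu _)
  · intro p _ p' _ hpp
    rw [Function.onFun, disjoint_left]
    intro x hx hx'
    obtain ⟨l, -, rfl⟩ := mem_image.1 hx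
    obtain ⟨l', -, h⟩ := mem_image.1 hx'
    have h2 : ((Ch.e p', l') : ι × Fin (2 * κ)) = (Ch.e p, l) := W.u_inj h
    exact hpp (Ch.e_inj (Prod.mk.inj h2).1).symm
  · rw [disjoint_left]
    intro x hx hx'
    obtain ⟨p, -, hp⟩ := mem_biUnion.1 hx
    obtain ⟨l, -, rfl⟩ := mem_image.1 hp
    obtain ⟨p', -, h⟩ := mem_image.1 hx'
    exact W.uy _ _ _ h.symm

/-- `Core.isPar_tog`. -/
theorem WD.Chain.isPar (k : Fin (κ - 1) → Fin (t + 1)) (a : Fin σ → Fin (t + 1)) :
    IsPar G c.r (tog c.P W.on W.off W.X (Ch.J k a)) := by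
  have hK : ∀ x ∈ c.K, x ∉ W.X := fun x hx h => disjoint_left.1 WD.X_disj h hx
  apply Core.isPar_tog c W.on W.off W.X (Ch.J k a) WD.X_disj
  · intro x hx
    rcases WD.mem_X.1 hx with ⟨i, l, rfl⟩ | ⟨p, rfl⟩
    · rw [W.on_u]
      exact ⟨W.adj_w i l, hK _ (W.wK i)⟩
    · rw [W.on_y]
      exact ⟨W.adj_hh p, hK _ (W.HK (W.hhH _))⟩
  · intro x hx
    rcases WD.mem_X.1 hx with ⟨i, l, rfl⟩ | ⟨p, rfl⟩
    · exact ⟨W.adj_off i l, hK _ (W.off_uK i l)⟩
    · rw [W.off_y]
      exact ⟨W.adj_hs p, hK _ (W.HK (WD.hs_mem p))⟩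

private theorem WD.Chain.dg_eq (k : Fin (κ - 1) → Fin (t + 1)) (a : Fin σ → Fin (t + 1)) (x : V) :
    dg c.r (tog c.P W.on W.off W.X (Ch.J k a)) x +
        (∑ p, ((Ch.ON (Ch.e p) (stt k p)).filter fun l => W.off (W.u (Ch.e p) l) = x).card +
        (univ.filter fun p : Fin σ × Fin t => p.2.1 < (a p.1).1 ∧ W.off (W.y p) = x).card) =
      W.g x +
        (∑ p, ((Ch.ON (Ch.e p) (stt k p)).filter fun l => W.on (W.u (Ch.e p) l) = x).card +
        (univ.filter fun p : Fin σ × Fin t => p.2.1 < (a p.1).1 ∧ W.on (W.y p) = x).card) := by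
  have h := dg_tog c.r c.P W.on W.off W.X (Ch.J k a) WD.r_notMem_X (Ch.J_subset k a) x
  rw [Ch.card_J_filter k a (fun y => W.off y = x), Ch.card_J_filter k a (fun y => W.on y = x)] at h
  exact h

private theorem WD.off_y_card (a : Fin σ → Fin (t + 1)) (x : V) (hx : x ∉ H) :
    (univ.filter fun p : Fin σ × Fin t => p.2.1 < (a p.1).1 ∧ W.off (W.y p) = x).card = 0 := by
  rw [card_eq_zero, filter_eq_empty_iff]
  rintro p - ⟨-, h⟩
  rw [W.off_y] at h
  exact hx (h ▸ WD.hs_mem p)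

private theorem WD.on_y_card (a : Fin σ → Fin (t + 1)) (x : V) (hx : x ∉ H) :
    (univ.filter fun p : Fin σ × Fin t => p.2.1 < (a p.1).1 ∧ W.on (W.y p) = x).card = 0 := by
  rw [card_eq_zero, filter_eq_empty_iff]
  rintro p - ⟨-, h⟩
  rw [W.on_y] at h
  exact hx (h ▸ W.hhH _)

/-- The degrees outside `H` do not depend on `a` (`dg_tog`; `on (y p)`, `off (y p)` are in `H`). -/
theorem WD.Chain.dg_out (k : Fin (κ - 1) → Fin (t + 1)) (a a' : Fin σ → Fin (t + 1)) (x : V)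
    (hx : x ∉ H) : dg c.r (tog c.P W.on W.off W.X (Ch.J k a)) x =
      dg c.r (tog c.P W.on W.off W.X (Ch.J k a')) x := by
  have h1 := Ch.dg_eq k a x
  have h2 := Ch.dg_eq k a' x
  rw [WD.off_y_card _ _ hx, WD.on_y_card _ _ hx] at h1 h2
  omega

/-- The degree of a centre. -/
private theorem WD.Chain.dg_centre (k : Fin (κ - 1) → Fin (t + 1)) (a : Fin σ → Fin (t + 1))
    (p : Fin (κ - 1) × Fin t) :
    dg c.r (tog c.P W.on W.off W.X (Ch.J k a)) (W.w (Ch.e p)) = Ch.cc + stt k p := by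
  have hx := W.wH (Ch.e p)
  have h1 := Ch.dg_eq k a (W.w (Ch.e p))
  rw [WD.off_y_card _ _ hx, WD.on_y_card _ _ hx] at h1
  have h2 : ∑ q, ((Ch.ON (Ch.e q) (stt k q)).filter fun l =>
      W.off (W.u (Ch.e q) l) = W.w (Ch.e p)).card = 0 := by
    apply sum_eq_zero
    intro q _
    rw [card_eq_zero, filter_eq_empty_iff]
    intro l _ h
    exact W.off_ne _ _ _ h
  have h3 : ∑ q, ((Ch.ON (Ch.e q) (stt k q)).filter fun l =>
      W.on (W.u (Ch.e q) l) = W.w (Ch.e p)).card = (Ch.ON (Ch.e p) (stt k p)).card := by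
    rw [sum_eq_single p]
    · congr 1
      rw [filter_eq_self]
      intro l _
      exact W.on_u _ _
    · intro q _ hq
      rw [card_eq_zero, filter_eq_empty_iff]
      intro l _ h
      rw [W.on_u] at h
      exact hq (Ch.e_inj (W.w_inj h))
    · intro h
      exact absurd (mem_univ _) h
  have h4 := Ch.card_ON p (stt k p) (stt_lt k p)
  omega

/-- A vertex outside `H` which is not a centre. -/
private theorem WD.Chain.dg_other (x : V) (hx : x ∉ H) (hc : ∀ p, W.w (Ch.e p) ≠ x)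
    (k k' : Fin (κ - 1) → Fin (t + 1)) (a a' : Fin σ → Fin (t + 1)) (d : ℕ) (hd1 : Ch.cc ≤ d)
    (hd2 : d < Ch.cc + κ) (hd : dg c.r (tog c.P W.on W.off W.X (Ch.J k a)) x = d) :
    dg c.r (tog c.P W.on W.off W.X (Ch.J k' a')) x = d := by
  have hon : ∀ k'' : Fin (κ - 1) → Fin (t + 1), ∑ q, ((Ch.ON (Ch.e q) (stt k'' q)).filter fun l =>
      W.on (W.u (Ch.e q) l) = x).card = 0 := by
    intro k''
    apply sum_eq_zero
    intro q _
    rw [card_eq_zero, filter_eq_empty_iff]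
    intro l _ h
    rw [W.on_u] at h
    exact hc _ h
  have h1 := Ch.dg_eq k a x
  have h2 := Ch.dg_eq k' a' x
  rw [WD.off_y_card _ _ hx, WD.on_y_card _ _ hx, hon] at h1 h2
  by_cases hp : ∃ p l, W.off (W.u (Ch.e p) l) = x
  · obtain ⟨p, l, hp⟩ := hp
    have hoff : ∀ k'' : Fin (κ - 1) → Fin (t + 1),
        ∑ q, ((Ch.ON (Ch.e q) (stt k'' q)).filter fun l =>
          W.off (W.u (Ch.e q) l) = x).card = ((Ch.ON (Ch.e p) (stt k'' p)).filter fun l =>
          W.off (W.u (Ch.e p) l) = x).card := by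
      intro k''
      rw [sum_eq_single p]
      · intro q _ hq
        rw [card_eq_zero, filter_eq_empty_iff]
        intro l' _ h
        have h5 := W.off_disj (Ch.e p) (Ch.e q) l l' (fun h6 => hq (Ch.e_inj h6).symm)
          (hp.trans h.symm)
        rw [hp] at h5
        exact hx h5
      · intro h
        exact absurd (mem_univ _) h
    rw [hoff] at h1 h2
    rcases Ch.clean p x hx with h | h
    · have e1 := h _ (stt_lt k p)
      have e2 := h _ (stt_lt k' p)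
      omega
    · have e1 := h _ (stt_lt k p)
      omega
  · have hoff : ∀ k'' : Fin (κ - 1) → Fin (t + 1),
        ∑ q, ((Ch.ON (Ch.e q) (stt k'' q)).filter fun l =>
          W.off (W.u (Ch.e q) l) = x).card = 0 := by
      intro k''
      apply sum_eq_zero
      intro q _
      rw [card_eq_zero, filter_eq_empty_iff]
      intro l' _ h
      exact hp ⟨q, l', h⟩
    rw [hoff] at h1 h2
    omega

/-- `dg_tog`: the centre `w (e p)` has degree `cc + state`; a vertex `x ∉ H` which is `off` of a toggle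
of a spot `e p` is not a centre and not `off` of a toggle of another spot, its degree is
`g x - #(toggles of ON … at x)`: constant, or never in `[cc, cc + κ)`; all other vertices outside `H`
have constant degree. -/
theorem WD.Chain.count_out : ∃ Kc : Fin (κ - 1) → ℕ,
    ∀ (k : Fin (κ - 1) → Fin (t + 1)) (a : Fin σ → Fin (t + 1)) (j : Fin (κ - 1)),
      (univ.filter fun x => x ∉ H ∧
        dg c.r (tog c.P W.on W.off W.X (Ch.J k a)) x = Ch.cc + j.1 + 1).card = Kc j + (k j).1 := by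
  classical
  refine ⟨fun j => (univ.filter fun x => (x ∉ H ∧ ∀ p, W.w (Ch.e p) ≠ x) ∧
    dg c.r (tog c.P W.on W.off W.X (Ch.J (fun _ => 0) (fun _ => 0))) x =
      Ch.cc + j.1 + 1).card, ?_⟩
  intro k a j
  have hj := j.2
  have e1 : (univ.filter fun x => x ∉ H ∧
        dg c.r (tog c.P W.on W.off W.X (Ch.J k a)) x = Ch.cc + j.1 + 1) =
      (univ.filter fun x => (x ∉ H ∧ ∀ p, W.w (Ch.e p) ≠ x) ∧
        dg c.r (tog c.P W.on W.off W.X (Ch.J (fun _ => 0) (fun _ => 0))) x =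
        Ch.cc + j.1 + 1) ∪
      ((univ : Finset (Fin t)).filter fun l => l.1 < (k j).1).image
        (fun l => W.w (Ch.e (j, l))) := by
    ext x
    rw [mem_union, mem_filter, mem_filter, mem_image]
    constructor
    · rintro ⟨-, hx, hd⟩
      by_cases hc : ∃ p, W.w (Ch.e p) = x
      · right
        obtain ⟨p, rfl⟩ := hc
        rw [Ch.dg_centre] at hd
        have h1 : stt k p = j.1 + 1 := by omega
        unfold stt at h1
        split_ifs at h1 with h2
        have h3 : p.1 = j := Fin.ext (by omega)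
        refine ⟨p.2, mem_filter.2 ⟨mem_univ _, ?_⟩, ?_⟩
        · rw [← h3]
          exact h2
        · rw [← h3]
      · left
        have hc' : ∀ p, W.w (Ch.e p) ≠ x := fun p h => hc ⟨p, h⟩
        exact ⟨mem_univ _, ⟨hx, hc'⟩, Ch.dg_other x hx hc' k _ a _ _ (by omega) (by omega) hd⟩
    · rintro (⟨-, ⟨hx, hc⟩, hd⟩ | ⟨l, hl, rfl⟩)
      · exact ⟨mem_univ _, hx, Ch.dg_other x hx hc _ k _ a _ (by omega) (by omega) hd⟩
      · refine ⟨mem_univ _, W.wH _, ?_⟩
        rw [Ch.dg_centre]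
        have h1 : stt k (j, l) = j.1 + 1 := by
          unfold stt
          exact if_pos (mem_filter.1 hl).2
        omega
  rw [e1, card_union_of_disjoint, card_image_of_injective]
  · rw [card_fin_lt _ (Nat.lt_succ_iff.1 (k j).2)]
  · intro l l' h
    have h2 := Ch.e_inj (W.w_inj h)
    exact (Prod.mk.inj h2).2
  · rw [disjoint_left]
    intro x hx hx'
    obtain ⟨l, -, rfl⟩ := mem_image.1 hx'
    exact (mem_filter.1 hx).2.1.2 _ rfl

/-- The degree of `hh j` is `const (k) + a j`. -/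
theorem WD.Chain.dg_hh (k : Fin (κ - 1) → Fin (t + 1)) (a a' : Fin σ → Fin (t + 1))
    (j : Fin σ) : dg c.r (tog c.P W.on W.off W.X (Ch.J k a)) (W.hh j) + (a' j).1 =
      dg c.r (tog c.P W.on W.off W.X (Ch.J k a')) (W.hh j) + (a j).1 := by
  have h1 := Ch.dg_eq k a (W.hh j)
  have h2 := Ch.dg_eq k a' (W.hh j)
  have e1 : ∀ a'' : Fin σ → Fin (t + 1), (univ.filter fun p : Fin σ × Fin t =>
      p.2.1 < (a'' p.1).1 ∧ W.off (W.y p) = W.hh j).card = 0 := by
    intro a''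
    rw [card_eq_zero, filter_eq_empty_iff]
    rintro p - ⟨-, h⟩
    rw [W.off_y] at h
    exact W.hs_ne j h
  have e2 : ∀ a'' : Fin σ → Fin (t + 1), (univ.filter fun p : Fin σ × Fin t =>
      p.2.1 < (a'' p.1).1 ∧ W.on (W.y p) = W.hh j).card = (a'' j).1 := by
    intro a''
    have h3 : (univ.filter fun p : Fin σ × Fin t =>
        p.2.1 < (a'' p.1).1 ∧ W.on (W.y p) = W.hh j) =
        ((univ : Finset (Fin t)).filter fun l => l.1 < (a'' j).1).image (fun l => (j, l)) := by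
      ext p
      rw [mem_filter, mem_image]
      constructor
      · rintro ⟨-, h4, h5⟩
        rw [W.on_y] at h5
        have h6 : p.1 = j := W.hh_inj h5
        refine ⟨p.2, mem_filter.2 ⟨mem_univ _, ?_⟩, ?_⟩
        · rw [← h6]
          exact h4
        · rw [← h6]
      · rintro ⟨l, hl, rfl⟩
        exact ⟨mem_univ _, (mem_filter.1 hl).2, W.on_y _⟩
    rw [h3, card_image_of_injective _ (fun l l' h => (Prod.mk.inj h).2),
      card_fin_lt _ (Nat.lt_succ_iff.1 (a'' j).2)]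
  rw [e1, e2] at h1 h2
  omega

end H35ST
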