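import Pool.Agent.H35.ST.TreeB
import Pool.Agent.H35.ST.TreeD
import Pool.Agent.H35.ST.CountB
import Pool.Agent.H35.ST.CaseWb1
import Pool.Agent.H35.ST.CaseWb2

/-! Module CASEWB: counting for Case W. -/

namespace H35ST

open Finset

variable {V : Type*} [Fintype V] [DecidableEq V]

/-- `WD.exists_chain`, `card_le_tauIso'` (family indexed by pairs `(k, a)`), `dg_multiset`,
`count_classes_two`. -/
theorem case_W_count {G : SimpleGraph V} {c : Core G} {H : Finset V} {ι : Type} [Fintype ι]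
    [DecidableEq ι] {κ σ t : ℕ} (W : WD G c H ι κ σ t) (B k0 : ℕ) (hH : H.card ≤ k0)
    (hκ : 1 ≤ κ) (ht : 1 ≤ t)
    (hB : 4 * Fintype.card V ≤ B * Fintype.card ι)
    (hBt : 4 * B * (κ * t) ≤ Fintype.card ι) :
    (t + 1) ^ (κ - 1 + σ) ≤ (2 * k0 + 1) ^ (κ - 1 + σ) * tauIso G := by
  obtain ⟨Ch⟩ := W.exists_chain B hκ ht hB hBt
  obtain ⟨Kc, hKc⟩ := Ch.count_out
  have h := card_le_tauIso' (G := G) (r := c.r)
    (J := (Fin (κ - 1) → Fin (t + 1)) × (Fin σ → Fin (t + 1)))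
    (fun p => tog c.P W.on W.off W.X (Ch.J p.1 p.2)) (fun p => Ch.isPar p.1 p.2)
    ((2 * k0 + 1) ^ (κ - 1 + σ)) (by
      intro p
      refine ⟨_, count_classes_two H k0 (κ - 1) σ t hH
        (fun k a => dg c.r (tog c.P W.on W.off W.X (Ch.J k a))) (fun j => Ch.cc + j.1 + 1) Kc
        W.hh W.hhH (fun k a a' x hx => Ch.dg_out k a a' x hx) hKc
        (fun k a a' j => Ch.dg_hh k a a' j) p.1 p.2, ?_⟩
      intro p' hp'
      simp only [mem_filter, mem_univ, true_and]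
      exact (dg_multiset (Ch.isPar p.1 p.2) (Ch.isPar p'.1 p'.2) hp').symm)
  simpa [Fintype.card_prod, pow_add] using h

end H35ST
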