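import Pool.Agent.H35.ST.Defs

/-! Data of Case W. -/

namespace H35ST

open Finset

variable {V : Type*} [Fintype V] [DecidableEq V]

/-- Spots `i : ι`: a centre `w i ∈ K \ H`, toggles `u i l` (`l : Fin (2 κ)`), which can be attached to
`w i` (on) or to `off (u i l)` (off). Hub toggles `y (j, l)`: attached to `hh j` (on) or `hs` (off). -/
structure WD (G : SimpleGraph V) (c : Core G) (H : Finset V) (ι : Type) (κ σ t : ℕ) where
  w : ι → V
  u : ι → Fin (2 * κ) → V
  y : Fin σ × Fin t → V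
  hh : Fin σ → V
  hs : V
  on : V → V
  off : V → V
  HK : H ⊆ c.K
  wK : ∀ i, w i ∈ c.K
  wH : ∀ i, w i ∉ H
  w_inj : Function.Injective w
  u_inj : Function.Injective (fun p : ι × Fin (2 * κ) => u p.1 p.2)
  y_inj : Function.Injective y
  uy : ∀ i l p, u i l ≠ y p
  uK : ∀ i l, u i l ∉ c.K
  yK : ∀ p, y p ∉ c.K
  hhH : ∀ j, hh j ∈ H
  hh_inj : Function.Injective hh
  hsH : 0 < σ → hs ∈ H
  hs_ne : ∀ j, hs ≠ hh j
  on_u : ∀ i l, on (u i l) = w i
  on_y : ∀ p, on (y p) = hh p.1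
  off_y : ∀ p, off (y p) = hs
  off_uK : ∀ i l, off (u i l) ∈ c.K
  adj_w : ∀ i l, G.Adj (u i l) (w i)
  adj_off : ∀ i l, G.Adj (u i l) (off (u i l))
  adj_hh : ∀ p, G.Adj (y p) (hh p.1)
  adj_hs : ∀ p, G.Adj (y p) hs
  off_ne : ∀ i l j, off (u i l) ≠ w j
  off_disj : ∀ i j l l', i ≠ j → off (u i l) = off (u j l') → off (u i l) ∈ H

/-- All toggles. -/
def WD.X {G : SimpleGraph V} {c : Core G} {H : Finset V} {ι : Type} [Fintype ι] {κ σ t : ℕ}
    (W : WD G c H ι κ σ t) : Finset V :=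
  (univ.image fun p : ι × Fin (2 * κ) => W.u p.1 p.2) ∪ univ.image W.y

/-- Degrees with everything off. -/
def WD.g {G : SimpleGraph V} {c : Core G} {H : Finset V} {ι : Type} [Fintype ι] {κ σ t : ℕ}
    (W : WD G c H ι κ σ t) : V → ℕ :=
  dg c.r (tog c.P W.on W.off W.X ∅)

/-- Chosen spots `e p` with chains `ON`. -/
structure WD.Chain {G : SimpleGraph V} {c : Core G} {H : Finset V} {ι : Type} [Fintype ι]
    {κ σ t : ℕ} (W : WD G c H ι κ σ t) where
  cc : ℕ
  e : Fin (κ - 1) × Fin t → ι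
  ON : ι → ℕ → Finset (Fin (2 * κ))
  e_inj : Function.Injective e
  card_ON : ∀ p j, j < κ → W.g (W.w (e p)) + (ON (e p) j).card = cc + j
  clean : ∀ p x, x ∉ H →
    (∀ j, j < κ → ((ON (e p) j).filter fun l => W.off (W.u (e p) l) = x).card =
        ((ON (e p) 0).filter fun l => W.off (W.u (e p) l) = x).card) ∨
    (∀ j, j < κ → W.g x - ((ON (e p) j).filter fun l => W.off (W.u (e p) l) = x).card < cc ∨
        cc + κ ≤ W.g x - ((ON (e p) j).filter fun l => W.off (W.u (e p) l) = x).card)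

/-- The set of the toggles that are on, for the parameters `k`, `a`: the spot `e (j, l)` is in state
`j + 1` if `l < k j` and in state `0` otherwise; `y (j, l)` is on if `l < a j`. -/
def WD.Chain.J {G : SimpleGraph V} {c : Core G} {H : Finset V} {ι : Type} [Fintype ι]
    {κ σ t : ℕ} {W : WD G c H ι κ σ t} (Ch : W.Chain) (k : Fin (κ - 1) → Fin (t + 1))
    (a : Fin σ → Fin (t + 1)) : Finset V :=
  ((univ : Finset (Fin (κ - 1) × Fin t)).biUnion fun p =>
      (Ch.ON (Ch.e p) (if p.2.1 < (k p.1).1 then p.1.1 + 1 else 0)).image (W.u (Ch.e p))) ∪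
    ((univ : Finset (Fin σ × Fin t)).filter fun p => p.2.1 < (a p.1).1).image W.y

end H35ST
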