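import Pool.Agent.H35.ST.Defs

/-! Module CASEWC: double counting for Case W (pure combinatorics). -/

namespace H35ST

open Finset

/-- Every `u ∈ V₁` has a set `N u ⊆ R` with `(d - s u + 1) / 2` elements. Let `V_w` be the set of the
`u ∈ V₁` with `w ∈ N u`. All but `12 * R.card` of the `u ∈ V₁` have some `w ∈ N u` with
`2 * (d + 2 - s u) + 1 ≤ |V_w|`. Proof: for a bad `u` and `w ∈ N u`:
`|V_w| ≤ 2 (d - s u) + 4 ≤ 6 (d - s u) ≤ 12 |N u|`; so
`#bad = ∑_{u bad} ∑_{w ∈ N u} 1 / |N u| ≤ ∑_w ∑_{u ∈ V_w, bad} 12 / |V_w| ≤ 12 |R|`. -/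
theorem double_count {α β : Type*} [DecidableEq α] [DecidableEq β] (V₁ : Finset α) (R : Finset β)
    (N : α → Finset β) (s : α → ℕ) (d : ℕ) (hs : ∀ u ∈ V₁, s u < d)
    (hN : ∀ u ∈ V₁, N u ⊆ R ∧ (N u).card = (d - s u + 1) / 2) :
    V₁.card ≤ (V₁.filter fun u => ∃ w ∈ N u,
      2 * (d + 2 - s u) + 1 ≤ (V₁.filter fun u' => w ∈ N u').card).card + 12 * R.card := by
  classical
  set good : α → Prop := fun u => ∃ w ∈ N u,
      2 * (d + 2 - s u) + 1 ≤ (V₁.filter fun u' => w ∈ N u').card with hgood
  have hsplit : V₁.card = (V₁.filter good).card + (V₁.filter fun u => ¬ good u).card :=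
    (card_filter_add_card_filter_not good).symm
  suffices h : ((V₁.filter fun u => ¬ good u).card : ℚ) ≤ 12 * R.card by
    have h' : (V₁.filter fun u => ¬ good u).card ≤ 12 * R.card := by exact_mod_cast h
    rw [hsplit]
    exact Nat.add_le_add_left h' _
  set Bad := V₁.filter fun u => ¬ good u with hBad
  have hb : ∀ u ∈ Bad, u ∈ V₁ ∧ 1 ≤ (N u).card ∧ ∀ w ∈ N u,
      (V₁.filter fun u' => w ∈ N u').card ≤ 12 * (N u).card := by
    intro u hu
    rw [hBad, mem_filter] at hu
    obtain ⟨hu1, hu2⟩ := hu
    have h1 := hs u hu1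
    have h2 := (hN u hu1).2
    refine ⟨hu1, by omega, fun w hw => ?_⟩
    by_contra hcon
    exact hu2 ⟨w, hw, by omega⟩
  calc (Bad.card : ℚ) = ∑ u ∈ Bad, ∑ w ∈ N u, (1 : ℚ) / (N u).card := by
        rw [card_eq_sum_ones, Nat.cast_sum]
        refine sum_congr rfl fun u hu => ?_
        have := (hb u hu).2.1
        rw [sum_const, nsmul_eq_mul, Nat.cast_one, mul_one_div, div_self]
        exact_mod_cast (by omega : (N u).card ≠ 0)
    _ = ∑ u ∈ Bad, ∑ w ∈ R, if w ∈ N u then (1 : ℚ) / (N u).card else 0 := by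
        refine sum_congr rfl fun u hu => ?_
        rw [← sum_filter]
        refine sum_congr ?_ fun _ _ => rfl
        ext w
        rw [mem_filter]
        exact ⟨fun h => ⟨(hN u (hb u hu).1).1 h, h⟩, fun h => h.2⟩
    _ = ∑ w ∈ R, ∑ u ∈ Bad, if w ∈ N u then (1 : ℚ) / (N u).card else 0 := sum_comm
    _ ≤ ∑ w ∈ R, (12 : ℚ) := by
        refine sum_le_sum fun w _ => ?_
        rw [← sum_filter]
        set Vw := V₁.filter fun u' => w ∈ N u' with hVw
        have hsub : (Bad.filter fun u => w ∈ N u) ⊆ Vw := by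
          intro u hu
          rw [mem_filter] at hu
          rw [hVw, mem_filter]
          exact ⟨(hb u hu.1).1, hu.2⟩
        rcases Nat.eq_zero_or_pos Vw.card with h0 | hpos
        · have : (Bad.filter fun u => w ∈ N u) = ∅ := by
            rw [card_eq_zero] at h0
            rw [h0] at hsub
            exact subset_empty.1 hsub
          rw [this, sum_empty]
          norm_num
        · have hposQ : (0 : ℚ) < Vw.card := by exact_mod_cast hpos
          calc ∑ u ∈ Bad.filter (fun u => w ∈ N u), (1 : ℚ) / (N u).card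
              ≤ ∑ u ∈ Bad.filter (fun u => w ∈ N u), (12 : ℚ) / Vw.card := by
                refine sum_le_sum fun u hu => ?_
                rw [mem_filter] at hu
                obtain ⟨h1, h2, h3⟩ := hb u hu.1
                have h4 : (Vw.card : ℚ) ≤ 12 * (N u).card := by exact_mod_cast h3 w hu.2
                have h5 : (0 : ℚ) < (N u).card := by exact_mod_cast h2
                rw [div_le_div_iff₀ h5 hposQ]
                linarith
            _ = (Bad.filter fun u => w ∈ N u).card * ((12 : ℚ) / Vw.card) := by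
                rw [sum_const, nsmul_eq_mul]
            _ ≤ Vw.card * ((12 : ℚ) / Vw.card) := by
                apply mul_le_mul_of_nonneg_right
                · exact_mod_cast card_le_card hsub
                · positivity
            _ = 12 := by field_simp
    _ = 12 * R.card := by rw [sum_const, nsmul_eq_mul]; ring

end H35ST
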