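import Pool.Agent.H35.ST.CaseWb
import Pool.Agent.H35.ST.CaseWc

/-! Module CASEWD: selection for Case W. -/

namespace H35ST

open Finset

/-- Local data at a centre `w`. -/
private theorem exists_local {V : Type} [Fintype V] [DecidableEq V] {G : SimpleGraph V}
    [DecidableRel G.Adj] {K H V₁ : Finset V} {d : ℕ} (hd : 3 ≤ d)
    (N' : V → Finset V)
    (hN' : ∀ u ∈ V₁, N' u ⊆ nb G u (K \ H) ∧ (N' u).card = (d - (nb G u H).card + 1) / 2)
    (hHK : H ⊆ K)
    {w v : V} (κ : ℕ) (hc : 2 * κ + 1 ≤ (V₁.filter fun u' => w ∈ N' u').card) :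
    ∃ (T A : Fin (2 * κ) → V), Function.Injective T ∧ (∀ l, T l ∈ V₁) ∧ (∀ l, w ∈ N' (T l)) ∧
      (∀ l, T l ≠ v) ∧ (∀ l, G.Adj (T l) (A l)) ∧ (∀ l, A l ∈ K) ∧ (∀ l, A l ≠ w ∨ A l ∈ H) := by
  classical
  have h1 : 2 * κ ≤ ((V₁.filter fun u' => w ∈ N' u').erase v).card := by
    have := Finset.pred_card_le_card_erase (s := V₁.filter fun u' => w ∈ N' u') (a := v)
    omega
  have h2 : Nonempty (Fin (2 * κ) ↪ ((V₁.filter fun u' => w ∈ N' u').erase v)) := by
    apply Function.Embedding.nonempty_of_card_le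
    rw [Fintype.card_fin, Fintype.card_coe]
    exact h1
  obtain ⟨e⟩ := h2
  have he : ∀ l, (e l : V) ≠ v ∧ (e l : V) ∈ V₁ ∧ w ∈ N' (e l) := by
    intro l
    have := (e l).2
    rw [mem_erase, mem_filter] at this
    exact this
  have hA : ∀ l, ∃ x, G.Adj (e l : V) x ∧ x ∈ K ∧ (x ≠ w ∨ x ∈ H) := by
    intro l
    obtain ⟨-, hV, hw⟩ := he l
    by_cases h0 : (nb G (e l) H).card = 0
    · have h3 := (hN' _ hV).2
      rw [h0] at h3
      have h4 : 1 < (N' (e l)).card := by omega
      obtain ⟨x, hx, hxw⟩ := Finset.exists_mem_ne h4 w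
      have h5 := (hN' _ hV).1 hx
      rw [nb, mem_filter, mem_sdiff] at h5
      exact ⟨x, h5.2, h5.1.1, Or.inl hxw⟩
    · obtain ⟨x, hx⟩ := Finset.card_pos.1 (Nat.pos_of_ne_zero h0)
      rw [nb, mem_filter] at hx
      exact ⟨x, hx.2, hHK hx.1, Or.inr hx.1⟩
  choose A hA1 hA2 hA3 using hA
  refine ⟨fun l => (e l : V), A, ?_, fun l => (he l).2.1, fun l => (he l).2.2, fun l => (he l).1,
    hA1, hA2, hA3⟩
  intro l l' h
  exact e.injective (Subtype.ext h)

/-- For `u ∈ V₁` let `s u = |nb u H| < d` and choose `N' u ⊆ nb u (K \ H)` with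
`(d - s u + 1) / 2` elements (at least 2 if `s u = 0`). `double_count` with `R = K \ H`:
at least `V₁.card - 12 K.card ≥ n / 2` good `u`. Pigeonhole on `s u = s`, then on `nb u H = N`
(at most `2 ^ k0` sets); every `w ∈ K \ H` has fewer than `Δ` neighbours outside `K`; so there are at
least `n / (2 d 2 ^ k0 Δ)` vertices `w ∈ K \ H` with some `v w ∈ V_w`, `nb (v w) H = N`,
`N.card = s`, and `2 κ + 1 ≤ |V_w|`, `κ = d + 2 - s`; choose `2 κ` toggles in `V_w \ {v w}`. For a toggle `u`
of `w`: `alt` = an element of `nb u H` if `s u ≥ 1`, otherwise an element of `N' u \ {w}`.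
Zone of `w`: `{w, v w}`, the toggles, the `alt`'s outside `H`: at most `4 κ + 2` elements. Every `x ∉ H` is
in at most `d Δ + d + 1` zones: a point outside `K` is in `V_w` only for `w ∈ N' x` (at most `d`);
a point `x ∈ K` is `w` or an `alt` of some `u ∈ nb x Kᶜ` (fewer than `Δ`), which has at most `d` centres.
`exists_disjoint_zones`; `case_W_count` with `ι` = the chosen centres, `m` of them,
`m ≥ n / (C₁ Δ ^ 2)`, `B = 4 C₁ Δ ^ 2`, `σ = s - 1` (natural subtraction), `y` = `(s - 1) t` of the `v w`,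
`hh`, `hs` = the elements of `N`. Finally `(κ - 1) + (s - 1) ≥ d`. -/
theorem case_W' (d k0 : ℕ) (hd : 3 ≤ d) : ∃ C : ℕ, 0 < C ∧
    ∀ (V : Type) [Fintype V] [DecidableEq V] (G : SimpleGraph V) [DecidableRel G.Adj]
      (c : Core G) (H V₁ : Finset V) (Δ t : ℕ), H ⊆ c.K → H.card ≤ k0 → 1 ≤ Δ → 1 ≤ t →
      (∀ v, v ∉ H → (nb G v c.Kᶜ).card < Δ) →
      V₁ ⊆ c.Kᶜ → (∀ u ∈ V₁, (nb G u H).card < d) →
      (∀ u ∈ V₁, (d - (nb G u H).card + 1) / 2 ≤ (nb G u (c.K \ H)).card) →
      Fintype.card V + 24 * c.K.card ≤ 2 * V₁.card →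
      C * Δ ^ 4 * t ≤ Fintype.card V → t ^ d ≤ C * tauIso G := by
  set C₁ := 2 * 2 ^ k0 * ((2 * d + 1) * (4 * d + 10)) with hC₁
  have hC₁pos : 0 < C₁ := by positivity
  refine ⟨16 * C₁ ^ 2 * (d + 2) + (2 * k0 + 1) ^ (d + 1), by positivity, ?_⟩
  intro V _ _ G _ c H V₁ Δ t hHK hHk hΔ ht hsmall hV₁ hs hN hcard hn
  classical
  -- selection of N'
  have hN' : ∀ u, ∃ S : Finset V, u ∈ V₁ → S ⊆ nb G u (c.K \ H) ∧
      S.card = (d - (nb G u H).card + 1) / 2 := by
    intro u
    by_cases hu : u ∈ V₁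
    · obtain ⟨S, hS, hS'⟩ := Finset.exists_subset_card_eq (hN u hu)
      exact ⟨S, fun _ => ⟨hS, hS'⟩⟩
    · exact ⟨∅, fun h => absurd h hu⟩
  choose N' hN' using hN'
  have hN'K : ∀ u ∈ V₁, ∀ w ∈ N' u, w ∈ c.K ∧ w ∉ H ∧ G.Adj u w := by
    intro u hu w hw
    have := (hN' u hu).1 hw
    rw [nb, mem_filter, mem_sdiff] at this
    exact ⟨this.1.1, this.1.2, this.2⟩
  have hN'd : ∀ u ∈ V₁, (N' u).card ≤ d := by
    intro u hu
    have := (hN' u hu).2
    omega
  -- double counting
  have hdc := double_count V₁ (c.K \ H) N' (fun u => (nb G u H).card) d hs (by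
    intro u hu
    refine ⟨?_, (hN' u hu).2⟩
    intro w hw
    have := hN'K u hu w hw
    exact mem_sdiff.2 ⟨this.1, this.2.1⟩)
  set good := V₁.filter fun u => ∃ w ∈ N' u,
      2 * (d + 2 - (nb G u H).card) + 1 ≤ (V₁.filter fun u' => w ∈ N' u').card with hgood
  have hRK : (c.K \ H).card ≤ c.K.card := card_le_card sdiff_subset
  have hgn : Fintype.card V ≤ 2 * good.card := by omega
  obtain ⟨N, hNH, hfib⟩ := exists_large_fiber good H.powerset (fun u => nb G u H)
    ⟨∅, empty_mem_powerset _⟩ (by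
      intro u _
      exact mem_powerset.2 (filter_subset _ _))
  rw [card_powerset] at hfib
  set Gd := good.filter fun u => nb G u H = N with hGd
  have hGdn : Fintype.card V ≤ 2 * 2 ^ k0 * Gd.card := by
    calc Fintype.card V ≤ 2 * good.card := hgn
      _ ≤ 2 * (2 ^ H.card * Gd.card) := by
          exact Nat.mul_le_mul_left _ hfib
      _ ≤ 2 * (2 ^ k0 * Gd.card) := by
          apply Nat.mul_le_mul_left
          apply Nat.mul_le_mul_right
          exact Nat.pow_le_pow_right (by norm_num) hHk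
      _ = 2 * 2 ^ k0 * Gd.card := by ring
  have hnpos : 0 < Fintype.card V := Fintype.card_pos_iff.2 ⟨c.r⟩
  have hGdpos : 0 < Gd.card := by
    rcases Nat.eq_zero_or_pos Gd.card with h | h
    · rw [h] at hGdn; omega
    · exact h
  have hGdmem : ∀ u ∈ Gd, u ∈ V₁ ∧ nb G u H = N ∧ ∃ w ∈ N' u,
      2 * (d + 2 - N.card) + 1 ≤ (V₁.filter fun u' => w ∈ N' u').card := by
    intro u hu
    rw [hGd, mem_filter, hgood, mem_filter] at hu
    obtain ⟨⟨h1, w, h2, h3⟩, h4⟩ := hu
    rw [h4] at h3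
    exact ⟨h1, h4, w, h2, h3⟩
  have hNd : N.card < d := by
    obtain ⟨u, hu⟩ := Finset.card_pos.1 hGdpos
    obtain ⟨h1, h2, -⟩ := hGdmem u hu
    rw [← h2]
    exact hs u h1
  -- the centre of a good vertex
  have hcen : ∀ u, ∃ w, u ∈ Gd → w ∈ N' u ∧
      2 * (d + 2 - N.card) + 1 ≤ (V₁.filter fun u' => w ∈ N' u').card := by
    intro u
    by_cases hu : u ∈ Gd
    · obtain ⟨-, -, w, h1, h2⟩ := hGdmem u hu
      exact ⟨w, fun _ => ⟨h1, h2⟩⟩
    · exact ⟨u, fun h => absurd h hu⟩
  choose cen hcen using hcen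
  set W₀ := Gd.image cen with hW₀
  have hGdW : Gd.card ≤ Δ * W₀.card := by
    apply Finset.card_le_mul_card_image
    intro a ha
    rw [mem_image] at ha
    obtain ⟨u, hu, rfl⟩ := ha
    have h1 := hN'K u (hGdmem u hu).1 _ (hcen u hu).1
    refine le_trans (card_le_card ?_) (hsmall (cen u) h1.2.1).le
    intro x hx
    rw [mem_filter] at hx
    obtain ⟨hx1, hx2⟩ := hx
    have hx3 := (hGdmem x hx1).1
    have h2 := hN'K x hx3 _ (hcen x hx1).1
    rw [nb, mem_filter]
    refine ⟨hV₁ hx3, ?_⟩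
    rw [← hx2]
    exact h2.2.2.symm
  -- data at the centres
  set κ := d + 2 - N.card with hκ
  have hdata : ∀ w, ∃ (v : V) (T A : Fin (2 * κ) → V), w ∈ W₀ →
      v ∈ V₁ ∧ w ∈ N' v ∧ nb G v H = N ∧ Function.Injective T ∧ (∀ l, T l ∈ V₁) ∧
      (∀ l, w ∈ N' (T l)) ∧
      (∀ l, T l ≠ v) ∧ (∀ l, G.Adj (T l) (A l)) ∧ (∀ l, A l ∈ c.K) ∧
      (∀ l, A l ≠ w ∨ A l ∈ H) := by
    intro w
    by_cases hw : w ∈ W₀
    · rw [hW₀, mem_image] at hw
      obtain ⟨v, hv, rfl⟩ := hw
      obtain ⟨h1, h2, -⟩ := hGdmem v hv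
      obtain ⟨h3, h4⟩ := hcen v hv
      obtain ⟨T, A, hTA⟩ := exists_local (G := G) (K := c.K) (H := H) hd N' hN' hHK (v := v) κ h4
      exact ⟨v, T, A, fun _ => ⟨h1, h3, h2, hTA⟩⟩
    · exact ⟨w, fun _ => w, fun _ => w, fun h => absurd h hw⟩
  choose v T A hdata using hdata
  have hW₀K : ∀ w ∈ W₀, w ∈ c.K ∧ w ∉ H := by
    intro w hw
    obtain ⟨h1, h2, -⟩ := hdata w hw
    have := hN'K _ h1 _ h2
    exact ⟨this.1, this.2.1⟩
  set Z : V → Finset V := fun w =>
    ({w, v w} ∪ univ.image (T w)) ∪ (univ.image (A w)).filter (fun x => x ∉ H) with hZ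
  have hZcard : ∀ w ∈ W₀, (Z w).card ≤ 4 * d + 10 := by
    intro w _
    have h1 : (Z w).card ≤ ({w, v w} : Finset V).card + (univ.image (T w)).card +
        ((univ.image (A w)).filter (fun x => x ∉ H)).card := by
      refine (card_union_le _ _).trans ?_
      exact Nat.add_le_add_right (card_union_le _ _) _
    have h2 : ({w, v w} : Finset V).card ≤ 2 := card_le_two
    have h3 : (univ.image (T w)).card ≤ 2 * κ := by
      refine card_image_le.trans ?_
      simp
    have h4 : ((univ.image (A w)).filter (fun x => x ∉ H)).card ≤ 2 * κ := by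
      refine (card_filter_le _ _).trans (card_image_le.trans ?_)
      simp
    have h5 : κ ≤ d + 2 := Nat.sub_le _ _
    omega
  have hZa : ∀ x, (W₀.filter fun w => x ∈ Z w).card ≤ (2 * d + 1) * Δ := by
    intro x
    by_cases hxK : x ∈ c.K
    · by_cases hxH : x ∈ H
      · have : (W₀.filter fun w => x ∈ Z w) = ∅ := by
          apply filter_eq_empty_iff.2
          intro w hw hx
          obtain ⟨h1, h2, h3, h4, h5, h6, h7, h8, h9, h10⟩ := hdata w hw
          simp only [hZ, mem_union, mem_insert, mem_singleton, mem_image, mem_univ, true_and,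
            mem_filter] at hx
          rcases hx with ((rfl | rfl) | ⟨l, rfl⟩) | ⟨-, hx⟩
          · exact (hW₀K x hw).2 hxH
          · exact (mem_compl.1 (hV₁ h1)) hxK
          · exact (mem_compl.1 (hV₁ (h5 l))) hxK
          · exact hx hxH
        rw [this]
        simp
      · have hsub : (W₀.filter fun w => x ∈ Z w) ⊆
            insert x (((nb G x c.Kᶜ).filter fun u => u ∈ V₁).biUnion N') := by
          intro w hw
          rw [mem_filter] at hw
          obtain ⟨hw, hx⟩ := hw
          obtain ⟨h1, h2, h3, h4, h5, h6, h7, h8, h9, h10⟩ := hdata w hw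
          simp only [hZ, mem_union, mem_insert, mem_singleton, mem_image, mem_univ, true_and,
            mem_filter] at hx
          rcases hx with ((rfl | rfl) | ⟨l, rfl⟩) | ⟨⟨l, rfl⟩, hx⟩
          · exact mem_insert_self _ _
          · exact absurd hxK (mem_compl.1 (hV₁ h1))
          · exact absurd hxK (mem_compl.1 (hV₁ (h5 l)))
          · apply mem_insert_of_mem
            rw [mem_biUnion]
            refine ⟨T w l, ?_, h6 l⟩
            rw [mem_filter, nb, mem_filter]
            exact ⟨⟨hV₁ (h5 l), (h8 l).symm⟩, h5 l⟩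
        refine (card_le_card hsub).trans ((card_insert_le _ _).trans ?_)
        have h1 : (((nb G x c.Kᶜ).filter fun u => u ∈ V₁).biUnion N').card ≤
            ((nb G x c.Kᶜ).filter fun u => u ∈ V₁).card * d := by
          apply card_biUnion_le_card_mul
          intro u hu
          exact hN'd u (mem_filter.1 hu).2
        have h2 : ((nb G x c.Kᶜ).filter fun u => u ∈ V₁).card ≤ Δ :=
          (card_filter_le _ _).trans (hsmall x hxH).le
        have h3 := Nat.mul_le_mul_right d h2
        nlinarith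
    · have hsub : (W₀.filter fun w => x ∈ Z w) ⊆ if x ∈ V₁ then N' x else ∅ := by
        intro w hw
        rw [mem_filter] at hw
        obtain ⟨hw, hx⟩ := hw
        obtain ⟨h1, h2, h3, h4, h5, h6, h7, h8, h9, h10⟩ := hdata w hw
        simp only [hZ, mem_union, mem_insert, mem_singleton, mem_image, mem_univ, true_and,
          mem_filter] at hx
        rcases hx with ((rfl | rfl) | ⟨l, rfl⟩) | ⟨⟨l, rfl⟩, hx⟩
        · exact absurd (hW₀K x hw).1 hxK
        · rw [if_pos h1]; exact h2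
        · rw [if_pos (h5 l)]; exact h6 l
        · exact absurd (h9 l) hxK
      refine (card_le_card hsub).trans ?_
      split_ifs with hx
      · have := hN'd x hx
        nlinarith
      · simp
  obtain ⟨S', hS'W, hS'c, hS'd⟩ := exists_disjoint_zones W₀ Z ((2 * d + 1) * Δ) (4 * d + 10)
    (by
      intro w _
      exact ⟨w, by simp [hZ]⟩) hZcard hZa
  -- numerics
  have hnm : Fintype.card V ≤ C₁ * Δ ^ 2 * S'.card := by
    calc Fintype.card V ≤ 2 * 2 ^ k0 * Gd.card := hGdn
      _ ≤ 2 * 2 ^ k0 * (Δ * W₀.card) := Nat.mul_le_mul_left _ hGdW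
      _ ≤ 2 * 2 ^ k0 * (Δ * ((2 * d + 1) * Δ * (4 * d + 10) * S'.card)) :=
          Nat.mul_le_mul_left _ (Nat.mul_le_mul_left _ hS'c)
      _ = C₁ * Δ ^ 2 * S'.card := by rw [hC₁]; ring
  have hκd : κ ≤ d + 2 := Nat.sub_le _ _
  have hκ1 : 1 ≤ κ := by omega
  have hmbig : 16 * C₁ * Δ ^ 2 * (d + 2) * t ≤ S'.card := by
    have h1 : C₁ * Δ ^ 2 * (16 * C₁ * Δ ^ 2 * (d + 2) * t) ≤ C₁ * Δ ^ 2 * S'.card := by
      calc C₁ * Δ ^ 2 * (16 * C₁ * Δ ^ 2 * (d + 2) * t) =
            (16 * C₁ ^ 2 * (d + 2)) * Δ ^ 4 * t := by ring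
        _ ≤ (16 * C₁ ^ 2 * (d + 2) + (2 * k0 + 1) ^ (d + 1)) * Δ ^ 4 * t := by
            apply Nat.mul_le_mul_right
            apply Nat.mul_le_mul_right
            exact Nat.le_add_right _ _
        _ ≤ Fintype.card V := hn
        _ ≤ _ := hnm
    exact Nat.le_of_mul_le_mul_left h1 (by positivity)
  have hmt : (d + 2) * t ≤ S'.card := by
    refine le_trans ?_ hmbig
    have : 1 ≤ 16 * C₁ * Δ ^ 2 := by
      have : 0 < 16 * C₁ * Δ ^ 2 := by positivity
      exact this
    calc (d + 2) * t = 1 * ((d + 2) * t) := by ring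
      _ ≤ (16 * C₁ * Δ ^ 2) * ((d + 2) * t) := Nat.mul_le_mul_right _ this
      _ = _ := by ring
  -- the hub
  set σ := N.card - 1 with hσ
  have hhub : ∃ (hh : Fin σ → V) (hs : V), (∀ j, hh j ∈ N) ∧ Function.Injective hh ∧
      (0 < σ → hs ∈ N) ∧ (∀ j, hs ≠ hh j) := by
    rcases N.eq_empty_or_nonempty with h0 | ⟨a, ha⟩
    · have hσ0 : σ = 0 := by rw [hσ, h0]; rfl
      have hno : ∀ j : Fin σ, False := by
        intro j
        have := j.2
        omega
      exact ⟨fun _ => c.r, c.r, fun j => (hno j).elim, fun j => (hno j).elim,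
        fun h => by omega, fun j => (hno j).elim⟩
    · have hcardE : (N.erase a).card = σ := card_erase_of_mem ha
      have hne : Nonempty (Fin σ ↪ (N.erase a)) := by
        apply Function.Embedding.nonempty_of_card_le
        rw [Fintype.card_fin, Fintype.card_coe, hcardE]
      obtain ⟨e⟩ := hne
      refine ⟨fun j => (e j : V), a, fun j => ?_, fun j j' h => e.injective (Subtype.ext h),
        fun _ => ha, fun j h => ?_⟩
      · exact (mem_erase.1 (e j).2).2
      · exact (mem_erase.1 (e j).2).1 h.symm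
  obtain ⟨hh, hsv, hhN, hhinj, hsN, hsne⟩ := hhub
  have hyemb : Nonempty (Fin σ × Fin t ↪ S') := by
    apply Function.Embedding.nonempty_of_card_le
    have h1 : σ ≤ d + 2 := by omega
    have h2 := Nat.mul_le_mul_right t h1
    simpa using h2.trans hmt
  obtain ⟨ey⟩ := hyemb
  have hNH' : N ⊆ H := mem_powerset.1 hNH
  -- basic facts on zones
  have hwZ : ∀ w, w ∈ Z w := by
    intro w
    simp [hZ]
  have hvZ : ∀ w, v w ∈ Z w := by
    intro w
    simp [hZ]
  have hTZ : ∀ w l, T w l ∈ Z w := by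
    intro w l
    simp only [hZ, mem_union, mem_image, mem_univ, true_and]
    exact Or.inl (Or.inr ⟨l, rfl⟩)
  have hAZ : ∀ w l, A w l ∉ H → A w l ∈ Z w := by
    intro w l h
    simp only [hZ, mem_union, mem_image, mem_univ, true_and, mem_filter]
    exact Or.inr ⟨⟨l, rfl⟩, h⟩
  have hdisj : ∀ w ∈ S', ∀ w' ∈ S', ∀ x, x ∈ Z w → x ∈ Z w' → w = w' := by
    intro w hw w' hw' x hx hx'
    by_contra hne
    exact Finset.disjoint_left.1 (hS'd w hw w' hw' hne) hx hx'
  have hD : ∀ w ∈ S', _ := fun w hw => hdata w (hS'W hw)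
  -- the map of all toggles
  let F : (S' × Fin (2 * κ)) ⊕ (Fin σ × Fin t) → V :=
    Sum.elim (fun p => T p.1 p.2) (fun p => v (ey p))
  have hF : Function.Injective F := by
    rintro (⟨⟨w, hw⟩, l⟩ | p) (⟨⟨w', hw'⟩, l'⟩ | p') h
    · simp only [F, Sum.elim_inl] at h
      have h1 : w = w' := hdisj w hw w' hw' (T w l) (hTZ w l) (by rw [h]; exact hTZ w' l')
      subst h1
      have h2 : l = l' := (hD w hw).2.2.2.1 h
      subst h2
      rfl
    · simp only [F, Sum.elim_inl, Sum.elim_inr] at h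
      have h1 : w = ey p' := hdisj w hw _ (ey p').2 (T w l) (hTZ w l) (by rw [h]; exact hvZ _)
      rw [← h1] at h
      exact absurd h ((hD w hw).2.2.2.2.2.2.1 l)
    · simp only [F, Sum.elim_inl, Sum.elim_inr] at h
      have h1 : w' = ey p := hdisj w' hw' _ (ey p).2 (T w' l') (hTZ w' l')
        (by rw [← h]; exact hvZ _)
      rw [← h1] at h
      exact absurd h.symm ((hD w' hw').2.2.2.2.2.2.1 l')
    · simp only [F, Sum.elim_inr] at h
      have h1 : (ey p : V) = ey p' := hdisj _ (ey p).2 _ (ey p').2 (v (ey p)) (hvZ _)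
        (by rw [h]; exact hvZ _)
      have h2 : p = p' := ey.injective (Subtype.ext h1)
      rw [h2]
  let on : V → V := Function.extend F (Sum.elim (fun p => (p.1 : V)) (fun p => hh p.1)) id
  let off : V → V := Function.extend F (Sum.elim (fun p => A p.1 p.2) (fun _ => hsv)) id
  have hon_u : ∀ (i : S') l, on (T i l) = i := by
    intro i l
    have := hF.extend_apply (Sum.elim (fun p => (p.1 : V)) (fun p => hh p.1)) id (Sum.inl (i, l))
    simpa [F, on] using this
  have hon_y : ∀ p, on (v (ey p)) = hh p.1 := by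
    intro p
    have := hF.extend_apply (Sum.elim (fun p => (p.1 : V)) (fun p => hh p.1)) id (Sum.inr p)
    simpa [F, on] using this
  have hoff_u : ∀ (i : S') l, off (T i l) = A i l := by
    intro i l
    have := hF.extend_apply (Sum.elim (fun p => A p.1 p.2) (fun _ => hsv)) id (Sum.inl (i, l))
    simpa [F, off] using this
  have hoff_y : ∀ p, off (v (ey p)) = hsv := by
    intro p
    have := hF.extend_apply (Sum.elim (fun p : S' × Fin (2 * κ) => A p.1 p.2)
      (fun _ : Fin σ × Fin t => hsv)) id (Sum.inr p)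
    simpa [F, off] using this
  have hadjN : ∀ (i : S') x, x ∈ N → G.Adj (v i) x := by
    intro i x hx
    have h1 := (hD i i.2).2.2.1
    rw [← h1, nb, mem_filter] at hx
    exact hx.2
  let W : WD G c H S' κ σ t :=
    { w := fun i => i
      u := fun i l => T i l
      y := fun p => v (ey p)
      hh := hh
      hs := hsv
      on := on
      off := off
      HK := hHK
      wK := fun i => (hW₀K i (hS'W i.2)).1
      wH := fun i => (hW₀K i (hS'W i.2)).2
      w_inj := fun i j h => Subtype.ext h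
      u_inj := by
        intro p p' h
        have : F (Sum.inl p) = F (Sum.inl p') := h
        exact Sum.inl_injective (hF this)
      y_inj := by
        intro p p' h
        have : F (Sum.inr p) = F (Sum.inr p') := h
        exact Sum.inr_injective (hF this)
      uy := by
        intro i l p h
        have : F (Sum.inl (i, l)) = F (Sum.inr p) := h
        exact Sum.inl_ne_inr (hF this)
      uK := fun i l => mem_compl.1 (hV₁ ((hD i i.2).2.2.2.2.1 l))
      yK := fun p => mem_compl.1 (hV₁ (hD (ey p) (ey p).2).1)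
      hhH := fun j => hNH' (hhN j)
      hh_inj := hhinj
      hsH := fun h => hNH' (hsN h)
      hs_ne := hsne
      on_u := hon_u
      on_y := hon_y
      off_y := hoff_y
      off_uK := by
        intro i l
        rw [hoff_u]
        exact (hD i i.2).2.2.2.2.2.2.2.2.1 l
      adj_w := by
        intro i l
        exact (hN'K _ ((hD i i.2).2.2.2.2.1 l) _ ((hD i i.2).2.2.2.2.2.1 l)).2.2
      adj_off := by
        intro i l
        rw [hoff_u]
        exact (hD i i.2).2.2.2.2.2.2.2.1 l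
      adj_hh := by
        intro p
        exact hadjN _ _ (hhN _)
      adj_hs := by
        intro p
        apply hadjN
        apply hsN
        have := p.1.2
        omega
      off_ne := by
        intro i l j h
        rw [hoff_u] at h
        have hjH := (hW₀K j (hS'W j.2)).2
        have hAH : A i l ∉ H := by rw [h]; exact hjH
        have h1 : (i : V) = j := hdisj i i.2 j j.2 (A i l) (hAZ _ _ hAH) (by rw [h]; exact hwZ _)
        rcases (hD i i.2).2.2.2.2.2.2.2.2.2 l with h2 | h2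
        · exact h2 (by rw [h, h1])
        · exact hAH h2
      off_disj := by
        intro i j l l' hij h
        rw [hoff_u, hoff_u] at h
        rw [hoff_u]
        by_contra hAH
        apply hij
        apply Subtype.ext
        exact hdisj i i.2 j j.2 (A i l) (hAZ _ _ hAH) (by
          rw [h]
          apply hAZ
          rw [← h]
          exact hAH) }
  have hcardι : Fintype.card S' = S'.card := Fintype.card_coe S'
  have hfin := case_W_count W (4 * (C₁ * Δ ^ 2)) k0 hHk hκ1 ht (by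
      rw [hcardι]
      calc 4 * Fintype.card V ≤ 4 * (C₁ * Δ ^ 2 * S'.card) := Nat.mul_le_mul_left _ hnm
        _ = _ := by ring) (by
      rw [hcardι]
      calc 4 * (4 * (C₁ * Δ ^ 2)) * (κ * t) = 16 * C₁ * Δ ^ 2 * κ * t := by ring
        _ ≤ 16 * C₁ * Δ ^ 2 * (d + 2) * t := by
            apply Nat.mul_le_mul_right
            exact Nat.mul_le_mul_left _ hκd
        _ ≤ _ := hmbig)
  have he1 : d ≤ κ - 1 + σ := by omega
  have he2 : κ - 1 + σ ≤ d + 1 := by omega
  calc t ^ d ≤ (t + 1) ^ d := Nat.pow_le_pow_left (Nat.le_succ _) _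
    _ ≤ (t + 1) ^ (κ - 1 + σ) := Nat.pow_le_pow_right (Nat.succ_pos _) he1
    _ ≤ (2 * k0 + 1) ^ (κ - 1 + σ) * tauIso G := hfin
    _ ≤ (2 * k0 + 1) ^ (d + 1) * tauIso G := by
        apply Nat.mul_le_mul_right
        exact Nat.pow_le_pow_right (Nat.succ_pos _) he2
    _ ≤ (16 * C₁ ^ 2 * (d + 2) + (2 * k0 + 1) ^ (d + 1)) * tauIso G := by
        apply Nat.mul_le_mul_right
        exact Nat.le_add_left _ _

end H35ST
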