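import Pool.Agent.H35.ST.Defs

/-! Module CORE-A: small dominating sets. -/

namespace H35ST

open Finset

variable {V : Type*} [Fintype V] [DecidableEq V]

/-- Minimum degree `≥ 10^6` gives a dominating set with at most `n / 400` vertices.
Write `N S` for the set of vertices in or adjacent to `S`. Take `S` of maximal cardinality with
`800 * S.card ≤ (N S).card` (the empty set qualifies). For every `x`, at most `799` vertices of
`N {x}` are outside `N S` (otherwise `insert x S` is better; `x ∉ S` automatically).
Let `D` be the complement of `N S`. Double counting of pairs `(y, x)`, `y ∈ D`, `x ∈ N {y}`: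
`D.card * (d + 1) ≤ 799 * n`, so `800 * D.card ≤ n`. Take `S ∪ D`. -/
theorem exists_dominating (G : SimpleGraph V) [DecidableRel G.Adj] (d : ℕ) (hd : 10 ^ 6 ≤ d)
    (hdeg : ∀ v, d ≤ (nb G v univ).card) :
    ∃ S : Finset V, (∀ v, v ∈ S ∨ ∃ s ∈ S, G.Adj v s) ∧ 400 * S.card ≤ Fintype.card V := by
  classical
  let N : Finset V → Finset V := fun S => univ.filter fun v => v ∈ S ∨ ∃ s ∈ S, G.Adj v s
  have hNmem : ∀ (S : Finset V) (v : V), v ∈ N S ↔ (v ∈ S ∨ ∃ s ∈ S, G.Adj v s) := by
    intro S v; simp [N]
  obtain ⟨S, hS, hmax⟩ := exists_max_image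
    (univ.filter fun S : Finset V => 800 * S.card ≤ (N S).card) card ⟨∅, by simp⟩
  simp only [mem_filter, mem_univ, true_and] at hS hmax
  -- the new vertices seen from `x`
  have hx : ∀ x, (univ.filter fun y => y ∉ N S ∧ (x = y ∨ G.Adj y x)).card ≤ 799 := by
    intro x
    by_contra hcon
    have hcon' : 800 ≤ (univ.filter fun y => y ∉ N S ∧ (x = y ∨ G.Adj y x)).card := by omega
    have hxS : x ∉ S := by
      intro hxS
      have : (univ.filter fun y => y ∉ N S ∧ (x = y ∨ G.Adj y x)) = ∅ := by
        apply filter_eq_empty_iff.2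
        rintro y - ⟨hy, h⟩
        apply hy
        rw [hNmem]
        rcases h with rfl | h
        · exact Or.inl hxS
        · exact Or.inr ⟨x, hxS, h⟩
      rw [this] at hcon'
      simp at hcon'
    have hsub : N S ∪ (univ.filter fun y => y ∉ N S ∧ (x = y ∨ G.Adj y x)) ⊆ N (insert x S) := by
      intro y hy
      rw [mem_union] at hy
      rw [hNmem]
      rcases hy with hy | hy
      · rw [hNmem] at hy
        rcases hy with hy | ⟨s, hs, hys⟩
        · exact Or.inl (mem_insert_of_mem hy)
        · exact Or.inr ⟨s, mem_insert_of_mem hs, hys⟩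
      · simp only [mem_filter, mem_univ, true_and] at hy
        rcases hy.2 with rfl | h
        · exact Or.inl (mem_insert_self _ _)
        · exact Or.inr ⟨x, mem_insert_self _ _, h⟩
    have hdisj : Disjoint (N S) (univ.filter fun y => y ∉ N S ∧ (x = y ∨ G.Adj y x)) := by
      rw [disjoint_left]
      intro y hy hy'
      simp only [mem_filter, mem_univ, true_and] at hy'
      exact hy'.1 hy
    have h1 := card_le_card hsub
    rw [card_union_of_disjoint hdisj] at h1
    have h2 : (insert x S).card = S.card + 1 := card_insert_of_notMem hxS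
    have h3 := hmax (insert x S) (by rw [h2]; omega)
    omega
  -- double counting
  set D : Finset V := univ.filter fun y => y ∉ N S with hD
  have hcount : D.card * (d + 1) ≤ 799 * Fintype.card V := by
    have h1 : ∑ y ∈ D, (univ.filter fun x => x = y ∨ G.Adj y x).card
        = ∑ x : V, (univ.filter fun y => y ∉ N S ∧ (x = y ∨ G.Adj y x)).card := by
      have h := sum_card_bipartiteAbove_eq_sum_card_bipartiteBelow (s := D) (t := (univ : Finset V))
        (fun y x => x = y ∨ G.Adj y x)
      simp only [bipartiteAbove, bipartiteBelow] at h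
      rw [h]
      refine sum_congr rfl fun x _ => ?_
      rw [hD, filter_filter]
    have h2 : ∀ y ∈ D, d + 1 ≤ (univ.filter fun x => x = y ∨ G.Adj y x).card := by
      intro y _
      have hsub : insert y (nb G y univ) ⊆ (univ.filter fun x => x = y ∨ G.Adj y x) := by
        intro z hz
        rw [mem_insert] at hz
        simp only [mem_filter, mem_univ, true_and]
        rcases hz with rfl | hz
        · exact Or.inl rfl
        · exact Or.inr (by simpa [nb] using hz)
      have hny : y ∉ nb G y univ := by simp [nb]
      have := card_le_card hsub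
      rw [card_insert_of_notMem hny] at this
      have := hdeg y
      omega
    calc D.card * (d + 1) = ∑ _y ∈ D, (d + 1) := by rw [sum_const, smul_eq_mul]
      _ ≤ ∑ y ∈ D, (univ.filter fun x => x = y ∨ G.Adj y x).card := sum_le_sum h2
      _ = ∑ x : V, (univ.filter fun y => y ∉ N S ∧ (x = y ∨ G.Adj y x)).card := h1
      _ ≤ ∑ _x : V, 799 := sum_le_sum fun x _ => hx x
      _ = 799 * Fintype.card V := by
        rw [sum_const, smul_eq_mul, card_univ, mul_comm]
  have hD2 : 800 * D.card ≤ Fintype.card V := by
    have : 800 * D.card * (d + 1) ≤ Fintype.card V * (d + 1) := by nlinarith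
    exact Nat.le_of_mul_le_mul_right this (by omega)
  have hNn : (N S).card ≤ Fintype.card V := card_le_univ _
  refine ⟨S ∪ D, ?_, ?_⟩
  · intro v
    by_cases hv : v ∈ N S
    · rw [hNmem] at hv
      rcases hv with hv | ⟨s, hs, hvs⟩
      · exact Or.inl (mem_union_left _ hv)
      · exact Or.inr ⟨s, mem_union_left _ hs, hvs⟩
    · exact Or.inl (mem_union_right _ (by simp [hD, hv]))
  · have := card_union_le S D
    omega

end H35ST
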