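import Pool.Agent.H35.ST.Defs

/-! Module CORE-B: connected dominating sets. -/

namespace H35ST

open Finset

variable {V : Type*} [Fintype V] [DecidableEq V]

omit [Fintype V] in
theorem induce_insert_connected (G : SimpleGraph V) {C : Finset V} {x c : V}
    (hC : (G.induce (C : Set V)).Connected) (hc : c ∈ C) (hx : G.Adj x c) :
    (G.induce ((insert x C : Finset V) : Set V)).Connected := by
  have h1 : (G.induce ({x, c} : Set V)).Connected := SimpleGraph.induce_pair_connected_of_adj hx
  have h2 := SimpleGraph.induce_union_connected (G := G) (s := (C : Set V)) (t := {x, c})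
    hC.preconnected h1.preconnected ⟨c, by exact_mod_cast hc, by simp⟩
  have h3 : ((C : Set V) ∪ {x, c}) = ((insert x C : Finset V) : Set V) := by
    ext v
    simp only [Set.mem_union, Finset.mem_coe, Set.mem_insert_iff, Set.mem_singleton_iff,
      Finset.coe_insert]
    constructor
    · rintro (h | h | h)
      · exact Or.inr h
      · exact Or.inl h
      · exact Or.inr (h ▸ hc)
    · rintro (h | h)
      · exact Or.inr (Or.inl h)
      · exact Or.inl h
  rw [h3] at h2
  exact h2

/-- From a dominating set `S` to a connected dominating set `C` with `|C| ≤ 3 |S|`.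
Among the nonempty `C` with `G.induce C` connected and `C.card ≤ 3 * (C ∩ S).card` take one with
`(C ∩ S).card` maximal (singletons `{s}`, `s ∈ S`, qualify). Let `B` be the set of the vertices in
`C` or adjacent to `C`. If `B ≠ univ` then `G` has an edge `x₁ x₂` with `x₁ ∈ B`, `x₂ ∉ B`;
`x₁ ∉ C`; `x₂` is in `S` or adjacent to some `s ∈ S`; let `s = x₂` or this neighbour; `s ∉ C` since
`x₂ ∉ B`. `C ∪ {x₁, x₂, s}` is connected and better: contradiction. -/
theorem exists_connected_dominating (G : SimpleGraph V) (hG : G.Connected) (S : Finset V)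
    (hS : ∀ v, v ∈ S ∨ ∃ s ∈ S, G.Adj v s) :
    ∃ C : Finset V, (G.induce (C : Set V)).Connected ∧ (∀ v, v ∈ C ∨ ∃ s ∈ C, G.Adj v s) ∧
      C.card ≤ 3 * S.card := by
  classical
  obtain ⟨v0⟩ := hG.nonempty
  have hSne : ∃ s0, s0 ∈ S := by
    rcases hS v0 with h | ⟨s, hs, _⟩
    · exact ⟨v0, h⟩
    · exact ⟨s, hs⟩
  obtain ⟨s0, hs0⟩ := hSne
  let F : Finset (Finset V) := univ.filter fun C =>
    (G.induce (C : Set V)).Connected ∧ C.card ≤ 3 * (C ∩ S).card
  have hF : F.Nonempty := by
    refine ⟨{s0}, ?_⟩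
    simp only [F, mem_filter, mem_univ, true_and]
    constructor
    · have : (({s0} : Finset V) : Set V) = {s0} := by simp
      rw [this]
      have : Subsingleton (({s0} : Set V) : Type _) := by
        constructor
        rintro ⟨a, ha⟩ ⟨b, hb⟩
        simp only [Set.mem_singleton_iff] at ha hb
        subst ha; subst hb; rfl
      exact { preconnected := fun a b => by rw [Subsingleton.elim a b], nonempty := ⟨⟨s0, rfl⟩⟩ }
    · have : ({s0} : Finset V) ∩ S = {s0} := by
        rw [Finset.inter_eq_left]; simpa using hs0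
      rw [this]; simp
  obtain ⟨C, hCF, hmax⟩ := Finset.exists_max_image F (fun C => (C ∩ S).card) hF
  simp only [F, mem_filter, mem_univ, true_and] at hCF hmax
  refine ⟨C, hCF.1, ?_, hCF.2.trans (Nat.mul_le_mul_left 3 (card_le_card inter_subset_right))⟩
  by_contra hcon
  push Not at hcon
  obtain ⟨w, hwC, hwadj⟩ := hcon
  obtain ⟨⟨u, hu⟩⟩ := hCF.1.nonempty
  have hu' : u ∈ C := by exact_mod_cast hu
  obtain ⟨p⟩ := hG.preconnected u w
  let B : Set V := {v | v ∈ C ∨ ∃ s ∈ C, G.Adj v s}
  have huB : u ∈ B := Or.inl hu'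
  have hwB : w ∉ B := by
    rintro (h | ⟨s, hs, h⟩)
    · exact hwC h
    · exact hwadj s hs h
  obtain ⟨d, _, hd1, hd2⟩ := p.exists_boundary_dart B huB hwB
  set x₁ := d.fst with hx1
  set x₂ := d.snd with hx2
  have hadj : G.Adj x₁ x₂ := d.adj
  have hx1C : x₁ ∉ C := fun h => hd2 (Or.inr ⟨x₁, h, hadj.symm⟩)
  obtain ⟨c, hcC, hc⟩ : ∃ s ∈ C, G.Adj x₁ s := by
    rcases hd1 with h | h
    · exact absurd h hx1C
    · exact h
  have hx2C : x₂ ∉ C := fun h => hd2 (Or.inl h)
  have hC1 := induce_insert_connected G hCF.1 hcC hc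
  have hC2 := induce_insert_connected G hC1 (mem_insert_self x₁ C) hadj.symm
  -- the vertex s
  obtain ⟨s, hsS, hs⟩ : ∃ s ∈ S, s = x₂ ∨ G.Adj x₂ s := by
    rcases hS x₂ with h | ⟨s, hs, h⟩
    · exact ⟨x₂, h, Or.inl rfl⟩
    · exact ⟨s, hs, Or.inr h⟩
  have hsC : s ∉ C := by
    intro h
    rcases hs with hs | hs
    · exact hx2C (hs ▸ h)
    · exact hd2 (Or.inr ⟨s, h, hs⟩)
  have hC3 : (G.induce ((insert s (insert x₂ (insert x₁ C)) : Finset V) : Set V)).Connected := by
    rcases hs with hs | hs
    · have : insert s (insert x₂ (insert x₁ C)) = insert x₂ (insert x₁ C) := by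
        rw [hs]; exact insert_eq_of_mem (mem_insert_self _ _)
      rw [this]; exact hC2
    · exact induce_insert_connected G hC2 (mem_insert_self _ _) hs.symm
  set C' := insert s (insert x₂ (insert x₁ C)) with hC'
  have hcard : C'.card ≤ C.card + 3 := by
    calc C'.card ≤ (insert x₂ (insert x₁ C)).card + 1 := card_insert_le _ _
      _ ≤ ((insert x₁ C).card + 1) + 1 := by gcongr; exact card_insert_le _ _
      _ ≤ ((C.card + 1) + 1) + 1 := by gcongr; exact card_insert_le _ _
      _ = C.card + 3 := by ring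
  have hinter : (C ∩ S).card + 1 ≤ (C' ∩ S).card := by
    have hsub : insert s (C ∩ S) ⊆ C' ∩ S := by
      intro v hv
      rw [mem_insert] at hv
      rcases hv with rfl | hv
      · exact mem_inter.2 ⟨mem_insert_self _ _, hsS⟩
      · rw [mem_inter] at hv
        refine mem_inter.2 ⟨?_, hv.2⟩
        simp only [hC', mem_insert]
        exact Or.inr (Or.inr (Or.inr hv.1))
    calc (C ∩ S).card + 1 = (insert s (C ∩ S)).card := by
          rw [card_insert_of_notMem]
          intro h; exact hsC (mem_inter.1 h).1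
      _ ≤ _ := card_le_card hsub
  have := hmax C' ⟨hC3, by
    have := hCF.2
    omega⟩
  omega

end H35ST
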