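import Pool.Agent.H35.ST.Defs

/-! Module CORE-C: from a connected dominating set to a core. -/

namespace H35ST

open Finset

variable {V : Type*} [Fintype V] [DecidableEq V]

/-- Let `r ∈ C`. Parent function: for `v ∈ C`, `v ≠ r`, a neighbour of `v` in `C` with smaller
distance to `r` in `G.induce C`; if `v ∉ C`: `r` if `v` is adjacent to `r`, otherwise any
neighbour in `C`. Height: the distance to `r` in `G.induce C` on `C`, and `card V + 1` outside
`C` (or any strict bound of these distances). All `G`-neighbours `v` of `r` have `P v = r` (for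
`v ∈ C` adjacent to `r` the distance is one). `I = {r} ∪ P '' {v | v ≠ r} ⊆ C`,
`K = I ∪ {one child for each vertex of I} ∪ {a second child of r}`. -/
theorem exists_core_of_connected_dominating (G : SimpleGraph V) [DecidableRel G.Adj]
    (C : Finset V) (hC : (G.induce (C : Set V)).Connected) (hdom : ∀ v, v ∈ C ∨ ∃ s ∈ C, G.Adj v s)
    (hdeg : ∀ v, 2 ≤ (nb G v univ).card) :
    ∃ c : Core G, c.K.card ≤ 2 * C.card + 1 := by
  classical
  obtain ⟨⟨r, hr⟩⟩ := hC.nonempty
  have hrC : r ∈ C := hr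
  -- distances in the induced graph
  obtain ⟨δ, hδ⟩ : ∃ δ : ↥(C : Set V) → ℕ, δ = fun v => (G.induce (C : Set V)).dist v ⟨r, hr⟩ :=
    ⟨_, rfl⟩
  have hstep : ∀ v : ↥(C : Set V), (v : V) ≠ r → ∃ w : ↥(C : Set V), G.Adj v w ∧ δ w < δ v := by
    intro v hv
    obtain ⟨p, hp⟩ := (hC.preconnected v ⟨r, hr⟩).exists_walk_length_eq_dist
    cases p with
    | nil => exact absurd rfl hv
    | cons h p' =>
      rename_i w
      refine ⟨w, h, ?_⟩
      have h1 := SimpleGraph.dist_le p'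
      rw [SimpleGraph.Walk.length_cons] at hp
      rw [hδ]
      show (G.induce (C : Set V)).dist w ⟨r, hr⟩ < (G.induce (C : Set V)).dist v ⟨r, hr⟩
      omega
  have hδr : ∀ v : ↥(C : Set V), δ v = 0 → (v : V) = r := by
    intro v hv
    by_contra hne
    obtain ⟨w, _, hw⟩ := hstep v hne
    omega
  have hδ1 : ∀ v : ↥(C : Set V), G.Adj v r → δ v ≤ 1 := by
    intro v hv
    have h1 : (G.induce (C : Set V)).Adj v ⟨r, hr⟩ := hv
    rw [hδ]
    show (G.induce (C : Set V)).dist v ⟨r, hr⟩ ≤ 1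
    exact (SimpleGraph.dist_le h1.toWalk)
  -- the parent function
  have hP : ∀ v, ∃ w, v ≠ r → (G.Adj v w ∧ w ∈ C ∧ (G.Adj v r → w = r) ∧
      ∀ hv : v ∈ C, ∀ hw : w ∈ C, δ ⟨w, hw⟩ < δ ⟨v, hv⟩) := by
    intro v
    by_cases hvr : v = r
    · exact ⟨r, fun h => absurd hvr h⟩
    by_cases hvC : v ∈ C
    · obtain ⟨w, hw1, hw2⟩ := hstep ⟨v, hvC⟩ hvr
      refine ⟨w, fun _ => ⟨hw1, w.2, ?_, fun _ _ => hw2⟩⟩
      intro hadj
      have h1 := hδ1 ⟨v, hvC⟩ hadj
      exact hδr w (by omega)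
    · by_cases hadj : G.Adj v r
      · exact ⟨r, fun _ => ⟨hadj, hrC, fun _ => rfl, fun hv => absurd hv hvC⟩⟩
      · rcases hdom v with h | ⟨s, hs, hvs⟩
        · exact absurd h hvC
        · exact ⟨s, fun _ => ⟨hvs, hs, fun h => absurd h hadj, fun hv => absurd hv hvC⟩⟩
  choose P hP using hP
  obtain ⟨M, hM⟩ : ∃ M, ∀ v : ↥(C : Set V), δ v < M :=
    ⟨(univ.sup δ) + 1, fun v => Nat.lt_succ_of_le (Finset.le_sup (Finset.mem_univ v))⟩
  obtain ⟨ht, hht⟩ : ∃ ht : V → ℕ, ht = fun v => if h : v ∈ C then δ ⟨v, h⟩ else M := ⟨_, rfl⟩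
  have hht1 : ∀ v (h : v ∈ C), ht v = δ ⟨v, h⟩ := by
    intro v h
    rw [hht]
    simp only [dif_pos h]
  have hht2 : ∀ v, v ∉ C → ht v = M := by
    intro v h
    rw [hht]
    simp only [dif_neg h]
  have hlt : ∀ v, v ≠ r → ht (P v) < ht v := by
    intro v hv
    obtain ⟨_, h2, _, h4⟩ := hP v hv
    rw [hht1 _ h2]
    by_cases hvC : v ∈ C
    · rw [hht1 _ hvC]
      exact h4 hvC h2
    · rw [hht2 _ hvC]
      exact hM _
  -- two children of the root
  obtain ⟨a, ha, b, hb, hab⟩ := Finset.one_lt_card.1 (lt_of_lt_of_le Nat.one_lt_two (hdeg r))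
  have hch : ∀ x ∈ nb G r univ, x ≠ r ∧ P x = r := by
    intro x hx
    have hadj : G.Adj r x := (Finset.mem_filter.1 hx).2
    exact ⟨hadj.ne', (hP x hadj.ne').2.2.1 hadj.symm⟩
  obtain ⟨I, hI⟩ : ∃ I : Finset V, I = insert r ((univ.filter fun v => v ≠ r).image P) := ⟨_, rfl⟩
  have hIC : I ⊆ C := by
    rw [hI]
    intro x hx
    rcases Finset.mem_insert.1 hx with rfl | hx
    · exact hrC
    · obtain ⟨v, hv, rfl⟩ := Finset.mem_image.1 hx
      exact (hP v (Finset.mem_filter.1 hv).2).2.1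
  have hg : ∀ c, ∃ v, c ∈ I → (v ≠ r ∧ P v = c) := by
    intro c
    by_cases hc : c ∈ I
    · rw [hI] at hc
      rcases Finset.mem_insert.1 hc with rfl | hc
      · exact ⟨a, fun _ => hch a ha⟩
      · obtain ⟨v, hv, rfl⟩ := Finset.mem_image.1 hc
        exact ⟨v, fun _ => ⟨(Finset.mem_filter.1 hv).2, rfl⟩⟩
    · exact ⟨c, fun h => absurd h hc⟩
  choose g hg using hg
  have hrI : r ∈ I := by rw [hI]; exact Finset.mem_insert_self _ _
  -- a second child of the root
  obtain ⟨b', hb'1, hb'2, hb'3⟩ : ∃ b', b' ≠ g r ∧ b' ≠ r ∧ P b' = r := by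
    by_cases h : a = g r
    · exact ⟨b, fun h2 => hab (h.trans h2.symm), (hch b hb).1, (hch b hb).2⟩
    · exact ⟨a, h, (hch a ha).1, (hch a ha).2⟩
  refine ⟨{ r := r, P := P, ht := ht, I := I, K := insert b' (I ∪ I.image g)
            adj := fun v hv => (hP v hv).1
            ht_lt := hlt
            par_mem := ?_
            r_mem := hrI
            I_sub := ?_
            child := ?_
            rchild := ?_ }, ?_⟩
  · intro v hv
    rw [hI]
    apply Finset.mem_insert_of_mem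
    exact Finset.mem_image_of_mem P (Finset.mem_filter.2 ⟨Finset.mem_univ _, hv⟩)
  · intro x hx
    exact Finset.mem_insert_of_mem (Finset.mem_union_left _ hx)
  · intro c hc _
    exact ⟨g c, Finset.mem_insert_of_mem (Finset.mem_union_right _ (Finset.mem_image_of_mem g hc)),
      (hg c hc).1, (hg c hc).2⟩
  · exact ⟨g r, Finset.mem_insert_of_mem (Finset.mem_union_right _ (Finset.mem_image_of_mem g hrI)),
      b', Finset.mem_insert_self _ _, hb'1.symm, (hg r hrI).1, hb'2, (hg r hrI).2, hb'3⟩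
  · show (insert b' (I ∪ I.image g)).card ≤ 2 * C.card + 1
    have h1 := Finset.card_insert_le b' (I ∪ I.image g)
    have h2 := Finset.card_union_le I (I.image g)
    have h3 : (I.image g).card ≤ I.card := Finset.card_image_le
    have h4 := Finset.card_le_card hIC
    omega

end H35ST
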