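import Pool.Agent.H35.ST.CoreA
import Pool.Agent.H35.ST.CoreB
import Pool.Agent.H35.ST.CoreC

/-! Cores exist. -/

namespace H35ST

open Finset

variable {V : Type*} [Fintype V] [DecidableEq V]

theorem exists_core (G : SimpleGraph V) [DecidableRel G.Adj] (hG : G.Connected) (d : ℕ)
    (hd : 10 ^ 6 ≤ d) (hdeg : ∀ v, d ≤ (nb G v univ).card) :
    ∃ c : Core G, 60 * c.K.card ≤ Fintype.card V := by
  obtain ⟨S, hS, hS2⟩ := exists_dominating G d hd hdeg
  obtain ⟨C, hC, hC2, hC3⟩ := exists_connected_dominating G hG S hS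
  obtain ⟨c, hc⟩ := exists_core_of_connected_dominating G C hC hC2
    (fun v => (le_trans (by norm_num) hd).trans (hdeg v))
  refine ⟨c, ?_⟩
  have hn : d ≤ Fintype.card V := by
    obtain ⟨v⟩ := hG.nonempty
    exact (hdeg v).trans (card_le_univ _)
  omega

end H35ST
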