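import Mathlib

/-!
# Non-isomorphic spanning trees (MP_1a137b_co): definitions

Trees are described by parent functions `f : V → V` with a root `r`.
-/

namespace H35ST

open Finset

variable {V : Type*} [Fintype V] [DecidableEq V]

/-- Two spanning trees of `G` are equivalent if they are isomorphic as graphs. -/
def isoSetoid (G : SimpleGraph V) : Setoid {T : SimpleGraph V // T ≤ G ∧ T.IsTree} where
  r T T' := Nonempty (T.1 ≃g T'.1)
  iseqv :=
    { refl := fun _ => ⟨SimpleGraph.Iso.refl⟩
      symm := fun ⟨e⟩ => ⟨e.symm⟩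
      trans := fun ⟨e⟩ ⟨e'⟩ => ⟨e.trans e'⟩ }

/-- The number of isomorphism classes of spanning trees of `G`. -/
noncomputable def tauIso (G : SimpleGraph V) : ℕ := Nat.card (Quotient (isoSetoid G))

/-- The graph with the edges `{v, f v}`, `v ≠ r`. -/
def parTree (r : V) (f : V → V) : SimpleGraph V :=
  SimpleGraph.fromRel (fun v w => v ≠ r ∧ w = f v)

/-- `f` is the parent function of a spanning tree of `G` with root `r`. -/
def IsPar (G : SimpleGraph V) (r : V) (f : V → V) : Prop :=
  (∀ v, v ≠ r → G.Adj v (f v)) ∧ ∃ ht : V → ℕ, ∀ v, v ≠ r → ht (f v) < ht v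

/-- The children of `x`. -/
def chn (r : V) (f : V → V) (x : V) : Finset V := univ.filter fun v => v ≠ r ∧ f v = x

/-- The degree of `x` in `parTree r f`. -/
def dg (r : V) (f : V → V) (x : V) : ℕ := (chn r f x).card + if x = r then 0 else 1

/-- (number of childless children, number of children with children plus one for the parent):
if the root has two children this is the pair (leaf neighbours, other neighbours). -/
def sg (r : V) (f : V → V) (x : V) : ℕ × ℕ :=
  (((chn r f x).filter fun v => chn r f v = ∅).card,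
   ((chn r f x).filter fun v => chn r f v ≠ ∅).card + if x = r then 0 else 1)

/-- The neighbours of `v` in `S`. -/
def nb (G : SimpleGraph V) [DecidableRel G.Adj] (v : V) (S : Finset V) : Finset V :=
  S.filter fun u => G.Adj v u

/-- A rooted spanning tree (parent function `P`, root `r`), the set `I` of vertices with children,
and a set `K ⊇ I` such that every vertex of `I` has a child in `K` (the root two). -/
structure Core (G : SimpleGraph V) where
  r : V
  P : V → V
  ht : V → ℕ
  I : Finset V
  K : Finset V
  adj : ∀ v, v ≠ r → G.Adj v (P v)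
  ht_lt : ∀ v, v ≠ r → ht (P v) < ht v
  par_mem : ∀ v, v ≠ r → P v ∈ I
  r_mem : r ∈ I
  I_sub : I ⊆ K
  child : ∀ c ∈ I, c ≠ r → ∃ v ∈ K, v ≠ r ∧ P v = c
  rchild : ∃ v ∈ K, ∃ w ∈ K, v ≠ w ∧ v ≠ r ∧ w ≠ r ∧ P v = r ∧ P w = r

/-- Enlarging `K`. -/
def Core.extend {G : SimpleGraph V} (c : Core G) (H : Finset V) : Core G where
  r := c.r
  P := c.P
  ht := c.ht
  I := c.I
  K := c.K ∪ H
  adj := c.adj
  ht_lt := c.ht_lt
  par_mem := c.par_mem
  r_mem := c.r_mem
  I_sub := c.I_sub.trans subset_union_left
  child := fun x hx hr => by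
    obtain ⟨v, hv, h⟩ := c.child x hx hr
    exact ⟨v, mem_union_left _ hv, h⟩
  rchild := by
    obtain ⟨v, hv, w, hw, h⟩ := c.rchild
    exact ⟨v, mem_union_left _ hv, w, mem_union_left _ hw, h⟩

/-- Attach `x ∈ X` to `on x` if `x ∈ J` and to `off x` otherwise; the other vertices to `P`. -/
def tog (P on off : V → V) (X J : Finset V) (v : V) : V :=
  if v ∈ X then (if v ∈ J then on v else off v) else P v

end H35ST
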