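import Pool.Agent.H35.ST.Defs

/-! Module RICH: few vertices have many neighbours outside the core without being rich. -/

namespace H35ST

open Finset

variable {V : Type*} [Fintype V] [DecidableEq V]

/-- For such a `u`: `d / 10 ≤ |nb u U|` and `2 q ≤ d / 10 ≤ |nb u U|`, so fewer than `q` of the
`y ∈ nb u U` have `3 q + 1 ≤ |nb y U|`; so at least `d / 10 - q` have `|nb y U| ≤ 3 q`. Count the pairs
`(u, y)` with `y` of this kind: each such `y` is in at most `3 q` of them. -/
theorem rich_count (G : SimpleGraph V) [DecidableRel G.Adj] (U : Finset V) (d q : ℕ)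
    (hd : 20 * q ≤ d) :
    (d / 10 - q) * (U.filter fun u => d ≤ 10 * (nb G u U).card ∧
      ¬ (2 * q ≤ (nb G u U).card ∧
        q ≤ ((nb G u U).filter fun y => 3 * q + 1 ≤ (nb G y U).card).card)).card ≤
      3 * q * U.card := by
  classical
  have key := Finset.card_mul_le_card_mul (r := G.Adj)
    (s := U.filter fun u => d ≤ 10 * (nb G u U).card ∧
      ¬ (2 * q ≤ (nb G u U).card ∧
        q ≤ ((nb G u U).filter fun y => 3 * q + 1 ≤ (nb G y U).card).card))
    (t := U.filter fun y => (nb G y U).card ≤ 3 * q) (m := d / 10 - q) (n := 3 * q) ?_ ?_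
  · calc (d / 10 - q) * (U.filter fun u => d ≤ 10 * (nb G u U).card ∧
      ¬ (2 * q ≤ (nb G u U).card ∧
        q ≤ ((nb G u U).filter fun y => 3 * q + 1 ≤ (nb G y U).card).card)).card
        = (U.filter fun u => d ≤ 10 * (nb G u U).card ∧
      ¬ (2 * q ≤ (nb G u U).card ∧
        q ≤ ((nb G u U).filter fun y => 3 * q + 1 ≤ (nb G y U).card).card)).card *
          (d / 10 - q) := Nat.mul_comm _ _
      _ ≤ (U.filter fun y => (nb G y U).card ≤ 3 * q).card * (3 * q) := key
      _ ≤ U.card * (3 * q) := Nat.mul_le_mul_right _ (Finset.card_filter_le _ _)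
      _ = 3 * q * U.card := Nat.mul_comm _ _
  · intro u hu
    rw [mem_filter] at hu
    obtain ⟨-, hu1, hu2⟩ := hu
    have h3 : ((nb G u U).filter fun y => 3 * q + 1 ≤ (nb G y U).card).card < q := by
      by_contra hcon
      exact hu2 ⟨by omega, by omega⟩
    have h4 := Finset.card_filter_add_card_filter_not (s := nb G u U)
      (fun y => 3 * q + 1 ≤ (nb G y U).card)
    have h5 : ((nb G u U).filter fun y => ¬ (3 * q + 1 ≤ (nb G y U).card)) ⊆
        (U.filter fun y => (nb G y U).card ≤ 3 * q).bipartiteAbove G.Adj u := by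
      intro y hy
      rw [mem_filter] at hy
      have hy1 := hy.1
      unfold nb at hy1
      rw [mem_filter] at hy1
      rw [Finset.mem_bipartiteAbove, mem_filter]
      exact ⟨⟨hy1.1, by omega⟩, hy1.2⟩
    have h6 := Finset.card_le_card h5
    omega
  · intro y hy
    rw [mem_filter] at hy
    have h5 : (U.filter fun u => d ≤ 10 * (nb G u U).card ∧
      ¬ (2 * q ≤ (nb G u U).card ∧
        q ≤ ((nb G u U).filter fun y => 3 * q + 1 ≤ (nb G y U).card).card)).bipartiteBelow
          G.Adj y ⊆ nb G y U := by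
      intro u hu
      rw [Finset.mem_bipartiteBelow, mem_filter] at hu
      unfold nb
      rw [mem_filter]
      exact ⟨hu.1.1, hu.2.symm⟩
    exact (Finset.card_le_card h5).trans hy.2

end H35ST
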