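import Pool.Agent.H35.ST.CoreD
import Pool.Agent.H35.ST.Case1
import Pool.Agent.H35.ST.Case2b
import Pool.Agent.H35.ST.CaseBb
import Pool.Agent.H35.ST.CaseRc
import Pool.Agent.H35.ST.CaseWd
import Pool.Agent.H35.ST.Rich

/-! Final assembly. -/

namespace H35ST

open Finset

theorem nb_split {V : Type} [Fintype V] [DecidableEq V] (G : SimpleGraph V) [DecidableRel G.Adj]
    (v : V) (K H : Finset V) (hHK : H ⊆ K) :
    (nb G v univ).card = (nb G v H).card + (nb G v (K \ H)).card + (nb G v Kᶜ).card := by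
  have h1 : nb G v univ = (nb G v H ∪ nb G v (K \ H)) ∪ nb G v Kᶜ := by
    ext x
    simp only [nb, mem_filter, mem_univ, true_and, mem_union, mem_sdiff, mem_compl]
    constructor
    · intro h
      by_cases hK : x ∈ K
      · by_cases hH : x ∈ H
        · exact Or.inl (Or.inl ⟨hH, h⟩)
        · exact Or.inl (Or.inr ⟨⟨hK, hH⟩, h⟩)
      · exact Or.inr ⟨hK, h⟩
    · rintro ((h | h) | h)
      · exact h.2
      · exact h.2
      · exact h.2
  rw [h1, card_union_of_disjoint, card_union_of_disjoint]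
  · rw [disjoint_left]
    intro x hx hx'
    simp only [nb, mem_filter, mem_sdiff] at hx hx'
    exact hx'.1.2 hx.1
  · rw [disjoint_left]
    intro x hx hx'
    simp only [nb, mem_filter, mem_sdiff, mem_union, mem_compl] at hx hx'
    rcases hx with hx | hx
    · exact hx'.1 (hHK hx.1)
    · exact hx'.1 hx.1.1

theorem finish_lin (n C d τ : ℕ) (hC : 0 < C) (hn : C ≤ n)
    (h : ∀ t, C * t ≤ n → t ^ (d - 1) ≤ C * τ) : n ^ (d - 1) ≤ (2 * C) ^ (d - 1) * C * τ := by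
  have ht := h (n / C) (Nat.mul_div_le n C)
  have h1 : n ≤ 2 * C * (n / C) := by
    have h2 := Nat.lt_mul_div_succ n hC
    have h3 : 1 ≤ n / C := (Nat.one_le_div_iff hC).2 hn
    nlinarith
  calc n ^ (d - 1) ≤ (2 * C * (n / C)) ^ (d - 1) := Nat.pow_le_pow_left h1 _
    _ = (2 * C) ^ (d - 1) * (n / C) ^ (d - 1) := by rw [mul_pow]
    _ ≤ (2 * C) ^ (d - 1) * (C * τ) := Nat.mul_le_mul_left _ ht
    _ = (2 * C) ^ (d - 1) * C * τ := by ring

theorem finish_pow (n C d τ M : ℕ) (hd : 1 ≤ d) (hC : 0 < C) (hM : C ≤ M) (hn : M ^ (100 * d) ≤ n)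
    (hM1 : 1 ≤ M)
    (h : ∀ t, 1 ≤ t → C * (M ^ 4) ^ 4 * t ≤ n → t ^ d ≤ C * τ) :
    n ^ (d - 1) ≤ (2 * C) ^ d * C * τ := by
  set D := C * (M ^ 4) ^ 4 with hD
  have hDpos : 0 < D := by positivity
  have hDn : D ≤ n := by
    calc D = C * M ^ 16 := by rw [hD, ← pow_mul]
      _ ≤ M * M ^ 16 := Nat.mul_le_mul_right _ hM
      _ = M ^ 17 := by ring
      _ ≤ M ^ (100 * d) := Nat.pow_le_pow_right hM1 (by omega)
      _ ≤ n := hn
  have ht1 : 1 ≤ n / D := (Nat.one_le_div_iff hDpos).2 hDn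
  have ht := h (n / D) ht1 (Nat.mul_div_le n D)
  have h1 : n ≤ 2 * D * (n / D) := by
    have h2 := Nat.lt_mul_div_succ n hDpos
    nlinarith
  have hnpos : 0 < n := lt_of_lt_of_le hDpos hDn
  have h3 : n ^ d ≤ (2 * C) ^ d * C * τ * n := by
    calc n ^ d ≤ (2 * D * (n / D)) ^ d := Nat.pow_le_pow_left h1 _
      _ = (2 * C) ^ d * (M ^ (16 * d)) * (n / D) ^ d := by
        rw [hD, show 2 * (C * (M ^ 4) ^ 4) * (n / (C * (M ^ 4) ^ 4)) =
          (2 * C) * M ^ 16 * (n / (C * (M ^ 4) ^ 4)) by ring, mul_pow, mul_pow, ← pow_mul M]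
      _ ≤ (2 * C) ^ d * (M ^ (16 * d)) * (C * τ) := Nat.mul_le_mul_left _ ht
      _ ≤ (2 * C) ^ d * n * (C * τ) := by
        apply Nat.mul_le_mul_right
        apply Nat.mul_le_mul_left
        exact (Nat.pow_le_pow_right hM1 (by omega)).trans hn
      _ = (2 * C) ^ d * C * τ * n := by ring
  have h4 : n ^ d = n ^ (d - 1) * n := by
    rw [← pow_succ]
    congr 1
    omega
  rw [h4] at h3
  exact Nat.le_of_mul_le_mul_right h3 hnpos

/-- The case of many hubs. -/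
theorem many_hubs (d E k M n τ : ℕ) (hk : k = 2 * E * d) (hM : 3 ≤ M)
    (hn : n < (M + 1) ^ E) (h : (M / 2 + 1) ^ k ≤ (4 * k) ^ k * τ) (hd : 1 ≤ d) (hn1 : 1 ≤ n) :
    n ^ (d - 1) ≤ (4 * k) ^ k * τ := by
  have h1 : M + 1 ≤ (M / 2 + 1) ^ 2 := by
    have : M ≤ 2 * (M / 2) + 1 := by omega
    have h2 : 1 ≤ M / 2 := by omega
    nlinarith
  calc n ^ (d - 1) ≤ n ^ d := Nat.pow_le_pow_right hn1 (by omega)
    _ ≤ ((M + 1) ^ E) ^ d := Nat.pow_le_pow_left hn.le _
    _ ≤ (((M / 2 + 1) ^ 2) ^ E) ^ d :=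
      Nat.pow_le_pow_left (Nat.pow_le_pow_left h1 _) _
    _ = (M / 2 + 1) ^ k := by rw [← pow_mul, ← pow_mul, hk, mul_assoc]
    _ ≤ (4 * k) ^ k * τ := h

theorem exists_root (n E M₀ : ℕ) (hE : 1 ≤ E) (hn : M₀ ^ E ≤ n) :
    ∃ M, M₀ ≤ M ∧ M ^ E ≤ n ∧ n < (M + 1) ^ E := by
  have hex : ∃ m, n < (m + 1) ^ E := by
    refine ⟨n, ?_⟩
    calc n < n + 1 := Nat.lt_succ_self n
      _ = (n + 1) ^ 1 := (pow_one _).symm
      _ ≤ (n + 1) ^ E := Nat.pow_le_pow_right (Nat.succ_pos n) hE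
  classical
  let M := Nat.find hex
  have hM := Nat.find_spec hex
  refine ⟨M, ?_, ?_, hM⟩
  · by_contra hlt
    push Not at hlt
    have : (M + 1) ^ E ≤ M₀ ^ E := Nat.pow_le_pow_left hlt _
    exact absurd (hM.trans_le (this.trans hn)) (lt_irrefl _)
  · rcases Nat.eq_zero_or_pos M with h0 | hpos
    · rw [h0, zero_pow (by omega)]
      exact Nat.zero_le _
    · have := Nat.find_min hex (m := M - 1) (by omega)
      push Not at this
      rwa [Nat.sub_add_cancel hpos] at this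

/-- The arithmetic of the last case. -/
theorem arith_W (d s t j : ℕ) (hd : 100 ≤ d) (h : d ≤ s + t + j) (hs : s < d) (hj : 10 * j < d)
    (hB : ¬ ((d + 1) / 2 + 1 ≤ s ∧ 1 ≤ j)) : (d - s + 1) / 2 ≤ t := by
  omega

theorem sqrt_bounds (d : ℕ) (hd : 10 ^ 8 ≤ d) :
    d + 6 * (Nat.sqrt d + 8) + 2 ≤ (Nat.sqrt d + 8) ^ 2 ∧
      300 * (Nat.sqrt d + 8) ≤ d / 10 - (Nat.sqrt d + 8) ∧ 20 * (Nat.sqrt d + 8) ≤ d := by
  set r := Nat.sqrt d with hr
  have h1 : r * r ≤ d := Nat.sqrt_le d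
  have h2 : d < (r + 1) * (r + 1) := Nat.lt_succ_sqrt d
  have h3 : 10000 ≤ r := by
    rw [hr, Nat.le_sqrt]
    omega
  refine ⟨by nlinarith, ?_, by nlinarith⟩
  have h4 : 3010 * (r + 8) + 10 ≤ d := by nlinarith
  omega

theorem main (d : ℕ) (hd : 10 ^ 8 ≤ d) : ∃ C N : ℕ, 0 < C ∧
    ∀ (V : Type) [Fintype V] [DecidableEq V] (G : SimpleGraph V) [DecidableRel G.Adj],
      N ≤ Fintype.card V → G.Connected → (∀ v, d ≤ (nb G v univ).card) →
      Fintype.card V ^ (d - 1) ≤ C * tauIso G := by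
  obtain ⟨hq1, hq2, hq3⟩ := sqrt_bounds d hd
  set q := Nat.sqrt d + 8 with hq
  set E := 100 * d with hE
  set k := 2 * E * d with hk
  obtain ⟨C2, hC2, H2⟩ := case_two' d (6 * k) (by omega)
  obtain ⟨CB, hCB, HB⟩ := case_B' d (6 * k) (by omega)
  obtain ⟨CR, hCR, HR⟩ := case_R' d (6 * k) q (by omega) hq1
  obtain ⟨CW, hCW, HW⟩ := case_W' d (6 * k) (by omega)
  set M₀ := 100 * (k + 1) + C2 + CB + CR + CW + 3000 * k + 1000 with hM₀
  refine ⟨(4 * k) ^ k + (2 * C2) ^ (d - 1) * C2 + (2 * CB) ^ d * CB + (2 * CR) ^ d * CR +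
    (2 * CW) ^ d * CW, M₀ ^ E, by positivity, ?_⟩
  intro V _ _ G _ hN hG hdeg
  set n := Fintype.card V with hn
  obtain ⟨M, hM1, hM2, hM3⟩ := exists_root n E M₀ (by omega) hN
  have hMn : M ≤ n := (Nat.le_self_pow (by omega) M).trans hM2
  obtain ⟨c, hc⟩ := exists_core G hG d (le_trans (by norm_num) hd) hdeg
  set H₀ := (univ : Finset V).filter (fun h => M ^ 4 ≤ (nb G h c.Kᶜ).card) with hH₀
  by_cases hcase : 6 * k ≤ H₀.card
  · -- many hubs
    obtain ⟨H, hHsub, hHcard⟩ := exists_subset_card_eq hcase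
    have h1 := case_one (c.extend H) H M k subset_union_right hHcard (by omega)
      (fun v => (show 2 ≤ d by omega).trans (hdeg v)) (by
        intro h hh
        have h2 : M ^ 4 ≤ (nb G h c.Kᶜ).card := by
          have := hHsub hh
          rw [hH₀, mem_filter] at this
          exact this.2
        have h3 : nb G h c.Kᶜ ⊆ nb G h (c.extend H).Kᶜ ∪ H := by
          intro x hx
          simp only [nb, mem_filter, mem_compl, mem_union, Core.extend] at hx ⊢
          by_cases hxH : x ∈ H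
          · exact Or.inr hxH
          · exact Or.inl ⟨by rintro (h | h); exacts [hx.1 h, hxH h], hx.2⟩
        have h4 := (card_le_card h3).trans (card_union_le _ _)
        omega)
    have h5 := many_hubs d E k M n _ rfl (by omega) hM3 h1 (by omega) (by omega)
    calc n ^ (d - 1) ≤ (4 * k) ^ k * tauIso G := h5
      _ ≤ _ := Nat.mul_le_mul_right _ (by
        have e1 := Nat.zero_le ((2 * C2) ^ (d - 1) * C2)
        have e2 := Nat.zero_le ((2 * CB) ^ d * CB)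
        have e3 := Nat.zero_le ((2 * CR) ^ d * CR)
        have e4 := Nat.zero_le ((2 * CW) ^ d * CW)
        omega)
  · push Not at hcase
    set c' := c.extend H₀ with hc'
    have hHK : H₀ ⊆ c'.K := subset_union_right
    have hKcard : c'.K.card ≤ c.K.card + H₀.card := card_union_le _ _
    have hK50 : 50 * c'.K.card ≤ n := by omega
    have hMpos : 1 ≤ M := by omega
    have hΔ1 : 1 ≤ M ^ 4 := Nat.one_le_pow _ _ hMpos
    have hΔM : M ≤ M ^ 4 := Nat.le_self_pow (by norm_num) M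
    have hlow : ∀ v, v ∉ H₀ → (nb G v c'.Kᶜ).card < M ^ 4 := by
      intro v hv
      have h1 : (nb G v c.Kᶜ).card < M ^ 4 := by
        by_contra hcon
        push Not at hcon
        exact hv (by rw [hH₀, mem_filter]; exact ⟨mem_univ _, hcon⟩)
      refine lt_of_le_of_lt (card_le_card ?_) h1
      intro x hx
      simp only [nb, mem_filter, mem_compl] at hx ⊢
      exact ⟨fun h => hx.1 (mem_union_left _ h), hx.2⟩
    have hfin : ∀ X, X ≤ (4 * k) ^ k + (2 * C2) ^ (d - 1) * C2 + (2 * CB) ^ d * CB +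
        (2 * CR) ^ d * CR + (2 * CW) ^ d * CW → n ^ (d - 1) ≤ X * tauIso G →
        n ^ (d - 1) ≤ ((4 * k) ^ k + (2 * C2) ^ (d - 1) * C2 + (2 * CB) ^ d * CB +
        (2 * CR) ^ d * CR + (2 * CW) ^ d * CW) * tauIso G := fun X h1 h2 =>
      h2.trans (Nat.mul_le_mul_right _ h1)
    have e0 := Nat.zero_le ((4 * k) ^ k)
    have e1 := Nat.zero_le ((2 * C2) ^ (d - 1) * C2)
    have e2 := Nat.zero_le ((2 * CB) ^ d * CB)
    have e3 := Nat.zero_le ((2 * CR) ^ d * CR)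
    have e4 := Nat.zero_le ((2 * CW) ^ d * CW)
    -- Case 2
    by_cases h2 : n ≤ 10 * (c'.Kᶜ.filter fun u => d ≤ (nb G u H₀).card).card
    · refine hfin ((2 * C2) ^ (d - 1) * C2) (by omega) ?_
      exact finish_lin n C2 d _ hC2 (by omega)
        (fun t ht => H2 V G c' H₀ t hHK hcase.le h2 ht)
    -- Case B
    by_cases hB : n ≤ M ^ 4 * (c'.Kᶜ.filter fun u =>
        (d + 1) / 2 + 1 ≤ (nb G u H₀).card ∧ 1 ≤ (nb G u c'.Kᶜ).card).card
    · refine hfin ((2 * CB) ^ d * CB) (by omega) ?_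
      exact finish_pow n CB d _ M (by omega) hCB (by omega) hM2 hMpos
        (fun t ht1 ht => HB V G c' H₀ (M ^ 4) t hHK hcase.le hΔ1 ht1 hlow hB ht)
    -- Case R
    by_cases hR : n ≤ M ^ 4 * (c'.Kᶜ.filter fun v => 2 * q ≤ (nb G v c'.Kᶜ).card ∧
        q ≤ ((nb G v c'.Kᶜ).filter fun y => 3 * q + 1 ≤ (nb G y c'.Kᶜ).card).card).card
    · refine hfin ((2 * CR) ^ d * CR) (by omega) ?_
      exact finish_pow n CR d _ M (by omega) hCR (by omega) hM2 hMpos
        (fun t ht1 ht => HR V G c' H₀ (M ^ 4) t hHK hcase.le hΔ1 ht1 hlow hR ht)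
    -- Case W
    have hX := rich_count G c'.Kᶜ d q hq3
    set A2 := c'.Kᶜ.filter fun u => d ≤ (nb G u H₀).card with hA2
    set AB := c'.Kᶜ.filter fun u =>
        (d + 1) / 2 + 1 ≤ (nb G u H₀).card ∧ 1 ≤ (nb G u c'.Kᶜ).card with hAB
    set AR := c'.Kᶜ.filter fun v => 2 * q ≤ (nb G v c'.Kᶜ).card ∧
        q ≤ ((nb G v c'.Kᶜ).filter fun y => 3 * q + 1 ≤ (nb G y c'.Kᶜ).card).card with hAR
    set AX := c'.Kᶜ.filter fun u => d ≤ 10 * (nb G u c'.Kᶜ).card ∧
      ¬ (2 * q ≤ (nb G u c'.Kᶜ).card ∧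
        q ≤ ((nb G u c'.Kᶜ).filter fun y => 3 * q + 1 ≤ (nb G y c'.Kᶜ).card).card) with hAX
    push Not at h2 hB hR
    set V₁ := c'.Kᶜ \ (A2 ∪ AB ∪ AR ∪ AX) with hV₁
    have hUcard : c'.Kᶜ.card + c'.K.card = n := by
      rw [card_compl]
      have := card_le_univ c'.K
      omega
    have hV₁card : c'.Kᶜ.card ≤ V₁.card + (A2.card + AB.card + AR.card + AX.card) := by
      have h5 : c'.Kᶜ ⊆ V₁ ∪ (A2 ∪ AB ∪ AR ∪ AX) := by
        intro x hx
        rw [mem_union, hV₁, mem_sdiff]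
        by_cases hx' : x ∈ A2 ∪ AB ∪ AR ∪ AX
        · exact Or.inr hx'
        · exact Or.inl ⟨hx, hx'⟩
      have h6 := (card_le_card h5).trans (card_union_le _ _)
      have h7 := card_union_le (A2 ∪ AB ∪ AR) AX
      have h8 := card_union_le (A2 ∪ AB) AR
      have h9 := card_union_le A2 AB
      omega
    have hAXcard : 100 * AX.card ≤ n := by
      have h5 : 3 * q * (100 * AX.card) ≤ 3 * q * n := by
        calc 3 * q * (100 * AX.card) = 300 * q * AX.card := by ring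
          _ ≤ (d / 10 - q) * AX.card := Nat.mul_le_mul_right _ hq2
          _ ≤ 3 * q * c'.Kᶜ.card := hX
          _ ≤ 3 * q * n := Nat.mul_le_mul_left _ (card_le_univ _)
      exact Nat.le_of_mul_le_mul_left h5 (by omega)
    have hABcard : 1000 * AB.card ≤ n :=
      (Nat.mul_le_mul_right _ (show 1000 ≤ M ^ 4 by omega)).trans hB.le
    have hARcard : 1000 * AR.card ≤ n :=
      (Nat.mul_le_mul_right _ (show 1000 ≤ M ^ 4 by omega)).trans hR.le
    have hmem : ∀ u ∈ V₁, u ∈ c'.Kᶜ ∧ (nb G u H₀).card < d ∧ 10 * (nb G u c'.Kᶜ).card < d ∧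
        ¬ ((d + 1) / 2 + 1 ≤ (nb G u H₀).card ∧ 1 ≤ (nb G u c'.Kᶜ).card) := by
      intro u hu
      rw [hV₁, mem_sdiff] at hu
      obtain ⟨hu1, hu2⟩ := hu
      simp only [mem_union, not_or] at hu2
      obtain ⟨⟨⟨n1, n2⟩, n3⟩, n4⟩ := hu2
      rw [hA2, mem_filter, not_and] at n1
      rw [hAB, mem_filter, not_and] at n2
      rw [hAR, mem_filter, not_and] at n3
      rw [hAX, mem_filter, not_and] at n4
      refine ⟨hu1, not_le.1 (n1 hu1), ?_, n2 hu1⟩
      by_contra hcon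
      push Not at hcon
      exact n4 hu1 ⟨hcon, n3 hu1⟩
    refine hfin ((2 * CW) ^ d * CW) (by omega) ?_
    refine finish_pow n CW d _ M (by omega) hCW (by omega) hM2 hMpos
      (fun t ht1 ht => HW V G c' H₀ V₁ (M ^ 4) t hHK hcase.le hΔ1 ht1 hlow ?_ ?_ ?_ ?_ ht)
    · exact fun u hu => (hmem u hu).1
    · exact fun u hu => (hmem u hu).2.1
    · intro u hu
      obtain ⟨-, m1, m2, m3⟩ := hmem u hu
      have hdu := hdeg u
      rw [nb_split G u c'.K H₀ hHK] at hdu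
      exact arith_W d _ _ _ (by omega) hdu m1 m2 m3
    · omega

/-- There is `d₀` such that for every `d ≥ d₀` there are `c > 0` and `N` such that every connected
graph `G` on `n ≥ N` vertices with minimum degree at least `d` has at least `c * n ^ (d - 1)`
pairwise non-isomorphic spanning trees. -/
theorem main_fin : ∃ d₀ : ℕ, ∀ d : ℕ, d₀ ≤ d → ∃ c : ℝ, 0 < c ∧ ∃ N : ℕ, ∀ n : ℕ, N ≤ n →
    ∀ G : SimpleGraph (Fin n), G.Connected → (∀ v, d ≤ (G.neighborSet v).ncard) →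
      c * (n : ℝ) ^ (d - 1) ≤ (tauIso G : ℝ) := by
  refine ⟨10 ^ 8, fun d hd => ?_⟩
  obtain ⟨C, N, hC, h⟩ := main d hd
  refine ⟨1 / (C : ℝ), by positivity, N, fun n hn G hG hdeg => ?_⟩
  classical
  have h1 := h (Fin n) G (by rwa [Fintype.card_fin]) hG (by
    intro v
    refine (hdeg v).trans (le_of_eq ?_)
    rw [Set.ncard_eq_toFinset_card']
    congr 1
    ext x
    simp [nb])
  rw [Fintype.card_fin] at h1
  have h2 : ((n ^ (d - 1) : ℕ) : ℝ) ≤ ((C * tauIso G : ℕ) : ℝ) := by exact_mod_cast h1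
  push_cast at h2
  rw [div_mul_eq_mul_div, one_mul, div_le_iff₀ (by positivity)]
  linarith

end H35ST
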