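import Pool.Agent.H35.ST.Defs

/-! Module TREE-A: parent functions give spanning trees. -/

namespace H35ST

open Finset

variable {V : Type*} [Fintype V] [DecidableEq V]

theorem IsPar.ne {G : SimpleGraph V} {r : V} {f : V → V} (hf : IsPar G r f) {v : V}
    (hv : v ≠ r) : f v ≠ v := by
  obtain ⟨-, ht, hht⟩ := hf
  intro h
  have := hht v hv
  rw [h] at this
  exact lt_irrefl _ this

/-- Adjacency in `parTree` (for a parent function with a height). -/
theorem parTree_adj {G : SimpleGraph V} {r : V} {f : V → V} (hf : IsPar G r f) (v w : V) :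
    (parTree r f).Adj v w ↔ (v ≠ r ∧ f v = w) ∨ (w ≠ r ∧ f w = v) := by
  unfold parTree
  rw [SimpleGraph.fromRel_adj]
  constructor
  · rintro ⟨-, ⟨h1, h2⟩ | ⟨h1, h2⟩⟩
    · exact Or.inl ⟨h1, h2.symm⟩
    · exact Or.inr ⟨h1, h2.symm⟩
  · rintro (⟨h1, h2⟩ | ⟨h1, h2⟩)
    · refine ⟨?_, Or.inl ⟨h1, h2.symm⟩⟩
      rw [← h2]
      exact (hf.ne h1).symm
    · refine ⟨?_, Or.inr ⟨h1, h2.symm⟩⟩
      rw [← h2]
      exact hf.ne h1

theorem parTree_le {G : SimpleGraph V} {r : V} {f : V → V} (hf : IsPar G r f) :
    parTree r f ≤ G := by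
  intro v w h
  rcases (parTree_adj hf v w).1 h with ⟨h1, h2⟩ | ⟨h1, h2⟩
  · rw [← h2]
    exact hf.1 v h1
  · rw [← h2]
    exact (hf.1 w h1).symm

/-- Connected: induction on the height, every vertex reaches `r`. The edges are the images of
`v ≠ r` under `v ↦ s(v, f v)`, so there are at most `card V - 1`; use
`SimpleGraph.isTree_iff_connected_and_card` and `SimpleGraph.Connected.card_vert_le_card_edgeSet_add_one`. -/
theorem parTree_isTree {G : SimpleGraph V} {r : V} {f : V → V} (hf : IsPar G r f) :
    (parTree r f).IsTree := by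
  obtain ⟨ht, hht⟩ := hf.2
  have hreach : ∀ n v, ht v ≤ n → (parTree r f).Reachable v r := by
    intro n
    induction n with
    | zero =>
      intro v hv
      by_cases h : v = r
      · rw [h]
      · have := hht v h
        omega
    | succ n ih =>
      intro v hv
      by_cases h : v = r
      · rw [h]
      · have h1 := hht v h
        have h2 : (parTree r f).Adj v (f v) := (parTree_adj hf v (f v)).2 (Or.inl ⟨h, rfl⟩)
        exact h2.reachable.trans (ih (f v) (by omega))
  have hconn : (parTree r f).Connected := by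
    have : Nonempty V := ⟨r⟩
    refine ⟨fun v w => ?_⟩
    exact (hreach _ v le_rfl).trans (hreach _ w le_rfl).symm
  rw [SimpleGraph.isTree_iff_connected_and_card]
  refine ⟨hconn, le_antisymm ?_ ?_⟩
  · have hsub : (parTree r f).edgeSet ⊆
        ((univ.erase r).image fun v => s(v, f v) : Finset (Sym2 V)) := by
      intro e
      induction e using Sym2.ind with
      | _ v w =>
        intro he
        rw [SimpleGraph.mem_edgeSet] at he
        rw [Finset.mem_coe, Finset.mem_image]
        rcases (parTree_adj hf v w).1 he with ⟨h1, h2⟩ | ⟨h1, h2⟩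
        · exact ⟨v, by simp [h1], by rw [h2]⟩
        · exact ⟨w, by simp [h1], by rw [h2, Sym2.eq_swap]⟩
    have h1 : Nat.card (parTree r f).edgeSet ≤ (univ.erase r : Finset V).card := by
      rw [Nat.card_coe_set_eq]
      calc (parTree r f).edgeSet.ncard
          ≤ (((univ.erase r).image fun v => s(v, f v) : Finset (Sym2 V)) : Set (Sym2 V)).ncard :=
            Set.ncard_le_ncard hsub (Finset.finite_toSet _)
        _ = ((univ.erase r).image fun v => s(v, f v)).card := Set.ncard_coe_finset _
        _ ≤ _ := Finset.card_image_le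
    rw [Finset.card_erase_of_mem (mem_univ r), Finset.card_univ] at h1
    have h2 : 0 < Fintype.card V := Fintype.card_pos_iff.2 ⟨r⟩
    rw [Nat.card_eq_fintype_card (α := V)]
    omega
  · exact hconn.card_vert_le_card_edgeSet_add_one

end H35ST
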