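import Pool.Agent.H35.ST.TreeA

/-! Module TREE-B: isomorphism invariants (degree multiset, `sg` multiset). -/

namespace H35ST

open Finset

variable {V : Type*} [Fintype V] [DecidableEq V]

/-- the neighbours of `x` as a finset -/
theorem nbr_eq {G : SimpleGraph V} {r : V} {f : V → V} (hf : IsPar G r f) (x : V) :
    (parTree r f).neighborSet x =
      ((chn r f x ∪ if x = r then ∅ else {f x} : Finset V) : Set V) := by
  ext v
  rw [SimpleGraph.mem_neighborSet, parTree_adj hf, Finset.mem_coe, Finset.mem_union]
  unfold chn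
  rw [Finset.mem_filter]
  by_cases h : x = r
  · rw [if_pos h]
    simp only [h, ne_eq, not_true_eq_false, false_and, false_or, mem_univ, true_and,
      Finset.notMem_empty, or_false]
  · rw [if_neg h]
    simp only [ne_eq, h, not_false_eq_true, true_and, mem_univ, Finset.mem_singleton]
    rw [or_comm, eq_comm (a := f x)]

theorem notMem_chn {G : SimpleGraph V} {r : V} {f : V → V} (hf : IsPar G r f) {x : V}
    (hx : x ≠ r) : f x ∉ chn r f x := by
  obtain ⟨-, ht, hht⟩ := hf
  unfold chn
  rw [Finset.mem_filter]
  rintro ⟨-, h1, h2⟩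
  have h3 := hht _ h1
  have h4 := hht _ hx
  rw [h2] at h3
  omega

/-- `dg` is the degree: the neighbours of `x` are its children and, for `x ≠ r`, `f x`
(which is not a child of `x`, by the height). -/
theorem ncard_nbr {G : SimpleGraph V} {r : V} {f : V → V} (hf : IsPar G r f) (x : V) :
    ((parTree r f).neighborSet x).ncard = dg r f x := by
  rw [nbr_eq hf, Set.ncard_coe_finset]
  unfold dg
  by_cases h : x = r
  · rw [if_pos h, if_pos h, Finset.union_empty, add_zero]
  · rw [if_neg h, if_neg h, Finset.card_union_of_disjoint, Finset.card_singleton]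
    rw [Finset.disjoint_singleton_right]
    exact notMem_chn hf h

theorem ncard_nbr_iso {T T' : SimpleGraph V} (e : T ≃g T') (x : V) :
    (T'.neighborSet (e x)).ncard = (T.neighborSet x).ncard := by
  have h : T'.neighborSet (e x) = e '' T.neighborSet x := by
    ext v
    constructor
    · intro hv
      refine ⟨e.symm v, ?_, e.apply_symm_apply v⟩
      rw [SimpleGraph.mem_neighborSet] at hv ⊢
      rw [← e.map_adj_iff, e.apply_symm_apply]
      exact hv
    · rintro ⟨w, hw, rfl⟩
      exact e.map_adj_iff.2 hw
  rw [h]
  exact Set.ncard_image_of_injective _ e.injective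

/-- Isomorphic trees have the same multiset of degrees. -/
theorem dg_multiset {G : SimpleGraph V} {r : V} {f g : V → V} (hf : IsPar G r f) (hg : IsPar G r g)
    (h : Nonempty (parTree r f ≃g parTree r g)) :
    (univ : Finset V).val.map (dg r f) = (univ : Finset V).val.map (dg r g) := by
  obtain ⟨e⟩ := h
  have h1 : dg r f = dg r g ∘ e.toEquiv := by
    funext x
    have := ncard_nbr_iso e x
    rw [ncard_nbr hf, ncard_nbr hg] at this
    exact this.symm
  rw [h1, ← Multiset.map_map, Multiset.map_univ_val_equiv]

/-- the graph invariant behind `sg` -/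
noncomputable def sgG (T : SimpleGraph V) (x : V) : ℕ × ℕ :=
  ({v | v ∈ T.neighborSet x ∧ (T.neighborSet v).ncard = 1}.ncard,
    {v | v ∈ T.neighborSet x ∧ (T.neighborSet v).ncard ≠ 1}.ncard)

theorem sgG_iso {T T' : SimpleGraph V} (e : T ≃g T') (x : V) : sgG T' (e x) = sgG T x := by
  have key : ∀ p : ℕ → Prop,
      {v | v ∈ T'.neighborSet (e x) ∧ p (T'.neighborSet v).ncard} =
        e '' {v | v ∈ T.neighborSet x ∧ p (T.neighborSet v).ncard} := by
    intro p
    ext v
    constructor
    · rintro ⟨hv, hp⟩
      refine ⟨e.symm v, ⟨?_, ?_⟩, e.apply_symm_apply v⟩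
      · rw [SimpleGraph.mem_neighborSet] at hv ⊢
        rw [← e.map_adj_iff, e.apply_symm_apply]
        exact hv
      · rw [← ncard_nbr_iso e, e.apply_symm_apply]
        exact hp
    · rintro ⟨w, ⟨hw, hp⟩, rfl⟩
      refine ⟨e.map_adj_iff.2 hw, ?_⟩
      rw [ncard_nbr_iso e]
      exact hp
  unfold sgG
  rw [key (fun n => n = 1), key (fun n => n ≠ 1), Set.ncard_image_of_injective _ e.injective,
    Set.ncard_image_of_injective _ e.injective]

theorem dg_eq_one {r : V} {f : V → V} (h2 : 2 ≤ (chn r f r).card) (v : V) :
    dg r f v = 1 ↔ v ≠ r ∧ chn r f v = ∅ := by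
  unfold dg
  by_cases h : v = r
  · rw [if_pos h, h]
    simp only [ne_eq, not_true_eq_false, false_and, iff_false]
    omega
  · rw [if_neg h, ← Finset.card_eq_zero]
    constructor
    · intro h3
      exact ⟨h, by omega⟩
    · rintro ⟨-, h3⟩
      omega

theorem sg_eq {G : SimpleGraph V} {r : V} {f : V → V} (hf : IsPar G r f)
    (h2 : 2 ≤ (chn r f r).card) (x : V) : sg r f x = sgG (parTree r f) x := by
  have hmem : ∀ v, v ∈ chn r f x → v ≠ r := by
    intro v hv
    unfold chn at hv
    exact (Finset.mem_filter.1 hv).2.1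
  have hpar : x ≠ r → dg r f (f x) ≠ 1 := by
    intro hx h
    rw [dg_eq_one h2] at h
    have : x ∈ chn r f (f x) := by
      unfold chn
      rw [Finset.mem_filter]
      exact ⟨mem_univ _, hx, rfl⟩
    rw [h.2] at this
    exact Finset.notMem_empty _ this
  have h1 : {v | v ∈ (parTree r f).neighborSet x ∧ ((parTree r f).neighborSet v).ncard = 1} =
      (((chn r f x).filter fun v => chn r f v = ∅ : Finset V) : Set V) := by
    ext v
    rw [Set.mem_ofPred_eq, ncard_nbr hf, dg_eq_one h2, nbr_eq hf, Finset.mem_coe, Finset.mem_coe,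
      Finset.mem_union, Finset.mem_filter]
    constructor
    · rintro ⟨h | h, h3, h4⟩
      · exact ⟨h, h4⟩
      · by_cases hx : x = r
        · rw [if_pos hx] at h
          exact absurd h (Finset.notMem_empty _)
        · rw [if_neg hx, Finset.mem_singleton] at h
          subst h
          exact absurd ((dg_eq_one h2 _).2 ⟨h3, h4⟩) (hpar hx)
    · rintro ⟨h, h4⟩
      exact ⟨Or.inl h, hmem v h, h4⟩
  have h1' : {v | v ∈ (parTree r f).neighborSet x ∧ ((parTree r f).neighborSet v).ncard ≠ 1} =
      ((((chn r f x).filter fun v => chn r f v ≠ ∅) ∪ if x = r then ∅ else {f x} :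
        Finset V) : Set V) := by
    ext v
    rw [Set.mem_ofPred_eq, ncard_nbr hf, ne_eq, dg_eq_one h2, nbr_eq hf, Finset.mem_coe,
      Finset.mem_coe, Finset.mem_union, Finset.mem_union, Finset.mem_filter]
    constructor
    · rintro ⟨h | h, h3⟩
      · exact Or.inl ⟨h, fun h4 => h3 ⟨hmem v h, h4⟩⟩
      · exact Or.inr h
    · rintro (⟨h, h4⟩ | h)
      · exact ⟨Or.inl h, fun h3 => h4 h3.2⟩
      · refine ⟨Or.inr h, ?_⟩
        by_cases hx : x = r
        · rw [if_pos hx] at h
          exact absurd h (Finset.notMem_empty _)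
        · rw [if_neg hx, Finset.mem_singleton] at h
          subst h
          intro h3
          exact hpar hx ((dg_eq_one h2 _).2 h3)
  unfold sgG
  rw [h1, h1', Set.ncard_coe_finset, Set.ncard_coe_finset]
  unfold sg
  refine Prod.ext rfl ?_
  simp only
  by_cases hx : x = r
  · rw [if_pos hx, if_pos hx, Finset.union_empty, add_zero]
  · rw [if_neg hx, if_neg hx, Finset.card_union_of_disjoint, Finset.card_singleton]
    rw [Finset.disjoint_singleton_right, Finset.mem_filter]
    exact fun h => notMem_chn hf hx h.1

/-- If the root has two children then a vertex has degree one iff it is childless and not the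
root, and `sg x` = (number of neighbours of degree one, number of the other neighbours), because
the parent `f x` of `x ≠ r` has a child (and is not of degree one). -/
theorem sg_multiset {G : SimpleGraph V} {r : V} {f g : V → V} (hf : IsPar G r f) (hg : IsPar G r g)
    (h2f : 2 ≤ (chn r f r).card) (h2g : 2 ≤ (chn r g r).card)
    (h : Nonempty (parTree r f ≃g parTree r g)) :
    (univ : Finset V).val.map (sg r f) = (univ : Finset V).val.map (sg r g) := by
  obtain ⟨e⟩ := h
  have h1 : sg r f = sg r g ∘ e.toEquiv := by
    funext x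
    have := sgG_iso e x
    rw [← sg_eq hf h2f, ← sg_eq hg h2g] at this
    exact this.symm
  rw [h1, ← Multiset.map_map, Multiset.map_univ_val_equiv]

end H35ST
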